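import Pool.Agent.H.MP_559555_nt.B
import Pool.Agent.Lib.helper27.WPNT

set_option autoImplicit false

namespace Pool.Agent.H.MP_636046_nt
open Finset Pool.Agent.H.MP_3aed06_nt Pool.Agent.H.MP_559555_nt Nat

/-- the parity condition -/
def Par (m b a c d : ℕ) : Prop := ∀ q : ℕ, q.Prime →
  Even (∑ n ∈ Ioc b m, n.factorization q + ∑ n ∈ Ioc c a, n.factorization q + (d !).factorization q)

lemma fact_Ioc {b m : ℕ} (h : b ≤ m) : m ! = b ! * ∏ n ∈ Ioc b m, n := by
  induction m, h using Nat.le_induction with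
  | base => simp
  | succ m h ih => rw [prod_Ioc_succ_top h, factorial_succ, ih]; ring

lemma prod_Ioc_eq {b m : ℕ} (h : b ≤ m) : ∏ n ∈ Ioc b m, n = (m - b)! * m.choose (m - b) := by
  apply Nat.eq_of_mul_eq_mul_left (factorial_pos b)
  rw [← fact_Ioc h, ← choose_mul_factorial_mul_factorial h, choose_symm h]
  ring

lemma fz_prod {A : Finset ℕ} (h : ∀ n ∈ A, n ≠ 0) (q : ℕ) :
    (∏ n ∈ A, n).factorization q = ∑ n ∈ A, n.factorization q :=
  factorization_prod_apply h

lemma Ioc_ne {b m : ℕ} : ∀ n ∈ Ioc b m, n ≠ 0 := fun n hn => by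
  have := (mem_Ioc.mp hn).1; omega

lemma par_of_sq {m b a c d : ℕ} (h1 : b ≤ m) (h2 : c ≤ a)
    (h : IsSquare (m ! * (b ! * (a ! * (c ! * d !))))) : Par m b a c d := by
  intro q _
  obtain ⟨r, hr⟩ := h
  have hr0 : r ≠ 0 := by
    rintro rfl
    exact absurd hr (by positivity)
  have e := congrArg (fun n => n.factorization q) hr
  have n1 : ∏ n ∈ Ioc b m, n ≠ 0 := prod_ne_zero_iff.mpr Ioc_ne
  have n2 : ∏ n ∈ Ioc c a, n ≠ 0 := prod_ne_zero_iff.mpr Ioc_ne
  rw [Nat.factorization_mul (by positivity) (by positivity),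
    Nat.factorization_mul (by positivity) (by positivity),
    Nat.factorization_mul (by positivity) (by positivity),
    Nat.factorization_mul (by positivity) (by positivity), Nat.factorization_mul hr0 hr0,
    fact_Ioc h1, fact_Ioc h2, Nat.factorization_mul (by positivity) n1,
    Nat.factorization_mul (by positivity) n2] at e
  simp only [Finsupp.add_apply, fz_prod Ioc_ne] at e
  rw [Nat.even_iff]
  omega

lemma top (s : Finset ℕ) (k B : ℕ) (hk : s.card ≤ k + 1) (hB : ∀ x ∈ s, x ≤ B) :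
    ∃ b ≤ B, ∃ s' : Finset ℕ, s'.card ≤ k ∧ (∀ x ∈ s', x ≤ b) ∧
      ∏ x ∈ s, x ! = b ! * ∏ x ∈ s', x ! := by
  rcases s.eq_empty_or_nonempty with rfl | hne
  · exact ⟨0, Nat.zero_le _, ∅, by simp, by simp, by simp⟩
  · refine ⟨s.max' hne, hB _ (max'_mem _ _), s.erase (s.max' hne), ?_, ?_, ?_⟩
    · rw [card_erase_of_mem (max'_mem _ _)]; omega
    · exact fun x hx => le_max' _ _ (mem_of_mem_erase hx)
    · rw [mul_prod_erase _ _ (max'_mem _ _)]

lemma rep5 {m : ℕ} {s : Finset ℕ} (h0 : 0 < m) (hk : s.card ≤ 5) (hm : m ∈ s)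
    (hs : ∀ a ∈ s, a ≤ m) (h : IsSquare (∏ a ∈ s, a !)) :
    ∃ b a c d, d ≤ c ∧ c ≤ a ∧ a ≤ b ∧ b < m ∧ Par m b a c d := by
  rw [← mul_prod_erase _ _ hm] at h
  obtain ⟨b, hb, s1, k1, l1, e1⟩ := top (s.erase m) 3 (m - 1) (by rw [card_erase_of_mem hm]; omega)
    (fun x hx => by have := hs x (mem_of_mem_erase hx); have := ne_of_mem_erase hx; omega)
  obtain ⟨a, ha, s2, k2, l2, e2⟩ := top s1 2 b k1 l1
  obtain ⟨c, hc, s3, k3, l3, e3⟩ := top s2 1 a k2 l2
  obtain ⟨d, hd, s4, k4, l4, e4⟩ := top s3 0 c k3 l3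
  rw [Nat.le_zero, Finset.card_eq_zero] at k4
  rw [e1, e2, e3, e4, k4, prod_empty, mul_one] at h
  exact ⟨b, a, c, d, hd, hc, ha, by omega, par_of_sq (by omega) hc h⟩

lemma rep3 {m : ℕ} {s : Finset ℕ} (h0 : 0 < m) (hk : s.card ≤ 3) (hm : m ∈ s)
    (hs : ∀ a ∈ s, a ≤ m) (h : IsSquare (∏ a ∈ s, a !)) :
    ∃ b d, d ≤ b ∧ b < m ∧ Par m b d d d := by
  rw [← mul_prod_erase _ _ hm] at h
  obtain ⟨b, hb, s1, k1, l1, e1⟩ := top (s.erase m) 1 (m - 1) (by rw [card_erase_of_mem hm]; omega)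
    (fun x hx => by have := hs x (mem_of_mem_erase hx); have := ne_of_mem_erase hx; omega)
  obtain ⟨d, hd, s4, k4, l4, e4⟩ := top s1 0 b k1 l1
  rw [Nat.le_zero, Finset.card_eq_zero] at k4
  rw [e1, e4, k4, prod_empty, mul_one] at h
  have := par_of_sq (a := 0) (c := 0) (d := d) (by omega : b ≤ m) le_rfl (by simpa using h)
  exact ⟨b, d, hd, by omega, by simpa [Par] using this⟩

lemma fac_zero {q d : ℕ} (hq : q.Prime) (h : d < q) : (d !).factorization q = 0 :=
  factorization_eq_zero_of_not_dvd (by rw [hq.dvd_factorial]; omega)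

lemma fac_one {q d : ℕ} (hq : q.Prime) (h1 : q ≤ d) (h2 : d < 2 * q) : (d !).factorization q = 1 := by
  have := hq.two_le
  rw [factorization_factorial hq (b := 2) (log_lt_of_lt_pow (by omega) (by nlinarith))]
  simp only [Nat.Ico_succ_singleton, sum_singleton, pow_one]
  exact Nat.div_eq_of_lt_le (by omega) (by omega)

lemma uniq {b m q n n' : ℕ} (hL : m - b ≤ q) (hn : n ∈ Ioc b m) (hn' : n' ∈ Ioc b m)
    (h : q ∣ n) (h' : q ∣ n') : n = n' := by
  rw [mem_Ioc] at hn hn'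
  rcases le_total n n' with e | e
  · have := Nat.eq_zero_of_dvd_of_lt ((Nat.dvd_sub h' h)) (by omega); omega
  · have := Nat.eq_zero_of_dvd_of_lt ((Nat.dvd_sub h h')) (by omega); omega

lemma sum_single {b m q n : ℕ} (hL : m - b ≤ q) (hn : n ∈ Ioc b m) (h : q ∣ n) :
    ∑ n ∈ Ioc b m, n.factorization q = n.factorization q := by
  apply sum_eq_single_of_mem n hn
  intro n' hn' hne
  exact factorization_eq_zero_of_not_dvd (fun e => hne (uniq hL hn' hn e h))

lemma sum_zero {A : Finset ℕ} {q : ℕ} (h : ¬ ∃ n ∈ A, q ∣ n) : ∑ n ∈ A, n.factorization q = 0 :=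
  sum_eq_zero fun n hn => factorization_eq_zero_of_not_dvd (fun e => h ⟨n, hn, e⟩)

lemma dvd_of_odd {n q : ℕ} (h : Odd (n.factorization q)) : q ∣ n :=
  dvd_of_factorization_pos (fun e => by rw [e] at h; simp at h)

lemma Par.symm {m b a c d : ℕ} (h : Par m b a c d) : Par a c m b d := fun q hq => by
  have := h q hq; rwa [add_comm (∑ n ∈ Ioc b m, _)] at this

lemma Par.p1 {m b a c d q : ℕ} (h : Par m b a c d) (hq : q.Prime) (h1 : q ≤ d) (h2 : d < 2 * q) :
    (∃ n ∈ Ioc b m, q ∣ n) ∨ ∃ n ∈ Ioc c a, q ∣ n := by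
  by_contra e
  rw [not_or] at e
  have := h q hq
  rw [sum_zero e.1, sum_zero e.2, fac_one hq h1 h2] at this
  simp at this

lemma Par.p2 {m b a c d q n : ℕ} (h : Par m b a c d) (hq : q.Prime) (h1 : d < q) (h2 : m - b ≤ q)
    (hn : n ∈ Ioc b m) (ho : Odd (n.factorization q)) : ∃ n ∈ Ioc c a, q ∣ n := by
  by_contra e
  have := h q hq
  rw [sum_zero e, fac_zero hq h1, sum_single h2 hn (dvd_of_odd ho)] at this
  simp only [add_zero] at this
  exact (Nat.not_even_iff_odd.mpr ho) this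

lemma fz_one {n q : ℕ} (hq : q.Prime) (hn : n ≠ 0) (h : q ∣ n) (h2 : n < q ^ 2) :
    n.factorization q = 1 := by
  have h1 := (hq.dvd_iff_one_le_factorization hn).mp h
  have h3 : ¬ 2 ≤ n.factorization q := fun e =>
    absurd (Nat.le_of_dvd (Nat.pos_of_ne_zero hn) ((hq.pow_dvd_iff_le_factorization hn).mpr e))
      (by omega)
  omega

lemma Par.p3 {m b a c d q n : ℕ} (h : Par m b a c d) (hq : q.Prime) (h1 : d < q) (h2 : m - b ≤ q)
    (h3 : m < q ^ 2) (hn : n ∈ Ioc b m) (ho : q ∣ n) : ∃ n ∈ Ioc c a, q ∣ n :=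
  h.p2 hq h1 h2 hn (by
    rw [fz_one hq (Ioc_ne n hn) ho (lt_of_le_of_lt (mem_Ioc.mp hn).2 h3)]; exact odd_one)

lemma log_eq (N : ℕ) (P : Finset ℕ) (h : N.primeFactors ⊆ P) :
    Real.log N = ∑ q ∈ P, (N.factorization q : ℝ) * Real.log q := by
  rw [Real.log_nat_eq_sum_factorization]
  exact Finsupp.sum_of_support_subset _ h _ (fun _ _ => by simp)

lemma mass_le_log {Q : Finset ℕ} {N : ℕ} (hN : N ≠ 0) (h : ∀ q ∈ Q, q.Prime ∧ q ∣ N) :
    ∑ q ∈ Q, Real.log q ≤ Real.log N := by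
  rw [← Real.log_prod (fun q hq => by exact_mod_cast (h q hq).1.ne_zero), ← cast_prod]
  apply Real.log_le_log
  · exact_mod_cast prod_pos (fun q hq => (h q hq).1.pos)
  · exact_mod_cast Nat.le_of_dvd (Nat.pos_of_ne_zero hN)
      (Finset.prod_primes_dvd N (fun q hq => (h q hq).1.prime) (fun q hq => (h q hq).2))

lemma theta_le {Q : Finset ℕ} {Y : ℕ} (h : ∀ q ∈ Q, q.Prime ∧ q ≤ Y) :
    ∑ q ∈ Q, Real.log q ≤ 2 * Y := by
  have h1 := Chebyshev.theta_le_log4_mul_x (x := Y) (by positivity)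
  have h2 : ∑ q ∈ Q, Real.log q ≤ Chebyshev.theta Y := by
    unfold Chebyshev.theta
    rw [Nat.floor_natCast]
    exact sum_le_sum_of_subset_of_nonneg (fun q hq => mem_filter.mpr
      ⟨mem_Ioc.mpr ⟨(h q hq).1.pos, (h q hq).2⟩, (h q hq).1⟩) (fun _ _ _ => Real.log_natCast_nonneg _)
  have h3 : Real.log 4 ≤ 2 := by
    rw [show (4 : ℝ) = 2 ^ 2 by norm_num, Real.log_pow]
    have := Real.log_two_lt_d9
    push_cast; linarith
  nlinarith [show (0 : ℝ) ≤ Y by positivity]

lemma log_le_pow {n u : ℕ} (h : n ≤ 2 ^ u) : Real.log n ≤ u := by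
  rcases Nat.eq_zero_or_pos n with rfl | hn
  · simp
  refine (Real.log_le_log (by exact_mod_cast hn) (by exact_mod_cast h : (n : ℝ) ≤ 2 ^ u)).trans ?_
  rw [Real.log_pow]
  have := Real.log_two_lt_d9
  nlinarith [show (0 : ℝ) ≤ u by positivity]

/-- mass identity -/
lemma ML (b m L' Y Z : ℕ) (hb : b ≤ m) (hm : m ≤ 2 * b) (hm0 : 0 < m) (A : Finset ℕ) (hA : A ⊆ Ioc b m)
    (hL : L' ! ∣ ∏ n ∈ Ioc b m \ A, n) (hc : A.card + L' = m - b) (hY : m - b ≤ Y) (hZ : m ≤ Z ^ 2) :
    (A.card : ℝ) * Real.log (m / (2 * (m - b : ℕ))) ≤ Z * Real.log m + 2 * Y +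
      ∑ q ∈ (range (m + 1)).filter (fun q => q.Prime ∧ Y < q ∧ ∃ n ∈ A, q ∣ n), Real.log q := by
  set P := (range (m + 1)).filter Nat.Prime with hP
  have hA0 : ∀ n ∈ A, n ≠ 0 := fun n hn => Ioc_ne n (hA hn)
  have n1 : ∏ n ∈ A, n ≠ 0 := prod_ne_zero_iff.mpr hA0
  have n2 : ∏ n ∈ Ioc b m \ A, n ≠ 0 := prod_ne_zero_iff.mpr fun n hn => Ioc_ne n (sdiff_subset hn)
  have hf : ∀ L ≤ m, (L !).primeFactors ⊆ P := fun L hL q hq => by
    have h1 := prime_of_mem_primeFactors hq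
    have h2 := h1.dvd_factorial.mp (dvd_of_mem_primeFactors hq)
    exact mem_filter.mpr ⟨mem_range.mpr (by omega), h1⟩
  have e1 := log_eq _ P (show (∏ n ∈ A, n).primeFactors ⊆ P from fun q hq => by
    have h1 := prime_of_mem_primeFactors hq
    obtain ⟨n, hn, h2⟩ := (Prime.dvd_finset_prod_iff h1.prime _).mp (dvd_of_mem_primeFactors hq)
    have := Nat.le_of_dvd (Nat.pos_of_ne_zero (hA0 n hn)) h2
    have := (mem_Ioc.mp (hA hn)).2
    exact mem_filter.mpr ⟨mem_range.mpr (by omega), h1⟩)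
  have e2 := log_eq _ P (hf L' (by omega))
  have e3 := log_eq _ P (hf (m - b) (by omega))
  have key : ∀ q ∈ P, ((∏ n ∈ A, n).factorization q : ℝ) * Real.log q +
      ((L' !).factorization q : ℝ) * Real.log q ≤ (((m - b)!).factorization q : ℝ) * Real.log q +
      ((if q ≤ Z then Real.log m else 0) + (if q ≤ Y then Real.log q else 0) +
        (if Y < q ∧ ∃ n ∈ A, q ∣ n then Real.log q else 0)) := by
    intro q hq
    have qp := (mem_filter.mp hq).2
    have l0 := Real.log_natCast_nonneg q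
    have lm := Real.log_natCast_nonneg m
    have a1 : (∏ n ∈ A, n).factorization q + (L' !).factorization q ≤
        ((m - b)!).factorization q + (m.choose (m - b)).factorization q := by
      have b1 := (factorization_le_iff_dvd (factorial_ne_zero _) n2).mpr hL q
      have b2 := congrArg (fun n => n.factorization q) ((prod_sdiff hA).trans (prod_Ioc_eq hb))
      rw [Nat.factorization_mul n2 n1, Nat.factorization_mul (factorial_ne_zero _)
        (choose_pos (by omega)).ne'] at b2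
      simp only [Finsupp.add_apply] at b2
      omega
    have a2 : ((∏ n ∈ A, n).factorization q : ℝ) * Real.log q +
        ((L' !).factorization q : ℝ) * Real.log q ≤ (((m - b)!).factorization q : ℝ) * Real.log q +
        ((m.choose (m - b)).factorization q : ℝ) * Real.log q := by
      rw [← add_mul, ← add_mul]
      exact mul_le_mul_of_nonneg_right (by exact_mod_cast a1) l0
    have a3 : ((m.choose (m - b)).factorization q : ℝ) * Real.log q ≤ Real.log m := by
      rw [← Real.log_pow]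
      apply Real.log_le_log (by have := qp.pos; positivity)
      exact_mod_cast pow_factorization_choose_le hm0
    have a4 : ¬ q ≤ Z → ((m.choose (m - b)).factorization q : ℝ) * Real.log q ≤ Real.log q :=
      fun h => mul_le_of_le_one_left l0 (by
        exact_mod_cast factorization_choose_le_one (by nlinarith))
    by_cases c1 : q ≤ Z
    · rw [if_pos c1]; split_ifs <;> linarith
    · have := a4 c1
      rw [if_neg c1]
      by_cases c2 : q ≤ Y
      · rw [if_pos c2]; split_ifs <;> linarith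
      · rw [if_neg c2]
        split_ifs with c3
        · linarith
        · rw [fz_prod hA0, sum_zero (fun e => c3 ⟨by omega, e⟩), fac_zero qp (by omega)]
          simp only [cast_zero, zero_mul, add_zero]
          positivity
  have h1 := sum_le_sum key
  rw [sum_add_distrib, sum_add_distrib, ← e1, ← e2, ← e3, sum_add_distrib, sum_add_distrib,
    ← sum_filter, ← sum_filter, ← sum_filter, sum_const, nsmul_eq_mul, hP, filter_filter _ _ (range _),
    filter_filter _ _ (range _), filter_filter _ _ (range _)] at h1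
  have h2 : (((range (m + 1)).filter (fun q => q.Prime ∧ q ≤ Z)).card : ℝ) ≤ Z := by
    have : ((range (m + 1)).filter (fun q => q.Prime ∧ q ≤ Z)).card ≤ (Ioc 0 Z).card :=
      card_le_card fun q hq => mem_Ioc.mpr ⟨(mem_filter.mp hq).2.1.pos, (mem_filter.mp hq).2.2⟩
    rw [Nat.card_Ioc] at this
    exact_mod_cast this
  have h3 := mul_le_mul_of_nonneg_right h2 (Real.log_natCast_nonneg m)
  have h4 := theta_le (Q := (range (m + 1)).filter (fun q => q.Prime ∧ q ≤ Y)) (Y := Y)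
    (fun q hq => (mem_filter.mp hq).2)
  rcases Nat.eq_zero_or_pos (m - b) with h0 | h0
  · have : A.card = 0 := by omega
    rw [this, cast_zero, zero_mul]
    have := Real.log_natCast_nonneg m
    exact add_nonneg (by positivity) (sum_nonneg fun _ _ => Real.log_natCast_nonneg _)
  have h5 : Real.log ((m - b)! : ℕ) ≤ Real.log (L' ! : ℕ) + A.card * Real.log (m - b : ℕ) := by
    rw [← Real.log_pow, ← Real.log_mul (by positivity) (by positivity)]
    apply Real.log_le_log (by positivity)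
    have b1 := factorial_mul_descFactorial (n := m - b) (k := A.card) (by omega)
    rw [show m - b - A.card = L' by omega] at b1
    have b2 := descFactorial_le_pow (m - b) A.card
    rw [← b1]
    exact_mod_cast Nat.mul_le_mul_left _ b2
  have h6 : (A.card : ℝ) * Real.log (m / 2) ≤ Real.log (∏ n ∈ A, n : ℕ) := by
    rw [cast_prod, Real.log_prod (fun n hn => by exact_mod_cast hA0 n hn), ← nsmul_eq_mul]
    apply card_nsmul_le_sum
    intro n hn
    apply Real.log_le_log (by positivity)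
    have : m ≤ 2 * n := by have := (mem_Ioc.mp (hA hn)).1; omega
    have : (m : ℝ) ≤ 2 * n := by exact_mod_cast this
    linarith
  rw [← div_div, Real.log_div (by positivity) (by positivity), mul_sub]
  linarith

lemma BT1 (k e L t : ℕ) (hk : 0 < k) (ht : 1 ≤ t) (Q : Finset ℕ)
    (hQ : ∀ q ∈ Q, q.Prime ∧ 2 ^ t < q ∧ e < q * k ∧ q * k ≤ e + L) :
    (Q.card : ℝ) ≤ 4 * L / t * (1 / k) + 10 * 2 ^ (4 * t) := by
  have hlt : ∀ q ∈ Q, e / k < q := fun q hq => (Nat.div_lt_iff_lt_mul hk).mpr (hQ q hq).2.2.1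
  have h1 := sieve_one 1 0 (e / k) (L / k + 2) (2 ^ t) (by positivity) _
    (by positivity) (H_ge t) one_pos (Q.image (fun q => q - e / k))
    (by
      intro n hn
      obtain ⟨q, hq, rfl⟩ := mem_image.mp hn
      have h1 : q ≤ (e + L) / k := (Nat.le_div_iff_mul_le hk).mpr (hQ q hq).2.2.2
      have h3 : (e + L) / k ≤ e / k + L / k + 1 := by
        rw [Nat.add_div hk]; split_ifs <;> omega
      rw [mem_range]
      generalize (e + L) / k = A at h1 h3
      generalize e / k = B at h3 ⊢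
      generalize L / k = C at h3 ⊢
      omega)
    (by
      intro n hn
      obtain ⟨q, hq, rfl⟩ := mem_image.mp hn
      rw [one_mul, add_zero, Nat.add_sub_cancel' (hlt q hq).le]
      exact ⟨(hQ q hq).1, (hQ q hq).2.1⟩)
  rw [Finset.card_image_of_injOn (fun u hu v hv e => by
    have := hlt u hu; have := hlt v hv; omega)] at h1
  have e1 : sg 1 = 1 := by simp [sg]
  have ht' : (1 : ℝ) ≤ t := by exact_mod_cast ht
  have a1 : ((L / k + 2 : ℕ) : ℝ) ≤ L * (1 / k) + 2 := by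
    have := Nat.cast_div_le (α := ℝ) (m := L) (n := k)
    push_cast; rw [mul_one_div]; linarith
  have a2 : 2 * sg 1 / (((t : ℝ) + 1) / 2) ≤ 4 / t := by
    rw [e1, div_le_div_iff₀ (by positivity) (by positivity)]; linarith
  have a3 := mul_le_mul a1 a2 (by rw [e1]; positivity) (by positivity)
  have a4 : (8 : ℝ) / t ≤ 8 * 2 ^ (4 * t) := by
    have : (1 : ℝ) ≤ 2 ^ (4 * t) := one_le_pow₀ (by norm_num)
    rw [div_le_iff₀ (by positivity)]; nlinarith
  have e2 : (((2 ^ t : ℕ) : ℝ)) ^ 4 = 2 ^ (4 * t) := by push_cast; ring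
  have e3 : (L * (1 / k) + 2) * (4 / t : ℝ) = 4 * L / t * (1 / k) + 8 / t := by ring
  rw [e2] at h1
  linarith

lemma BTK (K : Finset ℕ) (e L t : ℕ) (M : ℝ) (hM : 0 ≤ M) (hK : ∀ k ∈ K, 0 < k) (ht : 1 ≤ t)
    (Q : Finset ℕ) (hQ : ∀ q ∈ Q, q.Prime ∧ 2 ^ t < q ∧ Real.log q ≤ M ∧
      ∃ k ∈ K, e < q * k ∧ q * k ≤ e + L) :
    ∑ q ∈ Q, Real.log q ≤ M * (4 * L / t * ∑ k ∈ K, 1 / (k : ℝ) + 10 * 2 ^ (4 * t) * K.card) := by
  have h1 := sum_le_card_nsmul Q (fun q : ℕ => Real.log q) M (fun q hq => (hQ q hq).2.2.1)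
  have h2 : Q.card ≤ ∑ k ∈ K, (Q.filter (fun q => e < q * k ∧ q * k ≤ e + L)).card := by
    refine le_trans (card_le_card ?_) card_biUnion_le
    intro q hq
    obtain ⟨k, hk, h⟩ := (hQ q hq).2.2.2
    exact mem_biUnion.mpr ⟨k, hk, mem_filter.mpr ⟨hq, h⟩⟩
  have h3 := sum_le_sum (s := K) fun k hk => BT1 k e L t (hK k hk) ht
    (Q.filter (fun q => e < q * k ∧ q * k ≤ e + L)) (fun q hq => ⟨(hQ q (mem_filter.mp hq).1).1,
      (hQ q (mem_filter.mp hq).1).2.1, (mem_filter.mp hq).2⟩)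
  rw [sum_add_distrib, ← mul_sum, sum_const, nsmul_eq_mul, mul_comm (K.card : ℝ)] at h3
  have h4 : (Q.card : ℝ) ≤ ∑ k ∈ K, ((Q.filter (fun q => e < q * k ∧ q * k ≤ e + L)).card : ℝ) := by
    exact_mod_cast h2
  rw [nsmul_eq_mul, mul_comm] at h1
  exact h1.trans (mul_le_mul_of_nonneg_left (h4.trans h3) hM)

lemma BTD (e L t Y : ℕ) (M : ℝ) (hM : 0 ≤ M) (ht : 1 ≤ t) (hY : 2 ^ t ≤ Y) (hL : L ≤ e ∨ 2 * L ≤ Y)
    (Q : Finset ℕ) (hQ : ∀ q ∈ Q, q.Prime ∧ Y < q ∧ q ≤ 4 * Y ∧ Real.log q ≤ M ∧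
      ∃ n ∈ Ioc e (e + L), q ∣ n) :
    ∑ q ∈ Q, Real.log q ≤ M * (28 * L / t + 70 * 2 ^ (4 * t) * (e / Y + 1 : ℕ)) := by
  rcases Q.eq_empty_or_nonempty with rfl | ⟨q0, hq0⟩
  · simp only [sum_empty]; positivity
  have hY0 : 0 < Y := lt_of_lt_of_le (by positivity) hY
  have hL' : L ≤ e := by
    rcases hL with h | h
    · exact h
    · obtain ⟨-, h1, -, -, n, hn, h2⟩ := hQ q0 hq0
      have := Nat.le_of_dvd (Nat.pos_of_ne_zero (Ioc_ne n hn)) h2
      have := (mem_Ioc.mp hn).2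
      omega
  set K := e / (4 * Y) with hK
  have k1 : e < 4 * Y * (K + 1) := Nat.lt_mul_div_succ _ (by omega)
  have h1 := BTK (Ioc K (8 * K + 7)) e L t M hM (fun k hk => Nat.pos_of_ne_zero (Ioc_ne k hk)) ht Q
    (fun q hq => by
      obtain ⟨a1, a2, a3, a4, n, hn, k, rfl⟩ := hQ q hq
      rw [mem_Ioc] at hn
      refine ⟨a1, by omega, a4, k, mem_Ioc.mpr ⟨?_, ?_⟩, hn⟩
      · exact (Nat.div_lt_iff_lt_mul (by omega)).mpr (by nlinarith)
      · by_contra h
        have : (8 * K + 8) * Y ≤ k * q := Nat.mul_le_mul (by omega) a2.le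
        nlinarith)
  refine h1.trans (mul_le_mul_of_nonneg_left ?_ hM)
  have h2 := sum_le_card_nsmul (Ioc K (8 * K + 7)) (fun k : ℕ => 1 / (k : ℝ)) (1 / (K + 1))
    (fun k hk => one_div_le_one_div_of_le (by positivity) (by exact_mod_cast (mem_Ioc.mp hk).1))
  have e1 : ((Ioc K (8 * K + 7)).card : ℝ) = 7 * (K + 1) := by
    rw [Nat.card_Ioc, show 8 * K + 7 - K = 7 * (K + 1) by omega]; push_cast; ring
  rw [nsmul_eq_mul, e1, mul_one_div, mul_div_assoc, div_self (by positivity), mul_one] at h2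
  rw [e1]
  have h3 : (K : ℝ) + 1 ≤ (e / Y + 1 : ℕ) := by
    have : K + 1 ≤ e / Y + 1 := Nat.succ_le_succ (Nat.div_le_div_left (by omega) hY0)
    exact_mod_cast this
  have h4 : 4 * L / t * ∑ k ∈ Ioc K (8 * K + 7), 1 / (k : ℝ) ≤ 4 * L / t * 7 := by gcongr
  have h5 : 10 * 2 ^ (4 * t) * (7 * ((K : ℝ) + 1)) ≤ 10 * 2 ^ (4 * t) * (7 * (e / Y + 1 : ℕ)) := by
    gcongr
  have e2 : 4 * L / t * 7 = (28 * L / t : ℝ) := by ring
  linarith

lemma harm_Ioc (K1 K2 : ℕ) (h1 : 1 ≤ K1) (ρ : ℝ) (hρ : 1 ≤ ρ) (h2 : (K2 : ℝ) ≤ ρ * K1) :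
    ∑ k ∈ Ioc K1 K2, 1 / (k : ℝ) ≤ Real.log ρ := by
  have h0 : (0 : ℝ) < K1 := by exact_mod_cast h1
  rcases le_total K2 K1 with h | h
  · rw [Ioc_eq_empty (by omega), sum_empty]; exact Real.log_nonneg hρ
  have key : ∑ k ∈ Ioc K1 K2, 1 / (k : ℝ) ≤ Real.log K2 - Real.log K1 := by
    clear h2
    induction K2, h using Nat.le_induction with
    | base => simp
    | succ n hn ih =>
      have n0 : (0 : ℝ) < n := by exact_mod_cast (show 0 < n by omega)
      have := Real.one_sub_inv_le_log_of_pos (x := ((n : ℝ) + 1) / n) (by positivity)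
      rw [Real.log_div (by positivity) (by positivity)] at this
      have e : 1 - (((n : ℝ) + 1) / n)⁻¹ = 1 / (n + 1) := by field_simp; ring
      rw [sum_Ioc_succ_top hn]
      push_cast
      linarith
  have := Real.log_le_log (by exact_mod_cast (show 0 < K2 by omega)) h2
  rw [Real.log_mul (by positivity) (by positivity)] at this
  linarith

lemma disj_len {ι : Type} (R : Finset ι) (c ρ : ι → ℝ) (A B : ℝ) (hAB : A ≤ B)
    (h0 : ∀ i ∈ R, 0 ≤ ρ i) (h1 : ∀ i ∈ R, A ≤ c i - ρ i ∧ c i + ρ i ≤ B)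
    (h2 : ∀ i ∈ R, ∀ j ∈ R, i ≠ j → ρ i + ρ j ≤ |c i - c j|) : ∑ i ∈ R, 2 * ρ i ≤ B - A := by
  have h3 := MeasureTheory.measureReal_biUnion_finset (μ := MeasureTheory.volume) (s := R)
    (f := fun i => Set.Ioo (c i - ρ i) (c i + ρ i))
    (fun i hi j hj hne => by
      rw [Function.onFun, Set.disjoint_left]
      intro x hx hx'
      have := h2 i hi j hj hne
      rcases abs_cases (c i - c j) with h | h <;> linarith [hx.1, hx.2, hx'.1, hx'.2])
    (fun _ _ => measurableSet_Ioo) (fun _ _ => by simp)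
  have h4 := MeasureTheory.measureReal_mono (μ := MeasureTheory.volume)
    (show (⋃ i ∈ R, Set.Ioo (c i - ρ i) (c i + ρ i)) ⊆ Set.Icc A B from by
      intro x hx
      simp only [Set.mem_iUnion] at hx
      obtain ⟨i, hi, hx⟩ := hx
      exact ⟨by linarith [(h1 i hi).1, hx.1], by linarith [(h1 i hi).2, hx.2]⟩) (by simp)
  rw [h3, Real.volume_real_Icc_of_le hAB] at h4
  refine le_trans (le_of_eq (sum_congr rfl fun i hi => ?_)) h4
  rw [Real.volume_real_Ioo_of_le (by linarith [h0 i hi])]; ring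

lemma farey (m a H K0 U : ℕ) (hU : 1 ≤ U) (hH : 1 ≤ H) (hK0 : 1 ≤ K0) (hm : 4 * U * H * K0 ≤ m)
    (K : Finset ℕ)
    (hK : ∀ k ∈ K, k ≤ K0 ∧ ∃ v, 1 ≤ v ∧ v < k ∧ |(v : ℤ) * m - k * a| ≤ H * k) :
    ∃ u, 2 ≤ u ∧ ∑ k ∈ K.filter (fun k => ¬ u ∣ k), 1 / (k : ℝ) ≤ (1 + Real.log K0) * (2 / U) := by
  choose! v hv1 hv2 hv3 using fun k hk => (hK k hk).2
  have hm0 : (0 : ℝ) < m := by
    have : 0 < m := lt_of_lt_of_le (by positivity) hm
    exact_mod_cast this
  have hl := Real.log_natCast_nonneg K0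
  have red : ∀ k ∈ K, ∃ g u r : ℕ, 0 < g ∧ k = u * g ∧ v k = r * g ∧ Nat.Coprime u r ∧
      |(r : ℤ) * m - u * a| ≤ H * u := by
    intro k hk
    obtain ⟨g, u, r, h0, h1, h2, h3⟩ := Nat.exists_coprime' (Nat.gcd_pos_of_pos_right k (hv1 k hk))
    refine ⟨g, u, r, h0, h2, h3, h1, ?_⟩
    have h4 := hv3 k hk
    rw [h3] at h4
    conv_lhs at h4 => rw [h2]
    conv_rhs at h4 => rw [h2]
    have g0 : (0 : ℤ) < g := by exact_mod_cast h0
    have e : ((r * g : ℕ) : ℤ) * m - (u * g : ℕ) * a = (r * m - u * a) * g := by push_cast; ring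
    rw [e, abs_mul, abs_of_pos g0] at h4
    push_cast at h4
    exact le_of_mul_le_mul_right (by linarith) g0
  choose! g u r hg hu hr hc hb using red
  have hu0 : ∀ k ∈ K, r k < u k ∧ 1 ≤ r k ∧ u k ≤ K0 ∧ g k ≤ K0 := fun k hk => by
    have a1 := hv1 k hk; have a2 := hv2 k hk; have a3 := (hK k hk).1
    have a4 := hg k hk
    rw [hr k hk] at a1 a2
    rw [hu k hk] at a3
    have a5 : r k < u k := by
      apply lt_of_mul_lt_mul_right (a := g k) _ (Nat.zero_le _); rwa [← hu k hk]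
    have a6 : 1 ≤ r k := Nat.pos_of_mul_pos_right a1
    exact ⟨a5, a6, by nlinarith, by nlinarith⟩
  by_cases hc1 : ∃ k0 ∈ K, u k0 ≤ U
  · obtain ⟨k0, hk0, h0⟩ := hc1
    refine ⟨u k0, by have := hu0 k0 hk0; omega, ?_⟩
    rw [filter_false_of_mem, sum_empty]
    · positivity
    intro k hk
    rw [not_not, hu k hk]
    apply Dvd.dvd.mul_right
    have e : (r k : ℤ) * u k0 = r k0 * u k := by
      by_contra hne
      have a1 : (1 : ℤ) ≤ |(r k : ℤ) * u k0 - r k0 * u k| := Int.one_le_abs (sub_ne_zero.mpr hne)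
      have a2 : ((r k : ℤ) * u k0 - r k0 * u k) * m =
          (r k * m - u k * a) * u k0 - (r k0 * m - u k0 * a) * u k := by ring
      have a3 : |((r k : ℤ) * u k0 - r k0 * u k) * m| ≤ H * u k * u k0 + H * u k0 * u k := by
        rw [a2]
        refine (abs_sub _ _).trans ?_
        rw [abs_mul, abs_mul, Nat.abs_cast, Nat.abs_cast]
        have := hb k hk; have := hb k0 hk0
        gcongr
      rw [abs_mul, Nat.abs_cast] at a3
      have a4 : (m : ℤ) ≤ H * u k * u k0 + H * u k0 * u k :=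
        le_trans (le_mul_of_one_le_left (by positivity) a1) a3
      have a5 : m ≤ H * u k * u k0 + H * u k0 * u k := by exact_mod_cast a4
      have a6 : u k * u k0 ≤ K0 * U := Nat.mul_le_mul (hu0 k hk).2.2.1 h0
      have a7 : 0 < H * (K0 * U) := by positivity
      nlinarith
    have e' : r k * u k0 = r k0 * u k := by exact_mod_cast e
    exact (hc k0 hk0).dvd_of_dvd_mul_left ⟨r k, by rw [← e', mul_comm]⟩
  push Not at hc1
  refine ⟨2, le_rfl, le_trans (sum_le_sum_of_subset_of_nonneg (filter_subset _ _)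
    (fun _ _ _ => by positivity)) ?_⟩
  have h1 := inj_sum K (K.image (fun k => (u k, r k)) ×ˢ Ioc 0 K0) (fun k => ((u k, r k), g k))
    (fun k hk => mem_product.mpr ⟨mem_image_of_mem _ hk, mem_Ioc.mpr ⟨hg k hk, (hu0 k hk).2.2.2⟩⟩)
    (fun k hk k' hk' e => by
      simp only [Prod.mk.injEq] at e
      rw [hu k hk, hu k' hk', e.1.1, e.2])
    (fun k => 1 / (k : ℝ)) (fun z => 1 / (z.1.1 : ℝ) * (1 / (z.2 : ℝ))) (fun _ => by positivity)
    (fun k hk => by
      conv_lhs => rw [hu k hk]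
      push_cast; rw [one_div_mul_one_div])
  rw [sum_product] at h1
  dsimp only at h1
  rw [← sum_mul_sum, mul_comm] at h1
  have h2 : ∑ n ∈ Ioc 0 K0, 1 / (n : ℝ) ≤ 1 + Real.log K0 := Pool.Agent.Lib.helper12.H_le K0
  have hK0' : (0 : ℝ) < K0 := by exact_mod_cast hK0
  have hU' : (0 : ℝ) < U := by exact_mod_cast hU
  have h3 := disj_len (K.image (fun k => (u k, r k))) (fun z => (z.2 : ℝ) / z.1)
    (fun z => 1 / (2 * z.1 * K0)) (a / m - H / m - 1 / (2 * U * K0)) (a / m + H / m + 1 / (2 * U * K0))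
    (by
      have : (0 : ℝ) ≤ H / m := by positivity
      have : (0 : ℝ) ≤ 1 / (2 * U * K0) := by positivity
      linarith)
    (fun _ _ => by positivity)
    (fun z hz => by
      obtain ⟨k, hk, rfl⟩ := mem_image.mp hz
      have u0 : (0 : ℝ) < u k := by exact_mod_cast (show 0 < u k by have := hu0 k hk; omega)
      have a1 : |(r k : ℝ) * m - u k * a| ≤ H * u k := by exact_mod_cast hb k hk
      have a2 : |(r k : ℝ) / u k - a / m| ≤ H / m := by
        rw [div_sub_div _ _ u0.ne' hm0.ne', abs_div, abs_of_pos (mul_pos u0 hm0),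
          div_le_div_iff₀ (by positivity) hm0]
        nlinarith
      have a3 : 1 / (2 * (u k : ℝ) * K0) ≤ 1 / (2 * U * K0) := by
        have : (U : ℝ) ≤ u k := by exact_mod_cast (hc1 k hk).le
        gcongr
      have := abs_le.mp a2
      dsimp only
      constructor <;> linarith)
    (fun z hz z' hz' hne => by
      obtain ⟨k, hk, rfl⟩ := mem_image.mp hz
      obtain ⟨k', hk', rfl⟩ := mem_image.mp hz'
      have u0 : (0 : ℝ) < u k := by exact_mod_cast (show 0 < u k by have := hu0 k hk; omega)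
      have u0' : (0 : ℝ) < u k' := by exact_mod_cast (show 0 < u k' by have := hu0 k' hk'; omega)
      have u1 : (u k : ℝ) ≤ K0 := by exact_mod_cast (hu0 k hk).2.2.1
      have u1' : (u k' : ℝ) ≤ K0 := by exact_mod_cast (hu0 k' hk').2.2.1
      have a1 : (r k : ℤ) * u k' - u k * r k' ≠ 0 := by
        intro e
        have e' : r k * u k' = u k * r k' := by exact_mod_cast sub_eq_zero.mp e
        have d1 : u k ∣ u k' := (hc k hk).dvd_of_dvd_mul_left ⟨_, e'⟩
        have d2 : u k' ∣ u k := (hc k' hk').dvd_of_dvd_mul_right ⟨_, by rw [← e', mul_comm]⟩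
        have e2 := Nat.dvd_antisymm d1 d2
        rw [← e2, mul_comm] at e'
        exact hne (Prod.ext e2 (Nat.eq_of_mul_eq_mul_left (by have := hu0 k hk; omega) e'))
      have a2 : (1 : ℝ) ≤ |(r k : ℝ) * u k' - u k * r k'| := by exact_mod_cast Int.one_le_abs a1
      dsimp only
      rw [div_sub_div _ _ u0.ne' u0'.ne', abs_div, abs_of_pos (mul_pos u0 u0')]
      refine le_trans ?_ (div_le_div_of_nonneg_right a2 (by positivity))
      rw [div_add_div _ _ (by positivity) (by positivity), div_le_div_iff₀ (by positivity) (by positivity)]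
      have : 0 ≤ (u k : ℝ) * u k' * K0 := by positivity
      nlinarith)
  have h4 : ∑ z ∈ K.image (fun k => (u k, r k)), 1 / (z.1 : ℝ) ≤ 2 / U := by
    have e : ∑ z ∈ K.image (fun k => (u k, r k)), 1 / (z.1 : ℝ) =
        K0 * ∑ z ∈ K.image (fun k => (u k, r k)), 2 * (1 / (2 * (z.1 : ℝ) * K0)) := by
      rw [mul_sum]
      refine sum_congr rfl fun z _ => ?_
      field_simp
    rw [e]
    have a1 : (K0 : ℝ) * (H / m) ≤ 1 / (4 * U) := by
      have : (4 * U * H * K0 : ℝ) ≤ m := by exact_mod_cast hm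
      rw [← mul_div_assoc, div_le_div_iff₀ hm0 (by positivity)]; linarith
    have a2 : (K0 : ℝ) * (1 / (2 * U * K0)) = 2 * (1 / (4 * U)) := by field_simp; ring
    have a3 : (2 : ℝ) / U = 8 * (1 / (4 * U)) := by field_simp; ring
    have a4 := mul_le_mul_of_nonneg_left h3 hK0'.le
    have : (0 : ℝ) ≤ 1 / (4 * U) := by positivity
    nlinarith
  exact h1.trans (mul_le_mul h2 h4 (sum_nonneg fun _ _ => by positivity) (by positivity))

end Pool.Agent.H.MP_636046_nt
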