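import Pool.Agent.H.MP_636046_nt.A

set_option autoImplicit false

namespace Pool.Agent.H.MP_636046_nt
open Finset Pool.Agent.H.MP_3aed06_nt Pool.Agent.H.MP_559555_nt Nat Pool.Agent.Lib.helper27.WPNT

lemma p2 {a b : ℕ} (h : a ≤ b) : 2 ^ a ≤ 2 ^ b := Nat.pow_le_pow_right (by norm_num) h

lemma mul_p2 {x y a b c : ℕ} (hx : x ≤ 2 ^ a) (hy : y ≤ 2 ^ b) (h : a + b ≤ c) :
    x * y ≤ 2 ^ c :=
  (Nat.mul_le_mul hx hy).trans (by rw [← pow_add]; exact p2 h)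

lemma div_p2 {x y a b c : ℕ} (hx : x ≤ 2 ^ a) (hy : 2 ^ b ≤ y) (h : a ≤ b + c) :
    x / y ≤ 2 ^ c := by
  apply Nat.div_le_of_le_mul
  calc x ≤ 2 ^ (b + c) := hx.trans (p2 h)
    _ ≤ _ := by rw [pow_add]; exact Nat.mul_le_mul_right _ hy

lemma le_p2 (s : ℕ) : s ≤ 2 ^ s := Nat.lt_two_pow_self.le

lemma err_le {s N : ℕ} (hs : 13 ≤ s) (hN : N ≤ 2 ^ (27 * s)) :
    (4200 * s * 2 ^ (4 * s) * N : ℝ) ≤ 2 ^ (33 * s) := by
  have h1 : 4200 ≤ 2 ^ s := le_trans (by norm_num) (p2 hs)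
  exact_mod_cast mul_p2 (mul_p2 (mul_p2 h1 (le_p2 s) le_rfl) le_rfl le_rfl) hN (by omega)

lemma wD {s e L Y : ℕ} (hs : 13 ≤ s) (he : e ≤ 2 ^ (60 * s)) (hY : 2 ^ (34 * s) ≤ Y) (hL : L ≤ e)
    (Q : Finset ℕ) (hQ : ∀ q ∈ Q, q.Prime ∧ Y < q ∧ q ≤ 4 * Y ∧ q ≤ 2 ^ (60 * s) ∧
      ∃ n ∈ Ioc e (e + L), q ∣ n) : ∑ q ∈ Q, Real.log q ≤ 1680 * L + 2 ^ (33 * s) := by
  have h1 := BTD e L s Y (60 * s) (by positivity) (by omega) ((p2 (by omega)).trans hY) (Or.inl hL) Q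
    (fun q hq => by
      obtain ⟨a1, a2, a3, a4, a5⟩ := hQ q hq
      exact ⟨a1, a2, a3, by exact_mod_cast log_le_pow a4, a5⟩)
  have h2 : e / Y + 1 ≤ 2 ^ (27 * s) := by
    have a1 : e / Y ≤ 2 ^ (26 * s) := div_p2 he hY (by omega)
    have a2 := p2 (show 26 * s + 1 ≤ 27 * s by omega)
    have a3 := Nat.one_le_two_pow (n := 26 * s)
    rw [pow_succ] at a2
    omega
  have h3 := err_le hs h2
  have s0 : (0 : ℝ) < s := by exact_mod_cast (show 0 < s by omega)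
  have e1 : (60 * s : ℝ) * (28 * L / s + 70 * 2 ^ (4 * s) * (e / Y + 1 : ℕ)) =
      1680 * L + 4200 * s * 2 ^ (4 * s) * (e / Y + 1 : ℕ) := by field_simp; ring
  linarith

lemma wK {s e L : ℕ} (hs : 13 ≤ s) (K : Finset ℕ) (hK : ∀ k ∈ K, 0 < k ∧ k ≤ 2 ^ (27 * s))
    (Q : Finset ℕ) (hQ : ∀ q ∈ Q, q.Prime ∧ 2 ^ s < q ∧ q ≤ 2 ^ (60 * s) ∧
      ∃ k ∈ K, e < q * k ∧ q * k ≤ e + L) :
    ∑ q ∈ Q, Real.log q ≤ 240 * L * ∑ k ∈ K, 1 / (k : ℝ) + 2 ^ (33 * s) := by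
  have h1 := BTK K e L s (60 * s) (by positivity) (fun k hk => (hK k hk).1) (by omega) Q
    (fun q hq => by
      obtain ⟨a1, a2, a4, a5⟩ := hQ q hq
      exact ⟨a1, a2, by exact_mod_cast log_le_pow a4, a5⟩)
  have h2 : K.card ≤ 2 ^ (27 * s) := by
    have := card_le_card (show K ⊆ Ioc 0 (2 ^ (27 * s)) from fun k hk => mem_Ioc.mpr (hK k hk))
    rwa [Nat.card_Ioc] at this
  have h3 := err_le hs h2
  have s0 : (0 : ℝ) < s := by exact_mod_cast (show 0 < s by omega)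
  have e1 : (60 * s : ℝ) * (4 * L / s * ∑ k ∈ K, 1 / (k : ℝ) + 10 * 2 ^ (4 * s) * K.card) =
      240 * L * ∑ k ∈ K, 1 / (k : ℝ) + 600 * s * 2 ^ (4 * s) * K.card := by field_simp; ring
  have : (0 : ℝ) ≤ s * 2 ^ (4 * s) * K.card := by positivity
  linarith

lemma wM {s b m L L' Y : ℕ} (hs : 13 ≤ s) (hb : m = b + L) (hL0 : L ≤ b) (hm0 : 0 < m)
    (hm : m ≤ 2 ^ (60 * s)) (A : Finset ℕ) (hA : A ⊆ Ioc b m)
    (hL : L' ! ∣ ∏ n ∈ Ioc b m \ A, n) (hc : A.card + L' = L) (hY : L ≤ Y) :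
    (A.card : ℝ) * Real.log (m / (2 * L)) ≤ 2 ^ (33 * s) + 2 * Y +
      ∑ q ∈ (range (m + 1)).filter (fun q => q.Prime ∧ Y < q ∧ ∃ n ∈ A, q ∣ n), Real.log q := by
  have e : m - b = L := by omega
  have h1 := ML b m L' Y (2 ^ (30 * s)) (by omega) (by omega) hm0 A hA hL (by omega) (by omega)
    (hm.trans (by rw [← pow_mul]; exact p2 (by omega)))
  rw [e] at h1
  have h2 := err_le hs (p2 (show 26 * s ≤ 27 * s by omega))
  have h3 : Real.log m ≤ (60 * s : ℕ) := log_le_pow hm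
  have h4 : ((2 ^ (30 * s) : ℕ) : ℝ) * Real.log m ≤ 2 ^ (30 * s) * (60 * s) := by
    push_cast at h3 ⊢; gcongr
  have e2 : (2 : ℝ) ^ (30 * s) = 2 ^ (4 * s) * 2 ^ (26 * s) := by ring
  push_cast at h2
  have : (0 : ℝ) ≤ s * 2 ^ (4 * s) * 2 ^ (26 * s) := by positivity
  rw [e2] at h4
  linarith

lemma Par.p4 {m b a c d q : ℕ} (h : Par m b a c d) (hq : q.Prime) (h1 : d < q) (h2 : b < q)
    (h3 : q ≤ m) (h4 : m < 2 * q) : ∃ n ∈ Ioc c a, q ∣ n := by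
  by_contra e
  have := h q hq
  rw [sum_zero e, fac_zero hq h1, sum_eq_single_of_mem q (mem_Ioc.mpr ⟨h2, h3⟩) (fun n hn hne => by
    apply factorization_eq_zero_of_not_dvd
    rintro ⟨k, rfl⟩
    rw [mem_Ioc] at hn
    rcases k with _ | _ | k
    · omega
    · omega
    · nlinarith), hq.factorization_self] at this
  simp at this

lemma exists_ratio (l : ℝ) : ∃ R : ℕ, 2 ≤ R ∧ ∀ m L : ℕ, 0 < L → R * L < m →
    l ≤ Real.log (m / (2 * L)) := by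
  refine ⟨⌈2 * Real.exp l⌉₊ + 2, by omega, fun m L hL h => ?_⟩
  have L0 : (0 : ℝ) < L := by exact_mod_cast hL
  have h1 : ((⌈2 * Real.exp l⌉₊ + 2 : ℕ) : ℝ) * L < m := by exact_mod_cast h
  have h2 := Nat.le_ceil (2 * Real.exp l)
  have h3 : Real.exp l ≤ m / (2 * L) := by
    rw [le_div_iff₀ (by positivity)]
    push_cast at h1
    nlinarith
  exact (Real.le_log_iff_exp_le (lt_of_lt_of_le (Real.exp_pos l) h3)).mpr h3

lemma wp (R : ℕ) (hR : 2 ≤ R) : ∃ c : ℝ, 0 < c ∧ ∃ N : ℕ, ∀ Y : ℕ, N ≤ Y →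
    ∃ Q : Finset ℕ, c * Y ≤ ∑ q ∈ Q, Real.log q ∧ ∀ q ∈ Q, q.Prime ∧ q ≤ Y ∧ Y < 2 * q ∧
      ∀ b L : ℕ, Y = b + L → Y ≤ R * L → b < q := by
  have R0 : (2 : ℝ) ≤ R := by exact_mod_cast hR
  obtain ⟨c, hc, N, h⟩ := weak_pnt (ε := 1 / R) (by positivity)
  refine ⟨c, hc, N, fun Y hY => ⟨_, h Y hY, fun q hq => ?_⟩⟩
  obtain ⟨h1, h2, h3⟩ := mem_filter.mp hq
  have key : ∀ b L : ℕ, Y = b + L → Y ≤ R * L → b < q := by
    intro b L e hL
    have a1 : (Y : ℝ) = b + L := by exact_mod_cast e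
    have a2 : (Y : ℝ) ≤ R * L := by exact_mod_cast hL
    have a3 : 1 / R * (Y : ℝ) ≤ L := by
      rw [one_div_mul_eq_div, div_le_iff₀ (by positivity)]; linarith
    have : (b : ℝ) < q := by linarith
    exact_mod_cast this
  refine ⟨h2, by have := mem_range.mp h1; omega, ?_, key⟩
  have := key (Y / 2) (Y - Y / 2) (by omega) (by
    have : 2 * (Y - Y / 2) ≤ R * (Y - Y / 2) := Nat.mul_le_mul_right _ hR
    omega)
  omega

lemma mult_split (b m u : ℕ) (hb : b ≤ m) (hu : 2 ≤ u) : ∃ L', 2 * L' ≤ m - b + 2 ∧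
    ((Ioc b m).filter (fun n => ¬ u ∣ n)).card + L' = m - b ∧
    L' ! ∣ ∏ n ∈ Ioc b m \ (Ioc b m).filter (fun n => ¬ u ∣ n), n := by
  have e : Ioc b m \ (Ioc b m).filter (fun n => ¬ u ∣ n) =
      (Ioc (b / u) (m / u)).image (fun k => u * k) := by
    ext n
    simp only [mem_sdiff, mem_filter, mem_image, mem_Ioc, not_and, not_not]
    constructor
    · rintro ⟨h1, h2⟩
      obtain ⟨k, rfl⟩ := h2 h1
      exact ⟨k, ⟨(Nat.div_lt_iff_lt_mul (by omega)).mpr (by linarith [h1.1]),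
        (Nat.le_div_iff_mul_le (by omega)).mpr (by linarith [h1.2])⟩, rfl⟩
    · rintro ⟨k, ⟨h1, h2⟩, rfl⟩
      rw [Nat.div_lt_iff_lt_mul (by omega)] at h1
      rw [Nat.le_div_iff_mul_le (by omega)] at h2
      exact ⟨⟨by linarith, by linarith⟩, fun _ => dvd_mul_right _ _⟩
  have inj : Set.InjOn (fun k => u * k) (Ioc (b / u) (m / u) : Finset ℕ) :=
    fun x _ y _ h => Nat.eq_of_mul_eq_mul_left (by omega) h
  have hd : b / u ≤ m / u := Nat.div_le_div_right hb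
  refine ⟨m / u - b / u, ?_, ?_, ?_⟩
  · have h1 := Nat.div_mul_le_self m u
    have h2 := Nat.lt_div_mul_add (a := b) (show 0 < u by omega)
    obtain ⟨j, hj⟩ := Nat.exists_eq_add_of_le hd
    rw [hj] at h1 ⊢
    rw [Nat.add_sub_cancel_left]
    rcases j with _ | j
    · omega
    · have : j * 2 ≤ j * u := Nat.mul_le_mul_left _ hu
      have e : (b / u + (j + 1)) * u = b / u * u + j * u + u := by ring
      omega
  · have := card_sdiff_add_card_eq_card (filter_subset (fun n => ¬ u ∣ n) (Ioc b m))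
    rw [e, Finset.card_image_of_injOn inj, Nat.card_Ioc, Nat.card_Ioc] at this
    omega
  · rw [e, prod_image inj, prod_mul_distrib, prod_Ioc_eq hd]
    exact (dvd_mul_right _ _).mul_left _

lemma sqb {s m q : ℕ} (hs : 13 ≤ s) (m2 : m ≤ 2 ^ (60 * s)) (hq : 2 ^ (34 * s) ≤ q) : m < q ^ 2 := by
  calc m ≤ 2 ^ (60 * s) := m2
    _ < 2 ^ (34 * s * 2) := Nat.pow_lt_pow_right (by norm_num) (by omega)
    _ ≤ q ^ 2 := by rw [pow_mul]; exact Nat.pow_le_pow_left hq 2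

lemma E_le {s H : ℕ} (hs : 13 ≤ s) (h : 2 ^ (34 * s) ≤ H) : (8192 * 2 ^ (33 * s) : ℝ) ≤ H := by
  exact_mod_cast (mul_p2 (p2 hs) le_rfl (by omega)).trans h

lemma cof_lt {e q k A : ℕ} (hA : 0 < A) (h1 : e < q * k) (h2 : q ≤ A) : e / A < k :=
  (Nat.div_lt_iff_lt_mul hA).mpr (lt_of_lt_of_le h1 (by
    rw [mul_comm]; exact Nat.mul_le_mul_left _ h2))

lemma cof_le {m q k Y : ℕ} (hY : 0 < Y) (h1 : q * k ≤ m) (h2 : Y < q) : k ≤ m / Y :=
  (Nat.le_div_iff_mul_le hY).mpr (le_trans (by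
    rw [mul_comm]; exact Nat.mul_le_mul_right _ h2.le) h1)

lemma arith1 {T H H1 l E S Y : ℝ} (T0 : 0 < T) (H0 : 0 < H) (l2 : 2 * (76800 * T + 1) ≤ l)
    (hY : Y = 38400 * (T * H)) (h1 : H * l ≤ E + 2 * Y + S) (h2 : S ≤ 240 * H1 * (2 * l) + E)
    (h3 : 8192 * E ≤ H) : H ≤ 960 * H1 := by
  have h6 := mul_le_mul_of_nonneg_left l2 H0.le
  have h7 : H * l ≤ 960 * H1 * l := by nlinarith
  exact le_of_mul_le_mul_right h7 (by linarith)

lemma stepI {s T m b a c d H1 H : ℕ} (hs : 13 ≤ s) (T1 : 1 ≤ T) (m2 : m ≤ 2 ^ (60 * s))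
    (e1 : m = b + H1) (e2 : a = c + H) (hab : a ≤ b) (h1b : H1 ≤ b) (h2c : H ≤ c) (h12 : H1 ≤ H)
    (hH : 2 ^ (36 * s) ≤ H) (hd : d < T * H) (hP : Par m b a c d)
    (l2 : 2 * (76800 * (T : ℝ) + 1) ≤ Real.log (a / (2 * H))) : H ≤ 960 * H1 := by
  have x1 := p2 (show s ≤ 34 * s by omega)
  have x2 := p2 (show 34 * s ≤ 36 * s by omega)
  have H20 : 0 < H := lt_of_lt_of_le (by positivity) hH
  have hH5 : H ≤ T * H := Nat.le_mul_of_pos_left _ T1
  obtain ⟨Y, hY⟩ : ∃ Y, Y = 38400 * (T * H) := ⟨_, rfl⟩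
  have a0 : 0 < a := by omega
  have kb : m / Y ≤ 2 ^ (27 * s) := div_p2 m2 (show 2 ^ (36 * s) ≤ Y by omega) (by omega)
  have h1 := wM (L' := 0) (Y := Y) hs e2 h2c a0 (by omega) (Ioc c a) (Subset.refl _)
    (by simp) (by rw [Nat.card_Ioc]; omega) (by omega)
  have h2 := wK (e := b) (L := H1) hs (Ioc (b / a) (m / Y))
    (fun k hk => ⟨Nat.pos_of_ne_zero (Ioc_ne k hk), (mem_Ioc.mp hk).2.trans kb⟩)
    ((range (a + 1)).filter (fun q => q.Prime ∧ Y < q ∧ ∃ n ∈ Ioc c a, q ∣ n)) (fun q hq => by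
      obtain ⟨a1, a2, a3, n, hn, h⟩ := mem_filter.mp hq
      rw [mem_range] at a1
      obtain ⟨n', hn', k, rfl⟩ := hP.symm.p3 a2 (by omega) (by omega)
        (lt_of_le_of_lt (by omega) (sqb hs m2 (by omega))) hn h
      rw [mem_Ioc] at hn'
      exact ⟨a2, by omega, by omega, k, mem_Ioc.mpr ⟨cof_lt a0 hn'.1 (by omega),
        cof_le (by omega) hn'.2 a3⟩, hn'.1, by omega⟩)
  have H0 : (0 : ℝ) < H := by exact_mod_cast H20
  have a0' : (0 : ℝ) < a := by exact_mod_cast a0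
  have T0 : (0 : ℝ) < T := by exact_mod_cast T1
  have k1 : 1 ≤ b / a := (Nat.le_div_iff_mul_le a0).mpr (by omega)
  have h3 := harm_Ioc (b / a) (m / Y) k1 (a / H)
    (by rw [le_div_iff₀ H0]; exact_mod_cast (show 1 * H ≤ a by omega))
    (by
      have c1 := Nat.div_mul_le_self m Y
      have c2 := Nat.lt_div_mul_add (a := b) a0
      have c3 : a ≤ b / a * a := Nat.le_mul_of_pos_left _ k1
      have c4 : m / Y * (4 * H) ≤ m / Y * Y := Nat.mul_le_mul_left _ (by omega)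
      have c5 : m / Y * H ≤ a * (b / a) := by
        rw [mul_comm a]
        rw [mul_left_comm] at c4
        omega
      rw [div_mul_eq_mul_div, le_div_iff₀ H0]
      exact_mod_cast c5)
  have h4 : Real.log (a / H) ≤ Real.log (a / (2 * H)) + 1 := by
    rw [show (a : ℝ) / H = a / (2 * H) * 2 by field_simp, Real.log_mul (by positivity) (by norm_num)]
    linarith [Real.log_two_lt_d9]
  rw [Nat.card_Ioc, show a - c = H by omega] at h1
  have h5 : 240 * (H1 : ℝ) * ∑ k ∈ Ioc (b / a) (m / Y), 1 / (k : ℝ) ≤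
      240 * H1 * (2 * Real.log (a / (2 * H))) :=
    mul_le_mul_of_nonneg_left (by linarith) (by positivity)
  have hY' : (Y : ℝ) = 38400 * (T * H) := by rw [hY]; push_cast; ring
  exact_mod_cast arith1 (H1 := H1) T0 H0 l2 hY' h1 (h2.trans (by linarith)) (E_le hs (by omega))

lemma arith2 {T H l E S Y A : ℝ} (T0 : 0 < T) (H0 : 0 < H) (l1 : 10 * (1 + 7680 * 9600 * T) ≤ l)
    (hY : Y ≤ 38400 * 960 * (T * H)) (h1 : A * l ≤ E + 2 * Y + S) (h2 : S ≤ H * l / 10 + E)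
    (h3 : 8192 * E ≤ H) (h4 : H / 4 ≤ A) : False := by
  have h5 := mul_le_mul_of_nonneg_right h4 (show 0 ≤ l by linarith)
  have h7 := mul_le_mul_of_nonneg_left l1 H0.le
  nlinarith [mul_pos H0 T0]

lemma pair_ineq {q k v m a i j H : ℕ} (hi : m = q * k + i) (hj : a = q * v + j) (h1 : i ≤ H)
    (h2 : j ≤ H) (b1 : v < k) : |(v : ℤ) * m - k * a| ≤ H * k := by
  have c1 : v * i ≤ H * k := by
    rw [mul_comm]; exact Nat.mul_le_mul h1 b1.le
  have c2 : k * j ≤ H * k := by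
    rw [mul_comm]; exact Nat.mul_le_mul_right _ h2
  have c3 : (v : ℤ) * m - k * a = ((v * i : ℕ) : ℤ) - (k * j : ℕ) := by
    rw [hi, hj]; push_cast; ring
  rw [c3, ← Nat.cast_mul H k]
  generalize v * i = A at c1
  generalize k * j = B at c2
  generalize H * k = C at c1 c2
  rw [abs_le]; omega

lemma stepII {s T m b a c d H1 H : ℕ} (hs : 13 ≤ s) (T1 : 1 ≤ T) (m2 : m ≤ 2 ^ (60 * s))
    (e1 : m = b + H1) (e2 : a ≤ c + H) (hab : a ≤ b) (h1b : H1 ≤ b) (h12 : H1 ≤ H)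
    (hH : 2 ^ (36 * s) ≤ H) (hd : d < T * H) (hP : Par m b a c d) (s1 : H ≤ 960 * H1)
    (l1 : 10 * (1 + 7680 * 9600 * (T : ℝ)) ≤ Real.log (m / (2 * H1))) : False := by
  have x1 := p2 (show s ≤ 34 * s by omega)
  have x2 := p2 (show 34 * s ≤ 36 * s by omega)
  have x5 : 8192 ≤ 2 ^ s := p2 hs
  have hH5 : H ≤ T * H := Nat.le_mul_of_pos_left _ T1
  obtain ⟨Y, hY⟩ : ∃ Y, Y = 38400 * (T * H) := ⟨_, rfl⟩
  have kb : m / Y ≤ 2 ^ (27 * s) := div_p2 m2 (show 2 ^ (36 * s) ≤ Y by omega) (by omega)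
  have hH6 : 2 ^ (34 * s) ≤ H1 := by
    have : 960 * 2 ^ (34 * s) ≤ 2 ^ (36 * s) := mul_p2 (show 960 ≤ 2 ^ s by omega) le_rfl (by omega)
    omega
  have H1' : (0 : ℝ) < H1 := by exact_mod_cast (show 0 < H1 by omega)
  have T0 : (0 : ℝ) < T := by exact_mod_cast T1
  have hYle : (Y : ℝ) ≤ 38400 * 960 * (T * H1) := by
    have : T * H ≤ T * (960 * H1) := Nat.mul_le_mul_left _ s1
    rw [mul_left_comm] at this
    exact_mod_cast (show Y ≤ 38400 * 960 * (T * H1) by omega)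
  have l0 : 1 ≤ Real.log (m / (2 * H1)) := by linarith [mul_pos (show (0 : ℝ) < 7680 * 9600 by norm_num) T0]
  by_cases v5 : m < Y
  · have h2 := wM (L' := 0) (Y := Y) hs e1 h1b (by omega) m2 (Ioc b m) (Subset.refl _)
      (by simp) (by rw [Nat.card_Ioc]; omega) (by omega)
    rw [filter_false_of_mem, Nat.card_Ioc, show m - b = H1 by omega] at h2
    · exact arith2 T0 H1' l1 hYle h2 (by rw [sum_empty]; positivity) (E_le hs hH6) (by linarith)
    · rintro q hq ⟨-, a2, -⟩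
      rw [mem_range] at hq; omega
  have K1 : 1 ≤ m / Y := (Nat.le_div_iff_mul_le (by omega)).mpr (by omega)
  obtain ⟨u, hu, hf⟩ := farey m a H (m / Y) 9600 (by norm_num) (by omega) K1
    (le_trans (by rw [mul_comm]; exact Nat.mul_le_mul_left _ (by omega)) (Nat.div_mul_le_self m Y))
    ((Ioc 0 (m / Y)).filter (fun k => ∃ v ∈ range k, 1 ≤ v ∧ |(v : ℤ) * m - k * a| ≤ H * k))
    (fun k hk => by
      obtain ⟨a1, v, a2, a3, a4⟩ := mem_filter.mp hk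
      exact ⟨(mem_Ioc.mp a1).2, v, a3, mem_range.mp a2, a4⟩)
  obtain ⟨L', g1, g2, g3⟩ := mult_split b m u (by omega) hu
  rw [show m - b = H1 by omega] at g1 g2
  have h1 := wM (Y := Y) hs e1 h1b (by omega) m2 _ (filter_subset _ _) g3 g2 (by omega)
  have h2 := wK (e := b) (L := H1) hs (((Ioc 0 (m / Y)).filter (fun k => ∃ v ∈ range k, 1 ≤ v ∧
      |(v : ℤ) * m - k * a| ≤ H * k)).filter (fun k => ¬ u ∣ k))
    (fun k hk => by
      have := mem_Ioc.mp (mem_filter.mp (mem_filter.mp hk).1).1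
      exact ⟨this.1, this.2.trans kb⟩)
    ((range (m + 1)).filter (fun q => q.Prime ∧ Y < q ∧
      ∃ n ∈ (Ioc b m).filter (fun n => ¬ u ∣ n), q ∣ n)) (fun q hq => by
      obtain ⟨a1, a2, a3, n, hn, h⟩ := mem_filter.mp hq
      obtain ⟨hn, hn2⟩ := mem_filter.mp hn
      rw [mem_range] at a1
      obtain ⟨n', hn', v, rfl⟩ := hP.p3 a2 (by omega) (by omega) (sqb hs m2 (by omega)) hn h
      obtain ⟨k, rfl⟩ := h
      rw [mem_Ioc] at hn hn'
      have b1 : v < k := lt_of_mul_lt_mul_left (a := q) (by omega) (Nat.zero_le _)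
      have b2 : 1 ≤ v := Nat.pos_of_mul_pos_left (show 0 < q * v by omega)
      obtain ⟨i, hi⟩ := Nat.exists_eq_add_of_le hn.2
      obtain ⟨j, hj⟩ := Nat.exists_eq_add_of_le hn'.2
      exact ⟨a2, by omega, by omega, k, mem_filter.mpr ⟨mem_filter.mpr ⟨mem_Ioc.mpr ⟨by omega,
        cof_le (by omega) hn.2 a3⟩, v, mem_range.mpr b1, b2,
        pair_ineq hi hj (by omega) (by omega) b1⟩, fun e => hn2 (e.mul_left _)⟩, hn.1, by omega⟩)
  have h3 : Real.log (m / Y : ℕ) ≤ Real.log (m / (2 * H1)) := by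
    apply Real.log_le_log (by exact_mod_cast K1)
    rw [le_div_iff₀ (by positivity)]
    have : m / Y * (2 * H1) ≤ m := le_trans (Nat.mul_le_mul_left _ (by omega)) (Nat.div_mul_le_self m Y)
    exact_mod_cast this
  have h4 : (H1 : ℝ) / 4 ≤ ((Ioc b m).filter (fun n => ¬ u ∣ n)).card := by
    have : H1 ≤ 4 * ((Ioc b m).filter (fun n => ¬ u ∣ n)).card := by omega
    have : (H1 : ℝ) ≤ 4 * ((Ioc b m).filter (fun n => ¬ u ∣ n)).card := by exact_mod_cast this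
    linarith
  have h6 := mul_le_mul_of_nonneg_left (hf.trans
    (show _ ≤ Real.log (m / (2 * H1)) / 2400 by push_cast; linarith))
    (show (0 : ℝ) ≤ 240 * H1 by positivity)
  exact arith2 T0 H1' l1 hYle h1 (h2.trans (by linarith)) (E_le hs hH6) h4

lemma arith3 {T c a H E S : ℝ} (T0 : 0 < T) (a0 : 0 < a) (hT : 1700 < T * c) (q1 : c * a ≤ S)
    (h1 : S ≤ 1680 * H + E) (b1 : T * H ≤ a) (b2 : T * (8192 * E) ≤ a) : False := by
  have b4 : T * (c * a) ≤ T * (1680 * H + E) := by gcongr; linarith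
  nlinarith

lemma arith4 {T T' H l E : ℝ} (T0 : 0 < T') (H0 : 0 < H)
    (l1 : 10 * (1 + 7680 * 9600 * T') + 2 * T + 2 ≤ l) (h : H * l ≤ E + 2 * (T * H) + 0)
    (b1 : 8192 * E ≤ H) : False := by
  have b3 := mul_le_mul_of_nonneg_left l1 H0.le
  nlinarith [mul_pos H0 T0]

lemma arith5 {T c d H E S : ℝ} (hc : 0 < c) (H0 : 0 < H) (hT : 3400 < T * c) (q1 : c * d ≤ S)
    (h1 : S ≤ 3360 * H + 2 * E) (b1 : T * H ≤ d) (b2 : 8192 * E ≤ H) : False := by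
  have b2 := mul_le_mul_of_nonneg_left b1 hc.le
  nlinarith

theorem long : ∃ s0 : ℕ, ∀ s, s0 ≤ s → ∀ m b a c d : ℕ, 2 ^ (60 * s) < 4 * m → m ≤ 2 ^ (60 * s) →
    d ≤ c → c ≤ a → a ≤ b → b < m → (2 ^ (36 * s) ≤ m - b ∨ 2 ^ (36 * s) ≤ a - c) →
    ¬ Par m b a c d := by
  obtain ⟨c2, hc2, N2, w2⟩ := wp 2 le_rfl
  obtain ⟨T', hT'⟩ := exists_nat_gt (3400 / c2)
  have T'0 : (0 : ℝ) < T' := lt_trans (by positivity) hT'
  have T'1 : 1 ≤ T' := by exact_mod_cast T'0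
  rw [div_lt_iff₀ hc2] at hT'
  obtain ⟨R', hR', r'⟩ := exists_ratio (2 * (76800 * T' + 1))
  obtain ⟨c1, hc1, N1, w1⟩ := wp R' hR'
  obtain ⟨T, hT⟩ := exists_nat_gt (1700 / c1)
  have T0 : (0 : ℝ) < T := lt_trans (by positivity) hT
  have T1 : 1 ≤ T := by exact_mod_cast T0
  rw [div_lt_iff₀ hc1] at hT
  obtain ⟨R, hR, r⟩ := exists_ratio (10 * (1 + 7680 * 9600 * T') + 2 * T + 2)
  obtain ⟨c0, hc0, N0, w0⟩ := wp R hR
  refine ⟨13 + N0 + N1 + N2 + T, fun s hs m b a c d m1 m2 hdc hca hab hbm hH hP => ?_⟩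
  have hs13 : 13 ≤ s := by omega
  obtain ⟨H1, e1⟩ := Nat.exists_eq_add_of_le hbm.le
  obtain ⟨H2, e2⟩ := Nat.exists_eq_add_of_le hca
  rw [show m - b = H1 by omega, show a - c = H2 by omega] at hH
  have H10 : 0 < H1 := by omega
  have x0 := le_p2 s
  have x1 := p2 (show s ≤ 34 * s by omega)
  have x2 : 2 * 2 ^ (34 * s) ≤ 2 ^ (35 * s) := mul_p2 (a := 1) le_rfl le_rfl (by omega)
  have x3 : 2 ^ s * 2 ^ (35 * s) ≤ 2 ^ (36 * s) := mul_p2 le_rfl le_rfl (by omega)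
  have x3' : 2 * 2 ^ (35 * s) ≤ 2 ^ (36 * s) := mul_p2 (a := 1) le_rfl le_rfl (by omega)
  have x4 : 4 * 2 ^ (36 * s) ≤ 2 ^ (60 * s) := mul_p2 (a := 2) le_rfl le_rfl (by omega)
  by_cases v1 : m ≤ R * H1
  · obtain ⟨Q, q1, q2⟩ := w0 m (by omega)
    obtain ⟨q, hq⟩ : Q.Nonempty := by
      rw [nonempty_iff_ne_empty]
      rintro rfl
      have : (0 : ℝ) < m := by exact_mod_cast (show 0 < m by omega)
      rw [sum_empty] at q1
      exact absurd q1 (not_le.mpr (mul_pos hc0 this))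
    obtain ⟨a1, a2, a3, a4⟩ := q2 q hq
    have a5 := a4 b H1 e1 v1
    obtain ⟨n, hn, h⟩ := hP.p4 a1 (by omega) a5 a2 a3
    have := Nat.le_of_dvd (Nat.pos_of_ne_zero (Ioc_ne n hn)) h
    have := (mem_Ioc.mp hn).2
    omega
  have l1 := r m H1 H10 (by omega)
  have hH1b : H1 ≤ b := by have := Nat.mul_le_mul_right H1 hR; omega
  have H1' : (0 : ℝ) < H1 := by exact_mod_cast H10
  by_cases v2 : a ≤ R' * H2
  · have h0 : H1 ≤ T * H1 := Nat.le_mul_of_pos_left _ T1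
    by_cases v3 : T * H1 ≤ a
    · have ha : 2 ^ (36 * s) ≤ a := by omega
      obtain ⟨Q, q1, q2⟩ := w1 a (by omega)
      have h1 := wD (Y := a / 2) hs13 (show b ≤ _ by omega) (by omega) hH1b Q (fun q hq => by
        obtain ⟨a1, a2, a3, a4⟩ := q2 q hq
        have a5 := a4 c H2 e2 v2
        exact ⟨a1, by omega, by omega, by omega, e1 ▸ hP.symm.p4 a1 (by omega) a5 a2 a3⟩)
      have b2 : (T : ℝ) * (2 ^ (34 * s) : ℕ) ≤ a := by
        have : T * 2 ^ (34 * s) ≤ a := (mul_p2 (show T ≤ 2 ^ s by omega) le_rfl (by omega)).trans ha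
        exact_mod_cast this
      exact arith3 T0 (by exact_mod_cast (show 0 < a by omega)) hT q1 h1 (by exact_mod_cast v3)
        ((mul_le_mul_of_nonneg_left (E_le hs13 le_rfl) T0.le).trans b2)
    · have h1 : 2 ^ (35 * s) ≤ H1 := by
        by_contra h
        have : T * H1 ≤ 2 ^ s * 2 ^ (35 * s) := Nat.mul_le_mul (by omega) (by omega)
        omega
      have h2 := wM (L' := 0) (Y := T * H1) hs13 e1 hH1b (by omega) m2 (Ioc b m) (Subset.refl _)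
        (by simp) (by rw [Nat.card_Ioc]; omega) h0
      rw [filter_false_of_mem, sum_empty, Nat.card_Ioc, show m - b = H1 by omega, Nat.cast_mul] at h2
      · exact arith4 T'0 H1' l1 h2 (E_le hs13 (by omega))
      · rintro q - ⟨a1, a2, n, hn, h⟩
        obtain ⟨n', hn', h'⟩ := hP.p3 a1 (by omega) (by omega) (sqb hs13 m2 (by omega)) hn h
        have := Nat.le_of_dvd (Nat.pos_of_ne_zero (Ioc_ne n' hn')) h'
        have := (mem_Ioc.mp hn').2
        omega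
  have hH2c : H2 ≤ c := by have := Nat.mul_le_mul_right H2 hR'; omega
  obtain ⟨H, hH1, hH2, hH3⟩ : ∃ H, H1 ≤ H ∧ H2 ≤ H ∧ (H = H1 ∨ H = H2) :=
    ⟨max H1 H2, le_max_left _ _, le_max_right _ _, by omega⟩
  have hH4 : 2 ^ (36 * s) ≤ H := by omega
  have hH5 : H ≤ T' * H := Nat.le_mul_of_pos_left _ T'1
  by_cases v4 : T' * H ≤ d
  · obtain ⟨Q, q1, q2⟩ := w2 d (by omega)
    have h1 := wD (Y := d / 2) hs13 (show b ≤ _ by omega) (by omega) hH1b
      (Q.filter (fun q => ∃ n ∈ Ioc b m, q ∣ n)) (fun q hq => by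
        obtain ⟨a1, a2, a3, a4⟩ := q2 q (mem_filter.mp hq).1
        exact ⟨a1, by omega, by omega, by omega, e1 ▸ (mem_filter.mp hq).2⟩)
    have h2 := wD (Y := d / 2) hs13 (show c ≤ _ by omega) (by omega) hH2c
      (Q.filter (fun q => ¬ ∃ n ∈ Ioc b m, q ∣ n)) (fun q hq => by
        obtain ⟨a1, a2, a3, a4⟩ := q2 q (mem_filter.mp hq).1
        exact ⟨a1, by omega, by omega, by omega,
          e2 ▸ (hP.p1 a1 a2 a3).resolve_left (mem_filter.mp hq).2⟩)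
    rw [← sum_filter_add_sum_filter_not Q (fun q => ∃ n ∈ Ioc b m, q ∣ n)] at q1
    have r1 : (H1 : ℝ) ≤ H := by exact_mod_cast hH1
    have r2 : (H2 : ℝ) ≤ H := by exact_mod_cast hH2
    exact arith5 hc2 (by linarith) hT' q1 (by linarith) (by exact_mod_cast v4) (E_le hs13 (by omega))
  have s1 : H ≤ 960 * H1 := by
    rcases hH3 with h | h
    · omega
    subst h
    exact stepI hs13 T'1 m2 e1 e2 hab hH1b hH2c hH1 hH4 (by omega) hP (r' a H (by omega) (by omega))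
  exact stepII hs13 T'1 m2 e1 (by omega) hab hH1b hH1 hH4 (by omega) hP s1 (by linarith)

end Pool.Agent.H.MP_636046_nt
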