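import Pool.Agent.H.MP_636046_nt.B

set_option autoImplicit false

namespace Pool.Agent.H.MP_636046_nt
open Finset Pool.Agent.H.MP_3aed06_nt Pool.Agent.H.MP_559555_nt Nat

lemma card_mult (x D : ℕ) : (((Ioc 0 x).filter (fun n => D ∣ n)).card : ℝ) ≤ x / D := by
  rw [Nat.Ioc_filter_dvd_card_eq_div]
  exact Nat.cast_div_le

/-- numbers with a large square factor -/
def Sq (s : ℕ) : Finset ℕ :=
  (Ioc 0 (2 ^ (60 * s))).filter (fun n => ∃ r ∈ (Ioc (2 ^ s) (2 ^ (60 * s)) : Finset ℕ), r ^ 2 ∣ n)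

lemma card_Sq (s : ℕ) : ((Sq s).card : ℝ) ≤ 2 ^ (59 * s) := by
  have h1 : (Sq s).card ≤ ∑ r ∈ (Ioc (2 ^ s) (2 ^ (60 * s)) : Finset ℕ),
      ((Ioc 0 (2 ^ (60 * s))).filter (fun n => r ^ 2 ∣ n)).card := by
    refine le_trans (card_le_card ?_) card_biUnion_le
    intro n hn
    obtain ⟨h1, r, h2, h3⟩ := mem_filter.mp hn
    exact mem_biUnion.mpr ⟨r, h2, mem_filter.mpr ⟨h1, h3⟩⟩
  have h2 := sum_Ioc_inv_sq_le_sub (α := ℝ) (k := 2 ^ s) (n := 2 ^ (60 * s)) (by positivity)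
    (p2 (by omega))
  calc ((Sq s).card : ℝ) ≤ ∑ r ∈ (Ioc (2 ^ s) (2 ^ (60 * s)) : Finset ℕ),
        (((Ioc 0 (2 ^ (60 * s))).filter (fun n => r ^ 2 ∣ n)).card : ℝ) := by exact_mod_cast h1
    _ ≤ ∑ r ∈ (Ioc (2 ^ s) (2 ^ (60 * s)) : Finset ℕ), 2 ^ (60 * s) * ((r : ℝ) ^ 2)⁻¹ :=
        sum_le_sum fun r _ => (card_mult _ _).trans (le_of_eq (by push_cast; rw [div_eq_mul_inv]))
    _ ≤ 2 ^ (60 * s) * ((2 ^ s : ℕ) : ℝ)⁻¹ := by
        rw [← mul_sum]
        apply mul_le_mul_of_nonneg_left (h2.trans (sub_le_self _ (by positivity))) (by positivity)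
    _ = _ := by push_cast; field_simp; ring

/-- the primes dividing to an odd power -/
def od (n : ℕ) : Finset ℕ := n.primeFactors.filter (fun q => Odd (n.factorization q))

lemma od_big {s n : ℕ} (h1 : 2 ^ (57 * s) ≤ n) (h2 : n ≤ 2 ^ (60 * s)) (h3 : n ∉ Sq s) :
    (38 * s : ℝ) ≤ ∑ q ∈ od n, Real.log q := by
  obtain ⟨a, b, hab, ha⟩ := Nat.sq_mul_squarefree n
  have n0 : 0 < n := lt_of_lt_of_le (by positivity) h1
  have b0 : b ≠ 0 := by rintro rfl; simp at hab; omega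
  have hb : b ≤ 2 ^ s := by
    by_contra h
    apply h3
    have d1 : b ^ 2 ∣ n := ⟨a, hab.symm⟩
    exact mem_filter.mpr ⟨mem_Ioc.mpr ⟨n0, h2⟩, b, mem_Ioc.mpr ⟨by omega,
      (Nat.le_of_dvd n0 ((dvd_pow_self b two_ne_zero).trans d1)).trans h2⟩, d1⟩
  have h4 : 2 ^ (55 * s) ≤ a := by
    apply Nat.le_of_mul_le_mul_left (c := 2 ^ (2 * s)) _ (by positivity)
    rw [← pow_add, show 2 * s + 55 * s = 57 * s by ring]
    refine h1.trans (hab ▸ Nat.mul_le_mul_right _ ?_)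
    rw [mul_comm, pow_mul]; exact Nat.pow_le_pow_left hb 2
  have h5 : Real.log a = ∑ q ∈ a.primeFactors, Real.log q := by
    conv_lhs => rw [← Nat.prod_primeFactors_of_squarefree ha]
    rw [cast_prod, Real.log_prod (fun q hq => by
      exact_mod_cast (prime_of_mem_primeFactors hq).ne_zero)]
  have h6 : a.primeFactors ⊆ od n := fun q hq => by
    have qp := prime_of_mem_primeFactors hq
    refine mem_filter.mpr ⟨Nat.mem_primeFactors.mpr ⟨qp, (dvd_of_mem_primeFactors hq).trans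
      ⟨b ^ 2, by rw [← hab, mul_comm]⟩, n0.ne'⟩, ?_⟩
    rw [← hab, Nat.factorization_mul (pow_ne_zero _ b0) ha.ne_zero, Nat.factorization_pow]
    simp only [Finsupp.add_apply, Finsupp.smul_apply, smul_eq_mul,
      Nat.factorization_eq_one_of_squarefree ha qp (dvd_of_mem_primeFactors hq)]
    exact odd_two_mul_add_one _
  have h7 := Real.log_le_log (by positivity) (show (2 : ℝ) ^ (55 * s) ≤ a by exact_mod_cast h4)
  rw [Real.log_pow] at h7
  have h8 := sum_le_sum_of_subset_of_nonneg (f := fun q : ℕ => Real.log q) h6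
    (fun _ _ _ => Real.log_natCast_nonneg _)
  have := Real.log_two_gt_d9
  push_cast at h7
  nlinarith [show (0 : ℝ) ≤ s by positivity]

lemma div_le_fac {q N : ℕ} (hq : q.Prime) : N / q ≤ (N !).factorization q := by
  rw [factorization_factorial hq (b := Nat.log q N + 2) (by omega)]
  have := single_le_sum (f := fun i => N / q ^ i) (s := Ico 1 (Nat.log q N + 2)) (a := 1)
    (fun _ _ => Nat.zero_le _) (mem_Ico.mpr ⟨le_rfl, by omega⟩)
  simpa using this

lemma sum_div_log (P : Finset ℕ) (hP : ∀ q ∈ P, q.Prime) (N : ℕ) :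
    ∑ q ∈ P, ((N / q : ℕ) : ℝ) * Real.log q ≤ N * Real.log N := by
  have h1 := log_eq (N !) (P ∪ (N !).primeFactors) subset_union_right
  have h2 : Real.log (N ! : ℕ) ≤ N * Real.log N := by
    rw [← Real.log_pow]
    exact Real.log_le_log (by positivity) (by exact_mod_cast factorial_le_pow N)
  refine le_trans ?_ (h1 ▸ h2)
  refine le_trans (sum_le_sum fun q hq => ?_) (sum_le_sum_of_subset_of_nonneg subset_union_left
    (fun q _ _ => mul_nonneg (by positivity) (Real.log_natCast_nonneg q)))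
  exact mul_le_mul_of_nonneg_right (by exact_mod_cast div_le_fac (hP q hq))
    (Real.log_natCast_nonneg q)

lemma mertens_up (P : Finset ℕ) (Y : ℕ) (hY : 0 < Y) (hP : ∀ q ∈ P, q.Prime ∧ q ≤ Y) :
    ∑ q ∈ P, Real.log q / q ≤ 2 * Real.log Y := by
  have h1 := sum_div_log P (fun q hq => (hP q hq).1) Y
  have Y0 : (0 : ℝ) < Y := by exact_mod_cast hY
  apply le_of_mul_le_mul_left _ Y0
  rw [mul_sum]
  refine le_trans (sum_le_sum (g := fun q : ℕ => 2 * (((Y / q : ℕ) : ℝ) * Real.log q))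
    fun q hq => ?_) (by rw [← mul_sum]; linarith)
  obtain ⟨a1, a2⟩ := hP q hq
  have q0 : (0 : ℝ) < q := by exact_mod_cast a1.pos
  have b1 : Y ≤ 2 * (Y / q) * q := by
    have c1 := Nat.lt_div_mul_add (a := Y) a1.pos
    have c2 : q ≤ Y / q * q := Nat.le_mul_of_pos_left _ (Nat.div_pos a2 a1.pos)
    rw [mul_assoc]; omega
  have b2 : (Y : ℝ) ≤ 2 * (Y / q : ℕ) * q := by exact_mod_cast b1
  rw [← mul_div_assoc, div_le_iff₀ q0]
  nlinarith [Real.log_natCast_nonneg q]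

/-- numbers whose odd-power primes are small -/
def Sm (s t : ℕ) : Finset ℕ :=
  (Ioc 0 (2 ^ (60 * s))).filter (fun n => 2 ^ (57 * s) ≤ n ∧ ∀ q ∈ od n, q ≤ 2 ^ (3 * t))

lemma card_Sm (s t : ℕ) (hs : 0 < s) :
    ((Sm s t).card : ℝ) ≤ 2 ^ (59 * s) + 2 ^ (60 * s) * (t / s) ^ 2 := by
  set x := 2 ^ (60 * s) with hx
  set P := (range (2 ^ (3 * t) + 1)).filter Nat.Prime with hP
  have hP1 : ∀ q ∈ P, q.Prime ∧ q ≤ 2 ^ (3 * t) := fun q hq =>
    ⟨(mem_filter.mp hq).2, by have := mem_range.mp (mem_filter.mp hq).1; omega⟩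
  have l0 := fun q : ℕ => Real.log_natCast_nonneg q
  have h1 : ∑ n ∈ Ioc 0 x, (∑ q ∈ P, if q ∣ n then Real.log q else 0) ^ 2 ≤ x * (54 * t ^ 2) := by
    have a1 : ∀ n : ℕ, (∑ q ∈ P, if q ∣ n then Real.log q else 0) ^ 2 =
        ∑ q ∈ P, ∑ q' ∈ P, if q ∣ n ∧ q' ∣ n then Real.log q * Real.log q' else 0 := by
      intro n
      rw [sq, sum_mul_sum]
      simp only [ite_and]
      refine sum_congr rfl fun q _ => sum_congr rfl fun q' _ => ?_
      split_ifs <;> simp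
    simp only [a1]
    rw [sum_comm]
    have a2 : ∀ q ∈ P, ∑ n ∈ Ioc 0 x, ∑ q' ∈ P,
        (if q ∣ n ∧ q' ∣ n then Real.log q * Real.log q' else 0) ≤
        x * (Real.log q / q) * (9 * t) := by
      intro q hq
      rw [sum_comm, ← add_sum_erase _ _ hq]
      have b0 : Real.log q ≤ (3 * t : ℕ) := log_le_pow (hP1 q hq).2
      have b1 : ∑ n ∈ Ioc 0 x, (if q ∣ n ∧ q ∣ n then Real.log q * Real.log q else 0) ≤
          x * (Real.log q / q) * (3 * t) := by
        simp only [and_self]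
        rw [← sum_filter, sum_const, nsmul_eq_mul]
        push_cast at b0
        calc _ ≤ x / q * (Real.log q * (3 * t)) :=
              mul_le_mul (card_mult x q) (mul_le_mul_of_nonneg_left b0 (l0 q))
                (mul_nonneg (l0 q) (l0 q)) (by positivity)
          _ = _ := by ring
      have b2 : ∀ q' ∈ P.erase q, ∑ n ∈ Ioc 0 x,
          (if q ∣ n ∧ q' ∣ n then Real.log q * Real.log q' else 0) ≤
          x * (Real.log q / q) * (Real.log q' / q') := by
        intro q' hq'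
        have c : Nat.Coprime q q' := (Nat.coprime_primes (hP1 q hq).1
          (hP1 q' (mem_of_mem_erase hq')).1).mpr (ne_of_mem_erase hq').symm
        have e : ∀ n, (q ∣ n ∧ q' ∣ n) ↔ q * q' ∣ n := fun n =>
          ⟨fun h => c.mul_dvd_of_dvd_of_dvd h.1 h.2,
            fun h => ⟨(dvd_mul_right _ _).trans h, (dvd_mul_left _ _).trans h⟩⟩
        simp only [e]
        rw [← sum_filter, sum_const, nsmul_eq_mul]
        calc _ ≤ x / (q * q' : ℕ) * (Real.log q * Real.log q') :=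
              mul_le_mul_of_nonneg_right (card_mult x _) (mul_nonneg (l0 q) (l0 q'))
          _ = _ := by push_cast; ring
      have b3 := sum_le_sum b2
      rw [← mul_sum] at b3
      have b4 := mertens_up (P.erase q) _ (by positivity) (fun q' hq' => hP1 q' (mem_of_mem_erase hq'))
      have b5 : Real.log (2 ^ (3 * t) : ℕ) ≤ (3 * t : ℕ) := log_le_pow le_rfl
      have b6 : x * (Real.log q / q) * ∑ q' ∈ P.erase q, Real.log q' / q' ≤
          x * (Real.log q / q) * (6 * t) :=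
        mul_le_mul_of_nonneg_left (by push_cast at b4 b5; linarith) (by have := l0 q; positivity)
      linarith
    refine (sum_le_sum a2).trans ?_
    rw [← sum_mul, ← mul_sum]
    have b4 := mertens_up P _ (by positivity) hP1
    have b5 : Real.log (2 ^ (3 * t) : ℕ) ≤ (3 * t : ℕ) := log_le_pow le_rfl
    calc _ ≤ x * (6 * t) * (9 * t : ℝ) := by gcongr; push_cast at b4 b5; linarith
      _ = _ := by ring
  have h2 := card_nsmul_le_sum (Sm s t \ Sq s)
    (fun n => (∑ q ∈ P, if q ∣ n then Real.log q else 0) ^ 2) ((38 * s : ℝ) ^ 2) (fun n hn => by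
      obtain ⟨a1, a2⟩ := mem_sdiff.mp hn
      obtain ⟨a3, a4, a5⟩ := mem_filter.mp a1
      apply pow_le_pow_left₀ (by positivity) ((od_big a4 (mem_Ioc.mp a3).2 a2).trans _)
      rw [← sum_filter]
      apply sum_le_sum_of_subset_of_nonneg _ (fun _ _ _ => l0 _)
      intro q hq
      have := (mem_filter.mp hq).1
      exact mem_filter.mpr ⟨mem_filter.mpr ⟨mem_range.mpr (Nat.lt_succ_of_le (a5 q hq)),
        prime_of_mem_primeFactors this⟩, dvd_of_mem_primeFactors this⟩)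
  have h3 := h2.trans ((sum_le_sum_of_subset_of_nonneg (sdiff_subset.trans (filter_subset _ _))
    (fun _ _ _ => sq_nonneg _)).trans h1)
  have s0 : (0 : ℝ) < s := by exact_mod_cast hs
  have h4 : ((Sm s t \ Sq s).card : ℝ) ≤ x * (t / s) ^ 2 := by
    rw [div_pow, ← mul_div_assoc, le_div_iff₀ (by positivity)]
    rw [nsmul_eq_mul] at h3
    have : (0 : ℝ) ≤ x * t ^ 2 := by positivity
    nlinarith
  have h5 : ((Sm s t).card : ℝ) ≤ (Sm s t \ Sq s).card + (Sq s).card := by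
    exact_mod_cast card_le_card_sdiff_add_card
  have h6 := card_Sq s
  rw [hx] at h4
  push_cast at h4
  linarith

/-- points near which large square factors are frequent -/
def Dense (s : ℕ) : Finset ℕ := (range (36 * s + 1)).biUnion fun i =>
  (range (2 ^ (60 * s) + 1)).filter (fun n => 2 ^ i ≤ 10 *
    ((Sq s).filter (fun k => n < k + 2 ^ (i + 1) ∧ k < n + 2 ^ (i + 1))).card)

lemma card_Dense (s : ℕ) : ((Dense s).card : ℝ) ≤ (36 * s + 1) * (40 * 2 ^ (59 * s)) := by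
  have h1 : (Dense s).card ≤ (36 * s + 1) * (40 * (Sq s).card) := by
    refine (card_biUnion_le_card_mul _ _ (40 * (Sq s).card) fun i _ => ?_).trans (by rw [card_range])
    set A := (range (2 ^ (60 * s) + 1)).filter (fun n => 2 ^ i ≤ 10 *
      ((Sq s).filter (fun k => n < k + 2 ^ (i + 1) ∧ k < n + 2 ^ (i + 1))).card)
    have a1 := card_nsmul_le_sum A (fun n => 10 *
      ((Sq s).filter (fun k => n < k + 2 ^ (i + 1) ∧ k < n + 2 ^ (i + 1))).card) (2 ^ i)
      (fun n hn => (mem_filter.mp hn).2)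
    have a0 := sum_card_bipartiteAbove_eq_sum_card_bipartiteBelow (s := A) (t := Sq s)
      (fun n k => n < k + 2 ^ (i + 1) ∧ k < n + 2 ^ (i + 1))
    rw [← mul_sum] at a1
    replace a1 := a1.trans (Nat.mul_le_mul_left _ a0.le)
    have a2 := sum_le_card_nsmul (Sq s) (fun k => (A.bipartiteBelow
      (fun n k => n < k + 2 ^ (i + 1) ∧ k < n + 2 ^ (i + 1)) k).card) (4 * 2 ^ i) (fun k _ => by
        refine (card_le_card (t := Ico (k - 2 ^ (i + 1)) (k + 2 ^ (i + 1))) fun n hn => ?_).trans ?_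
        · have := (mem_bipartiteBelow _).mp hn
          exact mem_Ico.mpr ⟨by omega, this.2.1⟩
        · rw [Nat.card_Ico, pow_succ]; omega)
    rw [smul_eq_mul] at a1 a2
    apply Nat.le_of_mul_le_mul_right (c := 2 ^ i) _ (by positivity)
    calc _ ≤ 10 * ((Sq s).card * (4 * 2 ^ i)) := a1.trans (Nat.mul_le_mul_left _ a2)
      _ = _ := by ring
  have h2 := card_Sq s
  calc ((Dense s).card : ℝ) ≤ (36 * s + 1) * (40 * (Sq s).card) := by exact_mod_cast h1
    _ ≤ _ := by gcongr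

lemma mem_Dense {s n L : ℕ} (A : Finset ℕ) (hn : n ≤ 2 ^ (60 * s)) (hL0 : 0 < L)
    (hL : L < 2 ^ (36 * s)) (hA : ∀ k ∈ A, 2 ^ (57 * s) ≤ k ∧ k ≤ 2 ^ (60 * s) ∧ n < k + L ∧ k < n + L)
    (hs : 0 < s) (h : ∑ k ∈ A, ∑ q ∈ od k, Real.log q ≤ 38 * s * (A.card - L / 10)) : n ∈ Dense s := by
  have h1 := card_nsmul_le_sum (A \ Sq s) (fun k => ∑ q ∈ od k, Real.log q) (38 * s) (fun k hk =>
    od_big (hA k (mem_sdiff.mp hk).1).1 (hA k (mem_sdiff.mp hk).1).2.1 (mem_sdiff.mp hk).2)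
  have h2 := h1.trans ((sum_le_sum_of_subset_of_nonneg sdiff_subset (fun _ _ _ =>
    sum_nonneg fun _ _ => Real.log_natCast_nonneg _)).trans h)
  rw [nsmul_eq_mul, mul_comm] at h2
  have s0 : (0 : ℝ) < 38 * s := by positivity
  have h3 := le_of_mul_le_mul_left h2 s0
  have h4 : ((A \ Sq s).card : ℝ) + (A ∩ Sq s).card = A.card := by
    exact_mod_cast card_sdiff_add_card_inter A (Sq s)
  have h5 : L ≤ 10 * (A ∩ Sq s).card := by
    have : (L : ℝ) ≤ 10 * (A ∩ Sq s).card := by linarith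
    exact_mod_cast this
  have h6 := Nat.pow_log_le_self 2 hL0.ne'
  have h7 := Nat.lt_pow_succ_log_self (b := 2) (by norm_num) L
  refine mem_biUnion.mpr ⟨Nat.log 2 L, mem_range.mpr ?_, mem_filter.mpr ⟨mem_range.mpr (by omega),
    h6.trans (h5.trans (Nat.mul_le_mul_left _ (card_le_card fun k hk => ?_)))⟩⟩
  · have := (Nat.pow_lt_pow_iff_right (a := 2) (by norm_num)).mp (lt_of_le_of_lt h6 hL); omega
  · obtain ⟨a1, a2⟩ := mem_inter.mp hk
    have := hA k a1
    exact mem_filter.mpr ⟨a2, by omega, by omega⟩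

lemma sep_card (A : Finset ℕ) (x N D : ℕ) (hN : 0 < N) (hA : ∀ n ∈ A, n ≤ x)
    (h : ∀ n ∈ A, ∀ n' ∈ A, n < n' → n' ≤ n + N → n' ≤ n + D) : A.card ≤ (D + 1) * (x / N + 1) := by
  have := card_le_mul_card_image_of_maps_to (f := fun n => n / N) (s := A) (t := range (x / N + 1))
    (fun n hn => mem_range.mpr (Nat.lt_succ_of_le (Nat.div_le_div_right (hA n hn)))) (D + 1)
    (fun j _ => by
      rcases (A.filter (fun n => n / N = j)).eq_empty_or_nonempty with e | hne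
      · rw [e]; simp
      obtain ⟨n0, h0, hmin⟩ := exists_min_image _ id hne
      refine (card_le_card (t := Icc n0 (n0 + D)) fun n hn => ?_).trans (by rw [Nat.card_Icc]; omega)
      have a1 : n0 ≤ n := hmin n hn
      refine mem_Icc.mpr ⟨a1, ?_⟩
      rcases a1.eq_or_lt with e | e
      · omega
      apply h n0 (mem_filter.mp h0).1 n (mem_filter.mp hn).1 e
      have b1 := Nat.lt_div_mul_add (a := n) hN
      have b2 := Nat.div_mul_le_self n0 N
      rw [(mem_filter.mp hn).2] at b1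
      rw [(mem_filter.mp h0).2] at b2
      omega)
  rwa [card_range] at this

/-- points near which most primes of `Q` have a multiple -/
noncomputable def Bad (Q : Finset ℕ) (η : ℝ) (x W : ℕ) : Finset ℕ :=
  (range (x + 1)).filter (fun n =>
    ∑ q ∈ Q.filter (fun q => ¬ ∃ k ∈ Icc (n - W) (n + W), q ∣ k), Real.log q ≤ η)

/-- having a multiple in an interval -/
def HM (e L q : ℕ) : Prop := ∃ k ∈ Ioc e (e + L), q ∣ k

instance (e L : ℕ) : DecidablePred (HM e L) := fun _ => Finset.decidableExistsAndFinset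

lemma bad_pair {Q : Finset ℕ} {η : ℝ} {x W n n' : ℕ} (h : n ∈ Bad Q η x W) (h' : n' ∈ Bad Q η x W)
    (hQ : 4 * η ≤ ∑ q ∈ Q, Real.log q) {e : ℕ} (he : n' = n + (e + 2 * W + 1)) :
    2 * η ≤ ∑ q ∈ Q.filter (HM e (4 * W + 1)), Real.log q := by
  have h1 := (mem_filter.mp h).2
  have h2 := (mem_filter.mp h').2
  rw [sum_filter] at h1 h2 ⊢
  have h3 : ∑ q ∈ Q, Real.log q ≤ ∑ q ∈ Q,
      ((if HM e (4 * W + 1) q then Real.log q else 0) +
      (if ¬ ∃ k ∈ Icc (n - W) (n + W), q ∣ k then Real.log q else 0) +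
      (if ¬ ∃ k ∈ Icc (n' - W) (n' + W), q ∣ k then Real.log q else 0)) := by
    apply sum_le_sum
    intro q _
    have := Real.log_natCast_nonneg q
    by_cases c1 : ∃ k ∈ Icc (n - W) (n + W), q ∣ k
    · by_cases c2 : ∃ k ∈ Icc (n' - W) (n' + W), q ∣ k
      · rw [if_pos, if_neg (not_not.mpr c1), if_neg (not_not.mpr c2)]
        · linarith
        obtain ⟨k, hk, d1⟩ := c1
        obtain ⟨k', hk', d2⟩ := c2
        rw [mem_Icc] at hk hk'
        exact ⟨k' - k, mem_Ioc.mpr ⟨by omega, by omega⟩, Nat.dvd_sub d2 d1⟩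
      · rw [if_pos c2]; split_ifs <;> linarith
    · rw [if_pos c1]; split_ifs <;> linarith
  rw [sum_add_distrib, sum_add_distrib] at h3
  linarith

lemma card_Bad {c : ℝ} {B t s y : ℕ} (hc : 0 < c) (hB : 2521 ≤ c * B) (hs : s = B * t)
    (hs' : 480 ≤ s) (ht : 268801 ≤ c * t) (ht' : 5600 * s ≤ c * 2 ^ t) (hB1 : 1 ≤ B)
    (hy : s ≤ 24 * y) (hy' : y ≤ 2 ^ (38 * s)) (Q : Finset ℕ)
    (hQ : 4 * (c * y) ≤ ∑ q ∈ Q, Real.log q) (hQ' : ∀ q ∈ Q, q.Prime ∧ y < q ∧ q ≤ 4 * y) :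
    (Bad Q (c * y) (2 ^ (60 * s)) (48 * y / s)).card * 2 ^ (5 * t) ≤ 8 * 2 ^ (60 * s) := by
  obtain ⟨W, hW⟩ : ∃ W, W = 48 * y / s := ⟨_, rfl⟩
  rw [← hW]
  have W1 : W * s ≤ 48 * y := hW ▸ Nat.div_mul_le_self _ _
  have W2 : 2 ≤ W := hW ▸ (Nat.le_div_iff_mul_le (by omega)).mpr (by omega)
  have W3 : 10 * W ≤ y := by
    have : W * 480 ≤ W * s := Nat.mul_le_mul_left _ hs'
    omega
  have ts : t ≤ s := hs ▸ Nat.le_mul_of_pos_left _ hB1
  have t1 : 1 ≤ t := Nat.pos_of_ne_zero (by rintro rfl; omega)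
  have W1' : (W : ℝ) * s ≤ 48 * y := by exact_mod_cast W1
  have y0 : (0 : ℝ) < y := by exact_mod_cast (show 0 < y by omega)
  have t0 : (0 : ℝ) < t := by exact_mod_cast t1
  have L5 : ((4 * W + 1 : ℕ) : ℝ) ≤ 5 * W := by exact_mod_cast (show 4 * W + 1 ≤ 5 * W by omega)
  have hA : ∀ n ∈ Bad Q (c * y) (2 ^ (60 * s)) W, n ≤ 2 ^ (60 * s) := fun n hn =>
    Nat.le_of_lt_succ (mem_range.mp (mem_filter.mp hn).1)
  by_cases hr : y ≤ 2 ^ (10 * t)
  · have h1 := sep_card _ _ (2 ^ (20 * t)) (2 * W) (by positivity) hA (fun n hn n' hn' a1 a2 => by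
      by_contra a3
      obtain ⟨e, he⟩ : ∃ e, n' = n + (e + 2 * W + 1) := ⟨n' - n - 2 * W - 1, by omega⟩
      have b1 := bad_pair hn hn' hQ he
      have b2 := mass_le_log (Q := Q.filter (HM e (4 * W + 1)))
        (prod_ne_zero_iff.mpr (Ioc_ne (b := e) (m := e + (4 * W + 1)))) (fun q hq => by
          obtain ⟨c1, k, c2, c3⟩ := mem_filter.mp hq
          exact ⟨(hQ' q c1).1, c3.trans (dvd_prod_of_mem _ c2)⟩)
      have b3 : ∏ k ∈ Ioc e (e + (4 * W + 1)), k ≤ 2 ^ (21 * t * (4 * W + 1)) := by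
        have := prod_le_pow_card (Ioc e (e + (4 * W + 1))) (fun k => k) (2 ^ (21 * t)) (fun k hk => by
          have c1 := (mem_Ioc.mp hk).2
          have c2 := p2 (show 10 * t ≤ 20 * t by omega)
          have c3 : 2 * 2 ^ (20 * t) ≤ 2 ^ (21 * t) := mul_p2 (a := 1) le_rfl le_rfl (by omega)
          omega)
        rwa [Nat.card_Ioc, Nat.add_sub_cancel_left, ← pow_mul] at this
      have b4 := log_le_pow b3
      rw [Nat.cast_mul] at b4
      have b5 : ((21 * t : ℕ) : ℝ) * ((4 * W + 1 : ℕ) : ℝ) ≤ 21 * t * (5 * W) := by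
        push_cast at L5 ⊢; gcongr
      have b6 : (B : ℝ) * (2 * (c * y)) ≤ B * (21 * t * (5 * W)) :=
        mul_le_mul_of_nonneg_left (by linarith) (by positivity)
      have b7 : (s : ℝ) = B * t := by exact_mod_cast hs
      have b8 := mul_le_mul_of_nonneg_right hB y0.le
      rw [b7] at W1'
      nlinarith)
    have h2 : 2 ^ (60 * s) / 2 ^ (20 * t) + 1 ≤ 2 ^ (60 * s - 20 * t + 1) := by
      rw [Nat.pow_div (by omega) (by norm_num), pow_succ]
      have := Nat.one_le_two_pow (n := 60 * s - 20 * t)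
      omega
    have h3 := mul_p2 (h1.trans (mul_p2 (show 2 * W + 1 ≤ 2 ^ (10 * t) by omega) h2 le_rfl))
      (le_refl (2 ^ (5 * t))) (show _ ≤ 60 * s by omega)
    omega
  · have h1 := sep_card _ _ (y * 2 ^ (5 * t)) (2 * W) (Nat.mul_pos (by omega) (by positivity)) hA (fun n hn n' hn' a1 a2 => by
      by_contra a3
      obtain ⟨e, he⟩ : ∃ e, n' = n + (e + 2 * W + 1) := ⟨n' - n - 2 * W - 1, by omega⟩
      have b1 := bad_pair hn hn' hQ he
      have b0 := p2 (show t ≤ 10 * t by omega)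
      have b2 := BTD e (4 * W + 1) t y (40 * s) (by positivity) t1 (by omega) (Or.inr (by omega))
        (Q.filter (HM e (4 * W + 1))) (fun q hq => by
          obtain ⟨c1, c2⟩ := mem_filter.mp hq
          obtain ⟨c3, c4, c5⟩ := hQ' q c1
          refine ⟨c3, c4, c5, ?_, c2⟩
          exact_mod_cast log_le_pow (c5.trans (mul_p2 (a := 2) (c := 40 * s) le_rfl hy' (by omega))))
      have b3 : e / y + 1 ≤ 2 * 2 ^ (5 * t) := by
        have := Nat.div_le_of_le_mul (show e ≤ y * 2 ^ (5 * t) by omega)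
        have := Nat.one_le_two_pow (n := 5 * t)
        omega
      have b4 : ((e / y + 1 : ℕ) : ℝ) ≤ 2 * 2 ^ (5 * t) := by exact_mod_cast b3
      have b5 : (2 : ℝ) ^ (10 * t) ≤ y := by exact_mod_cast (show 2 ^ (10 * t) ≤ y by omega)
      have b6 : (40 * s : ℝ) * (70 * 2 ^ (4 * t) * (e / y + 1 : ℕ)) ≤ c * y := by
        calc _ ≤ (40 * s : ℝ) * (70 * 2 ^ (4 * t) * (2 * 2 ^ (5 * t))) := by gcongr
          _ = 5600 * s * 2 ^ (9 * t) := by ring
          _ ≤ c * 2 ^ t * 2 ^ (9 * t) := by gcongr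
          _ = c * 2 ^ (10 * t) := by ring
          _ ≤ _ := by gcongr
      have b7 : (40 * s : ℝ) * (28 * (4 * W + 1 : ℕ) / t) < c * y := by
        rw [← mul_div_assoc, div_lt_iff₀ t0]
        have c1 : (40 * s : ℝ) * (28 * (4 * W + 1 : ℕ)) ≤ 40 * s * (28 * (5 * W)) := by gcongr
        have c2 := mul_le_mul_of_nonneg_right ht y0.le
        nlinarith
      rw [mul_add] at b2
      linarith)
    have h2 := Nat.div_mul_le_self (2 ^ (60 * s)) (y * 2 ^ (5 * t))
    have h3 : y * 2 ^ (5 * t) ≤ 2 ^ (60 * s) := mul_p2 hy' le_rfl (by omega)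
    calc _ ≤ (y * (2 ^ (60 * s) / (y * 2 ^ (5 * t)) + 1)) * 2 ^ (5 * t) :=
          Nat.mul_le_mul_right _ (h1.trans (Nat.mul_le_mul_right _ (by omega)))
      _ = 2 ^ (60 * s) / (y * 2 ^ (5 * t)) * (y * 2 ^ (5 * t)) + y * 2 ^ (5 * t) := by ring
      _ ≤ _ := by omega

lemma scale {d : ℕ} (hd : 8 ≤ d) : ∃ i y, (y = 2 ^ i ∨ y = 3 * 2 ^ i) ∧ 4 * y ≤ d ∧ d ≤ 6 * y := by
  have h6 := Nat.pow_log_le_self 2 (show d ≠ 0 by omega)
  have h7 := Nat.lt_pow_succ_log_self (b := 2) (by norm_num) d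
  obtain ⟨k, hk⟩ : ∃ k, Nat.log 2 d = k + 3 :=
    ⟨Nat.log 2 d - 3, by have := Nat.le_log_of_pow_le (b := 2) (x := 3) (by norm_num) hd; omega⟩
  rw [hk] at h6 h7
  simp only [pow_succ] at h6 h7
  by_cases h : d ≤ 12 * 2 ^ k
  · exact ⟨k + 1, _, Or.inl rfl, by rw [pow_succ]; omega, by rw [pow_succ]; omega⟩
  · exact ⟨k, _, Or.inr rfl, by omega, by omega⟩

end Pool.Agent.H.MP_636046_nt
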