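import Pool.Agent.H.MP_636046_nt.C

set_option autoImplicit false

namespace Pool.Agent.H.MP_636046_nt
open Finset Pool.Agent.H.MP_3aed06_nt Pool.Agent.H.MP_559555_nt Nat

/-- many primes in the upper half -/
def W2 (c : ℝ) (N : ℕ) : Prop := ∀ Y : ℕ, N ≤ Y →
  ∃ Q : Finset ℕ, c * Y ≤ ∑ q ∈ Q, Real.log q ∧ ∀ q ∈ Q, q.Prime ∧ q ≤ Y ∧ Y < 2 * q

lemma prod_Ioc_le {b m u : ℕ} (h : m ≤ 2 ^ u) : ∏ n ∈ Ioc b m, n ≤ 2 ^ ((m - b) * u) := by
  have := prod_le_pow_card (Ioc b m) (fun k => k) (2 ^ u) (fun k hk => (mem_Ioc.mp hk).2.trans h)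
  rwa [Nat.card_Ioc, ← pow_mul, mul_comm] at this

lemma F1 {c : ℝ} {N m b a c' d u : ℕ} (w : W2 c N) (hP : Par m b a c' d) (hm : m ≤ 2 ^ u)
    (ha : a ≤ 2 ^ u) : d < N ∨ c * d ≤ ((m - b : ℕ) + (a - c' : ℕ)) * u := by
  by_cases h : d < N
  · exact Or.inl h
  obtain ⟨Q, q1, q2⟩ := w d (by omega)
  have h1 := mass_le_log (Q := Q) (N := (∏ n ∈ Ioc b m, n) * ∏ n ∈ Ioc c' a, n)
    (Nat.mul_ne_zero (prod_ne_zero_iff.mpr Ioc_ne) (prod_ne_zero_iff.mpr Ioc_ne)) (fun q hq => by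
      obtain ⟨a1, a2, a3⟩ := q2 q hq
      rcases hP.p1 a1 a2 a3 with ⟨n, hn, e⟩ | ⟨n, hn, e⟩
      · exact ⟨a1, (e.trans (dvd_prod_of_mem _ hn)).mul_right _⟩
      · exact ⟨a1, (e.trans (dvd_prod_of_mem _ hn)).mul_left _⟩)
  have h2 := log_le_pow (mul_p2 (prod_Ioc_le (b := b) hm) (prod_Ioc_le (b := c') ha) le_rfl)
  right
  rw [← add_mul, Nat.cast_mul (m - b + (a - c')), Nat.cast_add] at h2
  linarith

lemma rel {w p v c a n1 n' h' q : ℕ} (h0 : p * v ∈ Ioc c a) (h1 : n1 ∈ Ioc c a)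
    (hm : n' + h' = w * p) (d1 : q ∣ n') (d2 : q ∣ n1) (hv : v < w) :
    w ∣ v * h' ∨ q ≤ w * (a - c) + w * h' := by
  have e : (w : ℤ) * n1 - v * n' = w * (n1 - (p * v : ℕ)) + v * h' := by
    have : (n' : ℤ) + h' = w * p := by exact_mod_cast hm
    push_cast
    linear_combination (-(v : ℤ)) * this
  have d3 : (q : ℤ) ∣ w * (n1 - (p * v : ℕ)) + v * h' :=
    e ▸ dvd_sub ((Int.natCast_dvd_natCast.mpr d2).mul_left _) ((Int.natCast_dvd_natCast.mpr d1).mul_left _)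
  by_cases hz : (w : ℤ) * (n1 - (p * v : ℕ)) + v * h' = 0
  · left
    have : (w : ℤ) ∣ v * h' := ⟨-(n1 - (p * v : ℕ)), by linarith⟩
    exact_mod_cast this
  · right
    have h2 := Int.le_of_dvd (abs_pos.mpr hz) ((dvd_abs _ _).mpr d3)
    rw [mem_Ioc] at h0 h1
    have h3 : |(n1 : ℤ) - (p * v : ℕ)| ≤ (a - c : ℕ) := by
      generalize p * v = n0 at h0
      rw [abs_le]; omega
    have h4 : |(w : ℤ) * (n1 - (p * v : ℕ)) + v * h'| ≤ w * (a - c : ℕ) + w * h' := by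
      refine (abs_add_le _ _).trans (add_le_add ?_ ?_)
      · rw [abs_mul, Nat.abs_cast]; gcongr
      · rw [abs_of_nonneg (by positivity)]
        have : (v : ℤ) ≤ w := by exact_mod_cast hv.le
        gcongr
    exact_mod_cast h2.trans h4

lemma card_cong_Ioc (A : Finset ℕ) (D c a : ℕ) (hA : A ⊆ Ioc c a)
    (h : ∀ u ∈ A, ∀ v ∈ A, u ≡ v [MOD D]) : A.card ≤ (a - c) / D + 1 := by
  have hc : ∀ u ∈ A, c < u ∧ u ≤ a := fun u hu => mem_Ioc.mp (hA hu)
  rw [← Finset.card_image_of_injOn (f := fun n => n - c) (fun u hu v hv e => by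
    have := hc u hu; have := hc v hv; dsimp only at e; omega)]
  apply card_cong
  · intro u hu
    obtain ⟨n, hn, rfl⟩ := mem_image.mp hu
    have := hc n hn; omega
  · intro u hu v hv
    obtain ⟨n, hn, rfl⟩ := mem_image.mp hu
    obtain ⟨n', hn', rfl⟩ := mem_image.mp hv
    apply Nat.ModEq.add_right_cancel' c
    rw [Nat.sub_add_cancel (hc n hn).1.le, Nat.sub_add_cancel (hc n' hn').1.le]
    exact h n hn n' hn'

lemma mem_od {n q : ℕ} (h : q ∈ od n) : q.Prime ∧ q ∣ n ∧ Odd (n.factorization q) :=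
  ⟨prime_of_mem_primeFactors (mem_filter.mp h).1, dvd_of_mem_primeFactors (mem_filter.mp h).1,
    (mem_filter.mp h).2⟩

lemma OS (A P : Finset ℕ) (L Y : ℕ) (h1 : ∀ q, (A.filter (fun n => q ∈ od n)).card ≤ L / q + 1)
    (h2 : ∀ n ∈ A, ∀ q ∈ od n, q ≤ Y ∨ q ∈ P) :
    ∑ n ∈ A, ∑ q ∈ od n, Real.log q ≤ L * Real.log L + 2 * Y + ∑ q ∈ P, Real.log q := by
  have l0 := fun q : ℕ => Real.log_natCast_nonneg q
  have e := sum_comm' (s := A) (t := od) (t' := A.biUnion od)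
    (s' := fun q => A.filter (fun n => q ∈ od n)) (f := fun _ q => Real.log q) (fun n q => by
      simp only [mem_filter, mem_biUnion]
      exact ⟨fun h => ⟨h, n, h⟩, fun h => h.1⟩)
  have hp : ∀ q ∈ A.biUnion od, q.Prime := fun q hq => by
    obtain ⟨n, -, h⟩ := mem_biUnion.mp hq
    exact (mem_od h).1
  rw [e]
  have h3 : ∀ q ∈ A.biUnion od, ∑ _n ∈ A.filter (fun n => q ∈ od n), Real.log q ≤
      ((L / q : ℕ) : ℝ) * Real.log q + Real.log q := fun q _ => by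
    rw [sum_const, nsmul_eq_mul, ← _root_.add_one_mul]
    exact mul_le_mul_of_nonneg_right (by exact_mod_cast h1 q) (l0 q)
  refine (sum_le_sum h3).trans ?_
  rw [sum_add_distrib, add_assoc, ← sum_filter_add_sum_filter_not (A.biUnion od) (fun q => q ≤ Y)
    (fun q => Real.log q)]
  refine add_le_add (sum_div_log _ hp L) (add_le_add (theta_le fun q hq =>
    ⟨hp q (mem_filter.mp hq).1, (mem_filter.mp hq).2⟩)
    (sum_le_sum_of_subset_of_nonneg (fun q hq => ?_) (fun _ _ _ => l0 _)))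
  obtain ⟨a1, a2⟩ := mem_filter.mp hq
  obtain ⟨n, hn, h⟩ := mem_biUnion.mp a1
  exact (h2 n hn q h).resolve_left a2

lemma log36 {s L : ℕ} (h : L ≤ 2 ^ (36 * s)) : Real.log L ≤ 25 * s := by
  rcases Nat.eq_zero_or_pos L with rfl | hn
  · simp
  refine (Real.log_le_log (by exact_mod_cast hn) (by exact_mod_cast h : (L : ℝ) ≤ 2 ^ (36 * s))).trans ?_
  rw [Real.log_pow]
  have := Real.log_two_lt_d9
  push_cast
  nlinarith [show (0 : ℝ) ≤ s by positivity]

/-- the other primes of the first interval -/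
def RP (m b p : ℕ) : Finset ℕ :=
  (range (m + 1)).filter (fun q => q.Prime ∧ q ≠ p ∧ ∃ n ∈ Ioc b m, q ∣ n)

lemma RP_le {m b w p t u : ℕ} (hm : m = w * p) (hp : p.Prime) (hb : b < m) (hw : w ≤ 2 ^ t)
    (m2 : m ≤ 2 ^ u) : ∑ q ∈ RP m b p, Real.log q ≤ (t + (m - b - 1) * u : ℕ) := by
  have w0 : w ≠ 0 := by rintro rfl; omega
  refine (mass_le_log (N := w * ∏ n ∈ Ioc b (m - 1), n)
    (Nat.mul_ne_zero w0 (prod_ne_zero_iff.mpr Ioc_ne)) (fun q hq => ?_)).trans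
    (log_le_pow (mul_p2 hw (prod_Ioc_le (show m - 1 ≤ 2 ^ u by omega))
      (by rw [show m - 1 - b = m - b - 1 by omega])))
  obtain ⟨-, a1, a2, n, hn, h⟩ := mem_filter.mp hq
  refine ⟨a1, ?_⟩
  rw [mem_Ioc] at hn
  rcases hn.2.eq_or_lt with e | e
  · rw [e, hm] at h
    exact (((Nat.Prime.dvd_mul a1).mp h).resolve_right
      (fun e => a2 ((Nat.prime_dvd_prime_iff_eq a1 hp).mp e))).mul_right _
  · exact (h.trans (dvd_prod_of_mem _ (mem_Ioc.mpr ⟨hn.1, by omega⟩))).mul_left _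

lemma p57 {s : ℕ} (hs : 1 ≤ s) : 2 ^ (57 * s) + 2 ^ (36 * s) ≤ 2 ^ (58 * s) := by
  have := p2 (show 36 * s ≤ 57 * s by omega)
  have : 2 * 2 ^ (57 * s) ≤ 2 ^ (58 * s) := mul_p2 (a := 1) le_rfl le_rfl (by omega)
  omega

lemma gam_dense {s m b a c d p n0 : ℕ} (hs : 20 ≤ s) (hP : Par m b a c d) (m2 : m ≤ 2 ^ (60 * s))
    (ha : a ≤ m) (p1 : 2 ^ (58 * s) ≤ p) (h0 : n0 ∈ Ioc c a) (hp : p ∣ n0) (H2 : 2 ≤ a - c)
    (H2' : a - c < 2 ^ (36 * s)) (hd : 8 * d ≤ (a - c) * s)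
    (hR : ∑ q ∈ RP m b p, Real.log q ≤ 3 * s * (a - c - 1 : ℕ)) : n0 ∈ Dense s := by
  have x1 := p57 (show 1 ≤ s by omega)
  have n1 := Nat.le_of_dvd (Nat.pos_of_ne_zero (Ioc_ne _ h0)) hp
  have h0' := mem_Ioc.mp h0
  have h1 := OS ((Ioc c a).erase n0) (RP m b p) (a - c) (a - c + d)
    (fun q => card_cong_Ioc _ q c a ((filter_subset _ _).trans (erase_subset _ _))
      (fun u hu v hv => ((Nat.modEq_zero_iff_dvd).mpr (mem_od (mem_filter.mp hu).2).2.1).trans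
        ((Nat.modEq_zero_iff_dvd).mpr (mem_od (mem_filter.mp hv).2).2.1).symm))
    (fun n hn q hq => by
      obtain ⟨a1, a2, a3⟩ := mem_od hq
      obtain ⟨a4, a5⟩ := mem_erase.mp hn
      by_cases h : q ≤ a - c + d
      · exact Or.inl h
      obtain ⟨n', hn', e⟩ := hP.symm.p2 a1 (by omega) (by omega) a5 a3
      have := Nat.le_of_dvd (Nat.pos_of_ne_zero (Ioc_ne _ hn')) e
      have := (mem_Ioc.mp hn').2
      refine Or.inr (mem_filter.mpr ⟨mem_range.mpr (by omega), a1, ?_, n', hn', e⟩)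
      rintro rfl
      exact a4 (uniq (by omega) a5 h0 a2 hp))
  refine mem_Dense ((Ioc c a).erase n0) (by omega) (by omega) H2' (fun k hk => ?_) (by omega)
    (h1.trans ?_)
  · have := mem_Ioc.mp (mem_of_mem_erase hk)
    omega
  rw [card_erase_of_mem h0, Nat.card_Ioc]
  obtain ⟨L, hL⟩ : ∃ L, a - c = L + 1 := ⟨a - c - 1, by omega⟩
  rw [hL] at hd hR H2 H2' ⊢
  have b1 := log36 H2'.le
  have b2 := Real.log_le_sub_one_of_pos (show (0 : ℝ) < (L + 1 : ℕ) by positivity)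
  have b3 : (8 * d : ℝ) ≤ (L + 1) * s := by exact_mod_cast hd
  have b4 : (1 : ℝ) ≤ L := by exact_mod_cast (show 1 ≤ L by omega)
  have b5 : (20 : ℝ) ≤ s := by exact_mod_cast hs
  rw [Nat.add_sub_cancel] at hR ⊢
  push_cast at b1 b2 ⊢
  generalize Real.log (L + 1) = l at b1 b2
  have b6 := mul_le_mul_of_nonneg_left b1 (show (0 : ℝ) ≤ L by linarith)
  nlinarith

lemma odd_dense {s m b a c n0 : ℕ} (hs : 120 ≤ s) (hP : Par m b a c 0) (m2 : m ≤ 2 ^ (60 * s))
    (m1 : 2 ^ (58 * s) ≤ m) (h0 : n0 ∈ Ioc c a) (hm : m = 2 * n0) (H1 : 20 ≤ m - b)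
    (H1' : m - b < 2 ^ (36 * s)) (H2 : a - c ≤ 21 * (m - b)) : m ∈ Dense s := by
  have x1 := p57 (show 1 ≤ s by omega)
  obtain ⟨L', g1, g2, -⟩ := mult_split b m 2 (by omega) le_rfl
  have h1 := OS ((Ioc b m).filter (fun n => ¬ 2 ∣ n)) ∅ ((m - b) / 2) (44 * (m - b))
    (fun q => by
      rw [Nat.div_div_eq_div_mul]
      refine card_cong_Ioc _ _ b m ((filter_subset _ _).trans (filter_subset _ _)) fun u hu v hv => ?_
      obtain ⟨a1, a2⟩ := mem_filter.mp hu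
      obtain ⟨a3, a4⟩ := mem_filter.mp hv
      have a5 := (mem_filter.mp a1).2
      have a6 := (mem_filter.mp a3).2
      refine (Nat.modEq_and_modEq_iff_modEq_mul ((Nat.Prime.coprime_iff_not_dvd Nat.prime_two).mpr
        (fun e => a5 (e.trans (mem_od a2).2.1)))).mp ⟨?_, ?_⟩
      · unfold Nat.ModEq; omega
      · exact ((Nat.modEq_zero_iff_dvd).mpr (mem_od a2).2.1).trans
          ((Nat.modEq_zero_iff_dvd).mpr (mem_od a4).2.1).symm)
    (fun n hn q hq => by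
      obtain ⟨a1, a2, a3⟩ := mem_od hq
      obtain ⟨a4, a5⟩ := mem_filter.mp hn
      left
      by_contra h
      obtain ⟨n', hn', e⟩ := hP.p2 a1 a1.pos (by omega) a4 a3
      rw [mem_Ioc] at a4
      have := rel (w := 2) (p := n0) (v := 1) (h' := m - n) (by rwa [mul_one]) hn' (by omega) a2 e
        (by norm_num)
      omega)
  refine mem_Dense ((Ioc b m).filter (fun n => ¬ 2 ∣ n)) m2 (by omega) H1' (fun k hk => ?_) (by omega)
    (h1.trans ?_)
  · have := mem_Ioc.mp (mem_filter.mp hk).1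
    omega
  have b1 := log36 (show (m - b) / 2 ≤ 2 ^ (36 * s) by omega)
  generalize ((Ioc b m).filter (fun n => ¬ 2 ∣ n)).card = A at g2
  generalize m - b = L at *
  have b2 : ((L / 2 : ℕ) : ℝ) ≤ L / 2 := Nat.cast_div_le
  have b3 : (9 * L : ℝ) ≤ 20 * A := by exact_mod_cast (show 9 * L ≤ 20 * A by omega)
  have b5 : (120 : ℝ) ≤ s := by exact_mod_cast hs
  have b6 := mul_le_mul b2 b1 (Real.log_natCast_nonneg _) (by positivity)
  have b7 : (0 : ℝ) ≤ L := by positivity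
  rw [sum_empty]
  push_cast
  nlinarith

/-- scales -/
def Ys (s : ℕ) : Finset ℕ :=
  ((range (38 * s + 1)).image (fun i => 2 ^ i) ∪ (range (38 * s + 1)).image (fun i => 3 * 2 ^ i)).filter
    (fun y => s ≤ 24 * y ∧ y ≤ 2 ^ (38 * s))

/-- the exceptional set -/
noncomputable def Exc (Q : ℕ → Finset ℕ) (c : ℝ) (s : ℕ) : Finset ℕ :=
  Dense s ∪ (Ys s).biUnion (fun y => Bad (Q y) (c * y) (2 ^ (60 * s)) (48 * y / s))

lemma gam_bad {c4 : ℝ} {Q : ℕ → Finset ℕ} {N4 B t s m b a c d p n0 : ℕ}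
    (hQ : ∀ y, N4 ≤ y → ∀ q ∈ Q y, q.Prime ∧ 3 * y < q ∧ q ≤ 4 * y) (hs : s = B * t)
    (hs' : 480 ≤ s) (hB : 48 ≤ c4 * B) (hN : 24 * N4 ≤ s) (hP : Par m b a c d)
    (m2 : m ≤ 2 ^ (60 * s)) (ha : a ≤ m) (h0 : n0 ∈ Ioc c a) (H2 : 2 ≤ a - c)
    (hd : (a - c) * s < 8 * d) (hd' : d ≤ 2 ^ (38 * s)) (hp : d < p)
    (hR : ∑ q ∈ RP m b p, Real.log q ≤ t * (a - c : ℕ)) : n0 ∈ Exc Q c4 s := by
  have d1 : 2 * s ≤ (a - c) * s := Nat.mul_le_mul_right _ H2
  obtain ⟨i, y, hy, y1, y2⟩ := scale (show 8 ≤ d by omega)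
  have hi : i < 38 * s + 1 := by
    have : 2 ^ i ≤ 2 ^ (38 * s) := by omega
    have := (Nat.pow_le_pow_iff_right (a := 2) (by norm_num)).mp this
    omega
  have hW : a - c ≤ 48 * y / s := (Nat.le_div_iff_mul_le (by omega)).mpr (by omega)
  have h0' := mem_Ioc.mp h0
  refine mem_union_right _ (mem_biUnion.mpr ⟨y, mem_filter.mpr ⟨?_, by omega, by omega⟩,
    mem_filter.mpr ⟨mem_range.mpr (by omega), ?_⟩⟩)
  · rcases hy with h | h
    · exact mem_union_left _ (mem_image.mpr ⟨i, mem_range.mpr hi, h.symm⟩)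
    · exact mem_union_right _ (mem_image.mpr ⟨i, mem_range.mpr hi, h.symm⟩)
  refine le_trans (sum_le_sum_of_subset_of_nonneg (fun q hq => ?_)
    (fun _ _ _ => Real.log_natCast_nonneg _)) (hR.trans ?_)
  · obtain ⟨a1, a2⟩ := mem_filter.mp hq
    obtain ⟨a3, a4, a5⟩ := hQ y (by omega) q a1
    rcases hP.p1 a3 (by omega) (by omega) with ⟨n, hn, e⟩ | ⟨n, hn, e⟩
    · have := Nat.le_of_dvd (Nat.pos_of_ne_zero (Ioc_ne _ hn)) e
      have := (mem_Ioc.mp hn).2
      exact mem_filter.mpr ⟨mem_range.mpr (by omega), a3, by omega, n, hn, e⟩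
    · rw [mem_Ioc] at hn
      exact absurd ⟨n, mem_Icc.mpr ⟨by omega, by omega⟩, e⟩ a2
  · have b1 : ((a - c : ℕ) : ℝ) * (B * t) ≤ 48 * y := by
      exact_mod_cast (show (a - c) * (B * t) ≤ 48 * y by rw [← hs]; omega)
    have b2 : (0 : ℝ) < B := by
      exact_mod_cast Nat.pos_of_ne_zero (by rintro rfl; omega)
    have b3 := mul_le_mul_of_nonneg_right hB (show (0 : ℝ) ≤ y by positivity)
    apply le_of_mul_le_mul_left _ b2
    nlinarith

/-- the parity condition for two single points -/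
def ParB (w v d : ℕ) : Prop := ∀ q : ℕ, q.Prime →
  Even (w.factorization q + v.factorization q + (d !).factorization q)

lemma d_small {c2 : ℝ} {N2 s t m b a c d : ℕ} (hc : 0 < c2) (w : W2 c2 N2) (hN : N2 ≤ 2 ^ t)
    (ht : 120 * s ≤ c2 * 2 ^ t) (hP : Par m b a c d) (m2 : m ≤ 2 ^ (60 * s)) (ha : a ≤ m) {u : ℕ}
    (h1 : m - b ≤ 2 ^ u) (h2 : a - c ≤ 2 ^ u) : d ≤ 2 ^ (u + t) := by
  rcases F1 w hP m2 (ha.trans m2) with h | h
  · exact h.le.trans (hN.trans (p2 (by omega)))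
  have b1 : ((m - b : ℕ) : ℝ) ≤ 2 ^ u := by exact_mod_cast h1
  have b2 : ((a - c : ℕ) : ℝ) ≤ 2 ^ u := by exact_mod_cast h2
  have : c2 * d ≤ c2 * 2 ^ (u + t) := by
    calc _ ≤ (2 ^ u + 2 ^ u) * ((60 * s : ℕ) : ℝ) := h.trans (by gcongr)
      _ = 120 * s * 2 ^ u := by push_cast; ring
      _ ≤ c2 * 2 ^ t * 2 ^ u := by gcongr
      _ = _ := by ring
  exact_mod_cast le_of_mul_le_mul_left this hc

lemma Ioc_one {b m n : ℕ} (h : m - b = 1) (hn : n ∈ Ioc b m) : Ioc b m = {n} := by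
  ext k
  simp only [mem_Ioc, mem_singleton] at hn ⊢
  omega

/-- a multiple of p in the set -/
def Hit (E : Finset ℕ) (p : ℕ) : Prop := ∃ n0 ∈ E, 0 < n0 ∧ p ∣ n0

/-- a large prime factor just below -/
def Blk (s h m : ℕ) : Prop := ∃ m' p', p'.Prime ∧ 2 ^ (58 * s) ≤ p' ∧ p' ∣ m' ∧ m' < m ∧ m ≤ m' + h

theorem short {c2 c4 : ℝ} {Q : ℕ → Finset ℕ} {N2 N4 B t s h m b a c d w p : ℕ} (hc : 0 < c2)
    (w2 : W2 c2 N2) (hQ : ∀ y, N4 ≤ y → ∀ q ∈ Q y, q.Prime ∧ 3 * y < q ∧ q ≤ 4 * y)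
    (hs : s = B * t) (hs' : 480 ≤ s) (hB : 48 ≤ c4 * B) (hN : 24 * N4 ≤ s) (hN2 : N2 ≤ 2 ^ t)
    (ht : 120 * s ≤ c2 * 2 ^ t) (hh : t + h * (60 * s) ≤ 2 ^ t) (h20 : 20 ≤ h) (ts : t ≤ s)
    (hm : m = w * p) (hp : p.Prime) (p1 : 2 ^ (58 * s) ≤ p) (hw : w ≤ 2 ^ t)
    (m2 : m ≤ 2 ^ (60 * s)) (hca : c ≤ a) (hab : a ≤ b) (hbm : b < m)
    (H1 : m - b < 2 ^ (36 * s)) (H2 : a - c < 2 ^ (36 * s)) (hP : Par m b a c d)
    (hblk : Blk s h m)
    (hβ : ∀ v, 0 < v → v < w → ¬ ParB w v d)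
    (hr : ∀ v h', 0 < v → v < w → 0 < h' → h' ≤ h → w ∣ v * h' → w = 2 * v ∧ d = 0) :
    m - 1 ∈ Sm s t ∨ Hit (Exc Q c4 s) p := by
  have t1 : 1 ≤ t := Nat.pos_of_ne_zero (by rintro rfl; omega)
  have x1 := p57 (show 1 ≤ s by omega)
  have x2 := p2 (show 36 * s + t ≤ 38 * s by omega)
  have x3 : 2 ^ (38 * s) < 2 ^ (57 * s) := Nat.pow_lt_pow_right (by norm_num) (by omega)
  have x4 := p2 (show 34 * s ≤ 57 * s by omega)
  have x5 := Nat.one_le_two_pow (n := 36 * s)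
  have hh' : h ≤ h * (60 * s) := Nat.le_mul_of_pos_right _ (by omega)
  have hd := d_small hc w2 hN2 ht hP m2 (by omega) H1.le H2.le
  obtain ⟨n0, h0, v, rfl⟩ := hP.p3 hp (by omega) (by omega) (sqb (by omega) m2 (by omega))
    (mem_Ioc.mpr ⟨hbm, le_rfl⟩) (hm ▸ dvd_mul_left _ _)
  have h0' := mem_Ioc.mp h0
  have v0 : 0 < v := Nat.pos_of_mul_pos_left (show 0 < p * v by omega)
  have vw : v < w := lt_of_mul_lt_mul_left (a := p) (by rw [mul_comm p w]; omega) (Nat.zero_le _)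
  have pm : p ≤ m := le_trans (Nat.le_mul_of_pos_right _ v0) (by omega)
  have hR := RP_le hm hp hbm hw m2
  have gam : 2 ≤ a - c → t + (m - b - 1) * (60 * s) ≤ t * (a - c - 1) →
      Hit (Exc Q c4 s) p := fun g1 g2 => by
    refine ⟨p * v, ?_, by omega, dvd_mul_right _ _⟩
    by_cases g3 : 8 * d ≤ (a - c) * s
    · refine mem_union_left _ (gam_dense (by omega) hP m2 (by omega) p1 h0 (dvd_mul_right _ _) g1 H2
        g3 (hR.trans ?_))
      exact_mod_cast g2.trans (Nat.mul_le_mul_right _ (by omega))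
    · refine gam_bad hQ hs hs' hB hN hP m2 (by omega) h0 g1 (by omega) (by omega)
        (show d < p by omega) (hR.trans ?_)
      exact_mod_cast g2.trans (Nat.mul_le_mul_left _ (by omega))
  by_cases c1 : h < m - b
  · right
    obtain ⟨m', p', a1, a2, a3, a4, a5⟩ := hblk
    obtain ⟨n1, a6, a7⟩ := hP.p3 a1 (by omega) (by omega) (sqb (by omega) m2 (by omega))
      (mem_Ioc.mpr ⟨by omega, a4.le⟩) a3
    rcases rel (h' := m - m') h0 a6 (show m' + (m - m') = w * p by omega) a3 a7 vw with e | e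
    · obtain ⟨e1, rfl⟩ := hr v _ v0 vw (by omega) (by omega) e
      by_cases c2 : a - c ≤ 21 * (m - b)
      · exact ⟨m, mem_union_left _ (odd_dense (by omega) hP m2 (by omega) h0
          (by rw [hm, e1]; ring) (by omega) H1 c2), by omega, hm ▸ dvd_mul_left _ _⟩
      · refine ⟨p * v, mem_union_left _ (gam_dense (by omega) hP m2 (by omega) p1 h0
          (dvd_mul_right _ _) (by omega) H2 (by omega) (hR.trans ?_)), by omega, dvd_mul_right _ _⟩
        have b1 : 3 * s * (21 * (m - b)) ≤ 3 * s * (a - c - 1) := Nat.mul_le_mul_left _ (by omega)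
        have b2 : (m - b - 1) * (60 * s) ≤ (m - b) * (60 * s) := Nat.mul_le_mul_right _ (by omega)
        have b3 : s ≤ (m - b) * s := Nat.le_mul_of_pos_left _ (by omega)
        have b4 : 3 * s * (21 * (m - b)) = 63 * ((m - b) * s) := by ring
        have b5 : (m - b) * (60 * s) = 60 * ((m - b) * s) := by ring
        exact_mod_cast (show t + (m - b - 1) * (60 * s) ≤ 3 * s * (a - c - 1) by omega)
    · have b1 : w * (a - c) ≤ 2 ^ (38 * s) := mul_p2 hw H2.le (by omega)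
      have b2 : w * (m - m') ≤ 2 ^ (36 * s) := mul_p2 hw (show m - m' ≤ 2 ^ t by omega) (by omega)
      omega
  by_cases c2 : m - b = 1
  · by_cases c3 : a - c = 1
    · refine absurd (fun q hq => ?_) (hβ v v0 vw)
      have := hP q hq
      rw [Ioc_one c2 (mem_Ioc.mpr ⟨hbm, le_rfl⟩), Ioc_one c3 h0,
        sum_singleton, sum_singleton, hm, Nat.factorization_mul (by omega) hp.ne_zero,
        Nat.factorization_mul hp.ne_zero v0.ne'] at this
      simp only [Finsupp.add_apply] at this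
      rw [Nat.even_iff] at this ⊢
      omega
    · refine Or.inr (gam (by omega) ?_)
      rw [c2]
      simpa using Nat.le_mul_of_pos_right t (show 0 < a - c - 1 by omega)
  by_cases c4 : a - c ≤ 2 ^ t
  · left
    have hd2 := d_small hc w2 hN2 ht hP m2 (by omega) (show m - b ≤ 2 ^ t by omega) c4
    have y1 := p2 (show t ≤ t + t by omega)
    have y2 : 2 * 2 ^ (t + t) ≤ 2 ^ (3 * t) := mul_p2 (a := 1) le_rfl le_rfl (by omega)
    refine mem_filter.mpr ⟨mem_Ioc.mpr ⟨by omega, by omega⟩, by omega, fun q hq => ?_⟩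
    obtain ⟨a1, a2, a3⟩ := mem_od hq
    by_contra e
    obtain ⟨n1, a6, a7⟩ := hP.p2 a1 (by omega) (by omega) (mem_Ioc.mpr ⟨by omega, by omega⟩) a3
    rcases rel (h' := 1) h0 a6 (show m - 1 + 1 = w * p by omega) a2 a7 vw with e1 | e1
    · have := Nat.le_of_dvd (by omega) e1; omega
    · have : w * (a - c) ≤ 2 ^ (t + t) := mul_p2 hw c4 le_rfl
      omega
  · refine Or.inr (gam (by have := Nat.one_le_two_pow (n := t); omega) ?_)
    have b1 : (m - b - 1) * (60 * s) ≤ h * (60 * s) := Nat.mul_le_mul_right _ (by omega)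
    have b2 : a - c - 1 ≤ t * (a - c - 1) := Nat.le_mul_of_pos_left _ t1
    omega

lemma beta0 {w v : ℕ} (hw : Squarefree w) (v0 : 0 < v) (vw : v < w) : ¬ ParB w v 0 := by
  intro h
  have : w ∣ v := by
    rw [← Nat.prod_primeFactors_of_squarefree hw]
    refine Finset.prod_primes_dvd v (fun q hq => (prime_of_mem_primeFactors hq).prime) fun q hq => ?_
    have qp := prime_of_mem_primeFactors hq
    have := h q qp
    rw [Nat.factorization_eq_one_of_squarefree hw qp (dvd_of_mem_primeFactors hq)] at this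
    apply dvd_of_odd
    simp only [factorial_zero, factorization_one, Finsupp.coe_zero, Pi.zero_apply, add_zero] at this
    rw [Nat.even_iff] at this; rw [Nat.odd_iff]; omega
  exact absurd (Nat.le_of_dvd v0 this) (by omega)

lemma beta {c2 : ℝ} {N2 h w v d : ℕ} (w2 : W2 c2 N2) (hN : N2 ≤ h) (hw : Squarefree w)
    (hr : ∀ q ∈ w.primeFactors, h < q) (hG : ∑ q ∈ w.primeFactors, Real.log q / q ≤ c2 / 2)
    (v0 : 0 < v) (vw : v < w) : ¬ ParB w v d := by
  intro hP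
  have l0 := fun q : ℕ => Real.log_natCast_nonneg q
  set O := od (d !) with hO
  set U := w.primeFactors with hU
  have h1 := mass_le_log (Q := (O \ U) ∪ (U \ O)) v0.ne' (fun q hq => by
    rcases mem_union.mp hq with e | e
    · obtain ⟨a1, a2⟩ := mem_sdiff.mp e
      obtain ⟨a3, -, a4⟩ := mem_od a1
      have := hP q a3
      rw [factorization_eq_zero_of_not_dvd (n := w) (fun e => a2 (Nat.mem_primeFactors.mpr
        ⟨a3, e, hw.ne_zero⟩))] at this
      refine ⟨a3, dvd_of_odd ?_⟩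
      rw [Nat.even_iff] at this; rw [Nat.odd_iff] at a4 ⊢; omega
    · obtain ⟨a1, a2⟩ := mem_sdiff.mp e
      have a3 := prime_of_mem_primeFactors a1
      have := hP q a3
      rw [Nat.factorization_eq_one_of_squarefree hw a3 (dvd_of_mem_primeFactors a1)] at this
      have a4 : ¬ Odd ((d !).factorization q) := fun e => a2 (mem_filter.mpr
        ⟨Nat.mem_primeFactors.mpr ⟨a3, dvd_of_odd e, factorial_ne_zero _⟩, e⟩)
      refine ⟨a3, dvd_of_odd ?_⟩
      rw [Nat.even_iff] at this; rw [Nat.odd_iff] at a4 ⊢; omega)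
  have h2 : Real.log v < Real.log w := Real.log_lt_log (by exact_mod_cast v0) (by exact_mod_cast vw)
  have h3 : Real.log w = ∑ q ∈ U, Real.log q := by
    conv_lhs => rw [← Nat.prod_primeFactors_of_squarefree hw]
    rw [cast_prod, Real.log_prod (fun q hq => by
      exact_mod_cast (prime_of_mem_primeFactors hq).ne_zero)]
  rw [sum_union disjoint_sdiff_sdiff] at h1
  have h4 := sum_sdiff (f := fun q : ℕ => Real.log q) (inter_subset_left (s₁ := U) (s₂ := O))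
  have h5 := sum_sdiff (f := fun q : ℕ => Real.log q) (inter_subset_right (s₁ := U) (s₂ := O))
  rw [sdiff_inter_self_left] at h4
  rw [sdiff_inter_self_right] at h5
  have h6 : ∀ q ∈ U ∩ O, h < q ∧ q ≤ d := fun q hq => ⟨hr q (mem_inter.mp hq).1,
    (mem_od (mem_inter.mp hq).2).1.dvd_factorial.mp (mem_od (mem_inter.mp hq).2).2.1⟩
  by_cases hd : d ≤ h
  · rw [eq_empty_of_forall_notMem (s := U ∩ O) (fun q hq => by have := h6 q hq; omega),
      sum_empty] at h4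
    have := sum_nonneg (s := O \ U) (fun q _ => l0 q)
    linarith
  obtain ⟨Q, q1, q2⟩ := w2 d (by omega)
  have h7 := sum_le_sum_of_subset_of_nonneg (f := fun q : ℕ => Real.log q) (show Q ⊆ O from
    fun q hq => by
      obtain ⟨a1, a2, a3⟩ := q2 q hq
      exact mem_filter.mpr ⟨Nat.mem_primeFactors.mpr ⟨a1, a1.dvd_factorial.mpr a2,
        factorial_ne_zero _⟩, by rw [fac_one a1 a2 a3]; exact odd_one⟩) (fun q _ _ => l0 q)
  have h8 : ∑ q ∈ U ∩ O, Real.log q ≤ d * (c2 / 2) := by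
    refine le_trans ?_ (mul_le_mul_of_nonneg_left hG (by positivity))
    rw [mul_sum]
    refine le_trans (sum_le_sum fun q hq => ?_) (sum_le_sum_of_subset_of_nonneg inter_subset_left
      (fun q _ _ => by have := l0 q; positivity))
    have a1 : (0 : ℝ) < q := by exact_mod_cast (show 0 < q by have := h6 q hq; omega)
    have a2 : (q : ℝ) ≤ d := by exact_mod_cast (h6 q hq).2
    rw [← mul_div_assoc, le_div_iff₀ a1, mul_comm]
    exact mul_le_mul_of_nonneg_right a2 (l0 q)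
  linarith

end Pool.Agent.H.MP_636046_nt
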