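import Pool.Agent.H.MP_636046_nt.D

set_option autoImplicit false

namespace Pool.Agent.H.MP_636046_nt
open Finset Pool.Agent.H.MP_3aed06_nt Pool.Agent.H.MP_559555_nt Nat

/-- rough squarefree numbers -/
def Vs (τ h : ℕ) : Finset ℕ :=
  (Ioc 0 (2 ^ τ)).filter (fun u => Squarefree u ∧ ∀ q ∈ u.primeFactors, h < q)

/-- the good cofactors -/
noncomputable def Us (τ h : ℕ) (c : ℝ) : Finset ℕ :=
  (Vs τ h).filter (fun u => 2 ≤ u ∧ ∑ q ∈ u.primeFactors, Real.log q / q ≤ c / 2)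

lemma Vsum : ∃ C : ℝ, 1 ≤ C ∧ ∀ g τ : ℕ, 1 ≤ g →
    (τ + 1 : ℝ) / (4 * C * g) ≤ ∑ u ∈ Vs τ (g ^ 8), 1 / (u : ℝ) := by
  obtain ⟨C, hC, h⟩ := pointwise 8
  refine ⟨3 * C + 1, by linarith, fun g τ hg => ?_⟩
  have g1 : (1 : ℝ) ≤ g := by exact_mod_cast hg
  have h1 := (H_ge τ).trans (H_le _)
  have h2 := split (Pw (2 ^ τ)) (Pw (g ^ 8)) (fun l hl => (mem_filter.mp hl).2.pos) (2 ^ τ)
  have h3 : ∏ l ∈ Pw (g ^ 8), (1 + 1 / (l : ℝ)) ≤ (3 * C + 1) * g := by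
    apply le_of_pow_le_pow_left₀ (n := 8) (by norm_num) (by positivity)
    refine (h (Pw (g ^ 8)) (fun l hl => (mem_filter.mp hl).2)).trans ?_
    have a1 := sum_le_card_nsmul (Pw (g ^ 8)) (fun l : ℕ => 1 / Real.sqrt l) 1 (fun l hl => by
      have : (1 : ℝ) ≤ l := by exact_mod_cast (mem_filter.mp hl).2.pos
      exact (div_le_one (by positivity)).mpr (Real.one_le_sqrt.mpr this))
    have a2 : ((Pw (g ^ 8)).card : ℝ) ≤ g ^ 8 + 1 := by
      exact_mod_cast (card_filter_le _ _).trans (card_range _).le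
    have a3 : (1 : ℝ) ≤ g ^ 8 := one_le_pow₀ g1
    have a4 : 3 * C + 1 ≤ (3 * C + 1) ^ 8 := le_self_pow₀ (by linarith) (by norm_num)
    rw [nsmul_eq_mul, mul_one] at a1
    rw [mul_pow]
    calc _ ≤ C * (3 * g ^ 8) := mul_le_mul_of_nonneg_left (by linarith) hC.le
      _ ≤ (3 * C + 1) * g ^ 8 := by nlinarith
      _ ≤ _ := by gcongr
  have hp : ∀ A ∈ Qs (Pw (2 ^ τ) \ Pw (g ^ 8)) (2 ^ τ), ∀ l ∈ A, l.Prime ∧ g ^ 8 < l :=
    fun A hA l hl => by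
      obtain ⟨a1, a2⟩ := mem_sdiff.mp (mem_powerset.mp (mem_filter.mp hA).1 hl)
      have a3 := (mem_filter.mp a1).2
      refine ⟨a3, ?_⟩
      by_contra e
      exact a2 (mem_filter.mpr ⟨mem_range.mpr (by omega), a3⟩)
  have hf := fun A hA => Nat.primeFactors_prod (s := A) (fun l hl => (hp A hA l hl).1)
  have h4 := inj_sum (Qs (Pw (2 ^ τ) \ Pw (g ^ 8)) (2 ^ τ)) (Vs τ (g ^ 8)) (fun A => ∏ l ∈ A, l)
    (fun A hA => mem_filter.mpr ⟨mem_Ioc.mpr ⟨prod_pos fun l hl => (hp A hA l hl).1.pos,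
      (mem_filter.mp hA).2⟩, Finset.squarefree_prod_of_pairwise_isCoprime
        (fun a ha b hb e => Nat.coprime_iff_isRelPrime.mp
          ((Nat.coprime_primes (hp A hA a ha).1 (hp A hA b hb).1).mpr e))
        (fun l hl => (hp A hA l hl).1.squarefree), fun q hq => (hp A hA q (hf A hA ▸ hq)).2⟩)
    (fun A hA B hB e => by rw [← hf A hA, ← hf B hB]; exact congrArg _ e) r (fun u => 1 / (u : ℝ))
    (fun _ => by positivity) (fun A _ => by simp [r])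
  have h5 : 0 ≤ ∑ u ∈ Vs τ (g ^ 8), 1 / (u : ℝ) := sum_nonneg fun _ _ => by positivity
  have h6 := h2.trans (mul_le_mul h4 h3 (prod_nonneg fun _ _ => by positivity) h5)
  rw [div_le_iff₀ (by positivity)]
  linarith

lemma lq {g q : ℕ} (hg : 1 ≤ g) (h : g ^ 8 < q) :
    Real.log q / q ≤ 4 / g ^ 2 * (1 / Real.sqrt q) := by
  have g1 : (1 : ℝ) ≤ g := by exact_mod_cast hg
  have h1 : (g : ℝ) ^ 8 ≤ q := by exact_mod_cast h.le
  obtain ⟨ρ, h0, h2, h3⟩ : ∃ ρ : ℝ, 0 ≤ ρ ∧ Real.sqrt q = ρ ^ 2 ∧ q = ρ ^ 4 :=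
    ⟨Real.sqrt (Real.sqrt q), by positivity, (Real.sq_sqrt (by positivity)).symm, by
      rw [show 4 = 2 * 2 by norm_num, pow_mul, Real.sq_sqrt (by positivity),
        Real.sq_sqrt (by positivity)]⟩
  have h4 : (g : ℝ) ^ 2 ≤ ρ :=
    le_of_pow_le_pow_left₀ (n := 4) (by norm_num) h0 (by rw [← pow_mul, ← h3]; exact h1)
  have h5 : 0 < ρ := lt_of_lt_of_le (by positivity) h4
  have h6 := Real.log_le_sub_one_of_pos h5
  rw [h2, h3, Real.log_pow, _root_.div_mul_div_comm, div_le_div_iff₀ (by positivity) (by positivity)]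
  push_cast
  calc _ ≤ 4 * ρ * (ρ * ρ ^ 2) := by gcongr; linarith
    _ = _ := by ring

lemma Usum {c : ℝ} (hc : 0 < c) : ∃ C : ℝ, 1 ≤ C ∧ ∃ g0 : ℕ, ∀ g τ : ℕ, g0 ≤ g → 16 * C * g ≤ τ + 1 →
    (τ + 1 : ℝ) / (8 * C * g) ≤ ∑ u ∈ Us τ (g ^ 8) c, 1 / (u : ℝ) := by
  obtain ⟨C, hC, h⟩ := Vsum
  obtain ⟨D, hD, h'⟩ := sum32
  refine ⟨C, hC, ⌈128 * C * D / c⌉₊ + 1, fun g τ hg hτ => ?_⟩
  have g1 : (1 : ℝ) ≤ g := by exact_mod_cast (show 1 ≤ g by omega)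
  have g2 : 128 * C * D / c ≤ g := (Nat.le_ceil _).trans (by exact_mod_cast (show _ ≤ g by omega))
  have h1 := h g τ (by omega)
  have l0 : ∀ q : ℕ, 0 ≤ Real.log q / q := fun q => by
    have := Real.log_natCast_nonneg q; positivity
  have h2 : ∑ u ∈ Vs τ (g ^ 8), ∑ q ∈ u.primeFactors, Real.log q / q * (1 / u) ≤
      (1 + τ) * (4 / g ^ 2) * D := by
    rw [sum_comm' (t' := (Ioc (g ^ 8) (2 ^ τ)).filter Nat.Prime)
      (s' := fun q => (Vs τ (g ^ 8)).filter (fun u => q ∣ u)) (fun u q => by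
        constructor
        · rintro ⟨a1, a2⟩
          obtain ⟨a3, -, a4⟩ := mem_filter.mp a1
          rw [mem_Ioc] at a3
          have a5 := dvd_of_mem_primeFactors a2
          exact ⟨mem_filter.mpr ⟨a1, a5⟩, mem_filter.mpr ⟨mem_Ioc.mpr ⟨a4 q a2,
            (Nat.le_of_dvd a3.1 a5).trans a3.2⟩, prime_of_mem_primeFactors a2⟩⟩
        · rintro ⟨a1, a2⟩
          obtain ⟨a3, a4⟩ := mem_filter.mp a1
          exact ⟨a3, Nat.mem_primeFactors.mpr ⟨(mem_filter.mp a2).2, a4,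
            (mem_filter.mp a3).2.1.ne_zero⟩⟩)]
    refine le_trans ?_ (mul_le_mul_of_nonneg_left (h' ((Ioc (g ^ 8) (2 ^ τ)).filter Nat.Prime))
      (by positivity))
    rw [mul_sum]
    refine sum_le_sum fun q hq => ?_
    rw [← mul_sum]
    refine (mul_le_mul (lq (by omega) (mem_Ioc.mp (mem_filter.mp hq).1).1) (harm_dvd _ τ q
      fun u hu => ?_) (sum_nonneg fun _ _ => by positivity) (by positivity)).trans (le_of_eq (by ring))
    obtain ⟨a1, a2⟩ := mem_filter.mp hu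
    have := mem_Ioc.mp (mem_filter.mp a1).1
    exact ⟨this.1, this.2, a2⟩
  have h3 : ∀ u ∈ Vs τ (g ^ 8), 1 / (u : ℝ) ≤
      (if 2 ≤ u ∧ ∑ q ∈ u.primeFactors, Real.log q / q ≤ c / 2 then 1 / (u : ℝ) else 0) +
      ((if u = 1 then 1 else 0) + 2 / c * ∑ q ∈ u.primeFactors, Real.log q / q * (1 / u)) := by
    intro u hu
    have a1 := (mem_Ioc.mp (mem_filter.mp hu).1).1
    have a2 := sum_nonneg (s := u.primeFactors) (fun q _ => l0 q)
    rw [← sum_mul]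
    generalize ∑ q ∈ u.primeFactors, Real.log q / q = G at a2
    have a3 : 0 ≤ 2 / c * (G * (1 / u)) := by positivity
    split_ifs with b1 b2 b3
    · linarith
    · linarith
    · subst b3; simp only [Nat.cast_one] at a3 ⊢; linarith
    · have b4 : c / 2 ≤ G := by
        by_contra e
        exact b1 ⟨by omega, by linarith⟩
      have b5 : 1 ≤ 2 / c * G := by rw [div_mul_eq_mul_div, le_div_iff₀ hc]; linarith
      rw [← mul_assoc]
      have := mul_le_mul_of_nonneg_right b5 (show (0 : ℝ) ≤ 1 / u by positivity)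
      linarith
  have h4 := sum_le_sum h3
  rw [sum_add_distrib, sum_add_distrib, ← sum_filter, ← mul_sum, sum_ite_eq'] at h4
  have h5 : (if 1 ∈ Vs τ (g ^ 8) then (1 : ℝ) else 0) ≤ (τ + 1) / (16 * C * g) := by
    rw [le_div_iff₀ (by positivity)]
    split_ifs
    · linarith
    · rw [zero_mul]; positivity
  have h6 : 2 / c * ((1 + τ) * (4 / g ^ 2) * D) ≤ (τ + 1) / (16 * C * g) := by
    rw [le_div_iff₀ (by positivity)]
    calc _ = (τ + 1) * (128 * C * D / c / g) := by field_simp; ring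
      _ ≤ (τ + 1) * 1 := by gcongr; exact (div_le_one (by positivity)).mpr g2
      _ = _ := mul_one _
  have h7 := mul_le_mul_of_nonneg_left h2 (show 0 ≤ 2 / c by positivity)
  have e1 : (τ + 1 : ℝ) / (4 * C * g) = 4 * ((τ + 1) / (16 * C * g)) := by field_simp; ring
  have e2 : (τ + 1 : ℝ) / (8 * C * g) = 2 * ((τ + 1) / (16 * C * g)) := by field_simp; ring
  unfold Us
  linarith

/-- the candidates -/
def M0 (x : ℕ) (W : Finset ℕ) : Finset ℕ := W.biUnion fun w =>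
  ((Ioc (x / (4 * w)) (4 * (x / (4 * w)))).filter Nat.Prime).image (fun p => w * p)

lemma mem_pr {s t w p : ℕ} (w0 : 0 < w) (hw : w ≤ 2 ^ t) (ht : t + 2 ≤ 2 * s)
    (h : p ∈ (Ioc (2 ^ (60 * s) / (4 * w)) (4 * (2 ^ (60 * s) / (4 * w)))).filter Nat.Prime) :
    p.Prime ∧ 2 ^ (58 * s) ≤ p ∧ 2 ^ (60 * s) < 4 * (w * p) ∧ w * p ≤ 2 ^ (60 * s) ∧ w < p := by
  obtain ⟨h1, h2⟩ := mem_filter.mp h
  rw [mem_Ioc] at h1
  have h3 : 2 ^ (58 * s) ≤ 2 ^ (60 * s) / (4 * w) := (Nat.le_div_iff_mul_le (by omega)).mpr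
    (mul_p2 le_rfl (mul_p2 (a := 2) le_rfl hw le_rfl) (by omega))
  have h4 := (Nat.div_lt_iff_lt_mul (by omega)).mp h1.1
  have h5 := Nat.mul_div_le (2 ^ (60 * s)) (4 * w)
  have h6 := Nat.mul_le_mul_left w h1.2
  have h7 := p2 (show t ≤ 58 * s by omega)
  refine ⟨h2, by omega, by linarith, by linarith, by omega⟩

lemma big_uniq {w' p p' : ℕ} (hp : p.Prime) (hp' : p'.Prime) (w0 : 0 < w') (h : w' < p)
    (e : p ∣ w' * p') : p = p' :=
  (Nat.prime_dvd_prime_iff_eq hp hp').mp (((Nat.Prime.dvd_mul hp).mp e).resolve_left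
    (fun e => absurd (Nat.le_of_dvd w0 e) (by omega)))

lemma card_M0 : ∃ y0 : ℕ, ∀ s t : ℕ, ∀ W : Finset ℕ, y0 ≤ s → t + 2 ≤ 2 * s →
    (∀ w ∈ W, 0 < w ∧ w ≤ 2 ^ t) →
    2 ^ (60 * s) / (480 * s) * ∑ w ∈ W, 1 / (w : ℝ) ≤ (M0 (2 ^ (60 * s)) W).card := by
  obtain ⟨y0, h⟩ := cheb
  refine ⟨y0, fun s t W hs ht hW => ?_⟩
  have x1 := p2 (show t ≤ 57 * s by omega)
  have x2 : 2 ^ (57 * s) < 2 ^ (58 * s) := Nat.pow_lt_pow_right (by norm_num) (by omega)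
  rw [M0, card_biUnion (fun w hw w' hw' hne => disjoint_left.mpr fun m h1 h2 => by
    obtain ⟨p, a1, rfl⟩ := mem_image.mp h1
    obtain ⟨p', a2, e⟩ := mem_image.mp h2
    have b1 := mem_pr (hW w hw).1 (hW w hw).2 ht a1
    have b2 := mem_pr (hW w' hw').1 (hW w' hw').2 ht a2
    have b3 := (hW w' hw').2
    have := big_uniq b1.1 b2.1 (hW w' hw').1 (by omega) (e ▸ dvd_mul_left _ _)
    subst this
    exact hne (Nat.eq_of_mul_eq_mul_right b1.1.pos e).symm), mul_sum, cast_sum]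
  refine sum_le_sum fun w hw => ?_
  obtain ⟨w0, w1⟩ := hW w hw
  rw [card_image_of_injective _ (fun a b e => Nat.eq_of_mul_eq_mul_left w0 e)]
  have h3 : 2 ^ (58 * s) ≤ 2 ^ (60 * s) / (4 * w) := (Nat.le_div_iff_mul_le (by omega)).mpr
    (mul_p2 le_rfl (mul_p2 (a := 2) le_rfl w1 le_rfl) (by omega))
  have h4 := Nat.lt_div_mul_add (a := 2 ^ (60 * s)) (show 0 < 4 * w by omega)
  have h5 := Nat.mul_div_le (2 ^ (60 * s)) (4 * w)
  have h6 := le_p2 (58 * s)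
  generalize 2 ^ (60 * s) / (4 * w) = y at *
  have h7 := h y (by omega)
  have h8 := log_le_pow (n := 4 * y) (u := 60 * s) (le_trans (by nlinarith) h5)
  have h9 : (2 : ℝ) ^ (60 * s) ≤ 8 * w * y := by
    exact_mod_cast (show 2 ^ (60 * s) ≤ 8 * w * y by nlinarith)
  have s0 : (0 : ℝ) < s := by exact_mod_cast (show 0 < s by omega)
  have w2 : (0 : ℝ) < w := by exact_mod_cast w0
  push_cast at h8
  rw [_root_.div_mul_div_comm, div_le_iff₀ (by positivity)]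
  have := h7.trans (mul_le_mul_of_nonneg_left h8 (by positivity))
  nlinarith

lemma Exc_le {Q : ℕ → Finset ℕ} {c : ℝ} {s n : ℕ} (h : n ∈ Exc Q c s) : n ≤ 2 ^ (60 * s) := by
  rcases mem_union.mp h with h | h <;> obtain ⟨i, -, h⟩ := mem_biUnion.mp h <;>
    exact Nat.lt_succ_iff.mp (mem_range.mp (mem_filter.mp h).1)

lemma card_Exc {c : ℝ} {Q : ℕ → Finset ℕ} {N4 B t s : ℕ} (hc : 0 < c) (hB : 2521 ≤ c * B)
    (hs : s = B * t) (hs' : 480 ≤ s) (ht : 268801 ≤ c * t) (ht' : 5600 * s ≤ c * 2 ^ t) (hB1 : 1 ≤ B)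
    (hN : 24 * N4 ≤ s) (hQ : ∀ y, N4 ≤ y → 4 * (c * y) ≤ ∑ q ∈ Q y, Real.log q)
    (hQ' : ∀ y, N4 ≤ y → ∀ q ∈ Q y, q.Prime ∧ 3 * y < q ∧ q ≤ 4 * y) :
    ((Exc Q c s).card : ℝ) ≤ 1480 * s * 2 ^ (59 * s) + 640 * s * (2 ^ (60 * s) / 2 ^ (5 * t)) := by
  have s1 : (480 : ℝ) ≤ s := by exact_mod_cast hs'
  have h1 : ((Exc Q c s).card : ℝ) ≤ (Dense s).card + ∑ y ∈ Ys s,
      ((Bad (Q y) (c * y) (2 ^ (60 * s)) (48 * y / s)).card : ℝ) := by
    exact_mod_cast (card_union_le _ _).trans (Nat.add_le_add_left card_biUnion_le _)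
  have h2 := sum_le_card_nsmul (Ys s) (fun y => ((Bad (Q y) (c * y) (2 ^ (60 * s))
      (48 * y / s)).card : ℝ)) (8 * (2 ^ (60 * s) / 2 ^ (5 * t))) (fun y hy => by
    obtain ⟨-, a1, a2⟩ := mem_filter.mp hy
    have := card_Bad hc hB hs hs' ht ht' hB1 a1 a2 (Q y) (hQ y (by omega)) (fun q hq => by
      have := hQ' y (by omega) q hq
      exact ⟨this.1, by omega, this.2.2⟩)
    rw [← mul_div_assoc, le_div_iff₀ (by positivity)]
    exact_mod_cast this)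
  have h3 : ((Ys s).card : ℝ) ≤ 80 * s := by
    have := (card_filter_le _ (fun y => s ≤ 24 * y ∧ y ≤ 2 ^ (38 * s))).trans ((card_union_le _ _).trans
      (Nat.add_le_add (card_image_le (s := range (38 * s + 1)) (f := fun i => 2 ^ i))
      (card_image_le (s := range (38 * s + 1)) (f := fun i => 3 * 2 ^ i))))
    rw [card_range] at this
    exact_mod_cast this.trans (by omega)
  rw [nsmul_eq_mul] at h2
  have h4 := mul_le_mul_of_nonneg_right h3 (show (0 : ℝ) ≤ 8 * (2 ^ (60 * s) / 2 ^ (5 * t)) by positivity)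
  have h5 := mul_le_mul_of_nonneg_right (show (36 * s + 1 : ℝ) ≤ 37 * s by linarith)
    (show (0 : ℝ) ≤ 40 * 2 ^ (59 * s) by positivity)
  linarith [card_Dense s]

lemma count (s t h : ℕ) (W E : Finset ℕ) (hh : 0 < h) (ht : t + 2 ≤ 2 * s) (hs : 13 ≤ s)
    (hW : ∀ w ∈ W, 0 < w ∧ w ≤ 2 ^ t) (hE : ∀ n ∈ E, n ≤ 2 ^ (60 * s)) :
    ∃ M : Finset ℕ, (M0 (2 ^ (60 * s)) W).card ≤
      M.card + (2 ^ (60 * s) / h + 1) + (Sm s t).card + E.card * 2 ^ t ∧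
      ∀ m ∈ M, ∃ w ∈ W, ∃ p, p.Prime ∧ m = w * p ∧ 2 ^ (58 * s) ≤ p ∧ 2 ^ (60 * s) < 4 * m ∧
        m ≤ 2 ^ (60 * s) ∧ Blk s h m ∧ m - 1 ∉ Sm s t ∧ ¬ Hit E p := by
  classical
  set A := M0 (2 ^ (60 * s)) W
  have hA : ∀ m ∈ A, ∃ w ∈ W, ∃ p, p.Prime ∧ m = w * p ∧ 2 ^ (58 * s) ≤ p ∧ 2 ^ (60 * s) < 4 * m ∧
      m ≤ 2 ^ (60 * s) := fun m hm => by
    obtain ⟨w, hw, h⟩ := mem_biUnion.mp hm
    obtain ⟨p, a1, rfl⟩ := mem_image.mp h
    have := mem_pr (hW w hw).1 (hW w hw).2 ht a1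
    exact ⟨w, hw, p, this.1, rfl, this.2.1, this.2.2.1, this.2.2.2.1⟩
  set A3 := (E ×ˢ Ioc 0 (2 ^ t)).image (fun z => z.2 * z.1.primeFactors.sup id)
  have h1 := sep_card (A.filter (fun m => ¬ Blk s h m)) (2 ^ (60 * s)) h 0 hh (fun m hm => by
    obtain ⟨w, -, p, -, -, -, -, h⟩ := hA m (mem_filter.mp hm).1
    exact h) (fun n hn n' hn' e1 e2 => by
    obtain ⟨w, -, p, a1, a2, a3, -⟩ := hA n (mem_filter.mp hn).1
    exact absurd ⟨n, p, a1, a3, a2 ▸ dvd_mul_left _ _, e1, e2⟩ (mem_filter.mp hn').2)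
  have h2 : (A.filter (fun m => m - 1 ∈ Sm s t)).card ≤ (Sm s t).card :=
    card_le_card_of_injOn (fun m => m - 1) (fun m hm => (mem_filter.mp hm).2) (fun m hm n hn e => by
      obtain ⟨w, -, p, -, -, -, a1, -⟩ := hA m (mem_filter.mp hm).1
      obtain ⟨w, -, p, -, -, -, a2, -⟩ := hA n (mem_filter.mp hn).1
      have := Nat.one_le_two_pow (n := 60 * s)
      dsimp only at e
      omega)
  have h3 : A3.card ≤ E.card * 2 ^ t := card_image_le.trans (by simp)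
  refine ⟨A.filter (fun m => Blk s h m ∧ m - 1 ∉ Sm s t ∧ m ∉ A3), ?_, fun m hm => ?_⟩
  · have : A ⊆ A.filter (fun m => Blk s h m ∧ m - 1 ∉ Sm s t ∧ m ∉ A3) ∪
        A.filter (fun m => ¬ Blk s h m) ∪ A.filter (fun m => m - 1 ∈ Sm s t) ∪ A3 := fun m hm => by
      simp only [mem_union, mem_filter]
      tauto
    have := (card_le_card this).trans ((card_union_le _ _).trans (Nat.add_le_add_right
      ((card_union_le _ _).trans (Nat.add_le_add_right (card_union_le _ _) _)) _))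
    omega
  obtain ⟨a0, a1, a2, a3⟩ := mem_filter.mp hm
  obtain ⟨w, b1, p, b2, b3, b4, b5, b6⟩ := hA m a0
  refine ⟨w, b1, p, b2, b3, b4, b5, b6, a1, a2, fun ⟨n, c1, c2, c3⟩ => a3 (mem_image.mpr
    ⟨(n, w), mem_product.mpr ⟨c1, mem_Ioc.mpr (hW w b1)⟩, ?_⟩)⟩
  rw [b3]
  congr 1
  refine le_antisymm (Finset.sup_le fun q hq => ?_)
    (le_sup (f := id) (Nat.mem_primeFactors.mpr ⟨b2, c3, c2.ne'⟩))
  by_contra e
  have e' : p < q := not_le.mp e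
  have d1 := Nat.le_of_dvd c2 (Nat.Coprime.mul_dvd_of_dvd_of_dvd ((Nat.coprime_primes b2
    (prime_of_mem_primeFactors hq)).mpr e'.ne) c3 (dvd_of_mem_primeFactors hq))
  have d2 := sqb (s := s) (m := n) (q := p) hs (hE n c1) ((p2 (by omega)).trans b4)
  nlinarith

/-- the final property -/
def Good (e m : ℕ) : Prop := ∃ u p, 2 ≤ u ∧ u + 1 < p ∧ m = e * u * p ∧
  (∀ b d, d ≤ b → b < m → ¬ Par m b d d d) ∧
  (e = 1 → ∀ b a c d, d ≤ c → c ≤ a → a ≤ b → b < m → ¬ Par m b a c d) ∧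
  (e = 2 → ∀ b a c, c ≤ a → a ≤ b → b < m → ¬ Par m b a c 0)

lemma cop {u h h' : ℕ} (u0 : u ≠ 0) (hr : ∀ q ∈ u.primeFactors, h < q) (h0 : 0 < h') (h1 : h' ≤ h) :
    u.Coprime h' := Nat.coprime_of_dvd fun q hq a1 a2 =>
  absurd (Nat.le_of_dvd h0 a2) (by have := hr q (Nat.mem_primeFactors.mpr ⟨hq, a1, u0⟩); omega)

lemma good {c2 c4 : ℝ} {Q : ℕ → Finset ℕ} {N2 N4 B τ t s h m e u p : ℕ} (hc : 0 < c2)
    (w2 : W2 c2 N2) (hQ : ∀ y, N4 ≤ y → ∀ q ∈ Q y, q.Prime ∧ 3 * y < q ∧ q ≤ 4 * y)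
    (hs : s = B * t) (hs' : 480 ≤ s) (hB : 48 ≤ c4 * B) (hN : 24 * N4 ≤ s) (hN2 : N2 ≤ h)
    (ht : 120 * s ≤ c2 * 2 ^ t) (hh : t + h * (60 * s) ≤ 2 ^ t) (h20 : 20 ≤ h) (ts : t ≤ s)
    (hm : m = e * u * p) (hp : p.Prime) (p1 : 2 ^ (58 * s) ≤ p) (hw : e * u ≤ 2 ^ t) (e0 : 0 < e)
    (m2 : m ≤ 2 ^ (60 * s)) (hu : u ∈ Us τ h c2) (hblk : Blk s h m) (hS : m - 1 ∉ Sm s t)
    (hH : ¬ Hit (Exc Q c4 s) p)
    (hl : ∀ b a c d : ℕ, d ≤ c → c ≤ a → a ≤ b → b < m →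
      (2 ^ (36 * s) ≤ m - b ∨ 2 ^ (36 * s) ≤ a - c) → ¬ Par m b a c d) : Good e m := by
  obtain ⟨u1, u2, u3⟩ := mem_filter.mp hu
  obtain ⟨-, u4, u5⟩ := mem_filter.mp u1
  have x1 := p57 (show 1 ≤ s by omega)
  have x2 := p2 (show 36 * s + t ≤ 57 * s by omega)
  have x3 := p2 (show t + 1 ≤ 57 * s by omega)
  have x4 := p2 (show 34 * s ≤ 57 * s by omega)
  have x5 := Nat.one_le_two_pow (n := 36 * s)
  have x6 : u ≤ e * u := Nat.le_mul_of_pos_left _ e0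
  have x7 : h ≤ h * (60 * s) := Nat.le_mul_of_pos_right _ (by omega)
  have x8 := Nat.one_le_two_pow (n := t)
  rw [pow_succ] at x3
  have key : ∀ b a c d : ℕ, d ≤ c → c ≤ a → a ≤ b → b < m → (∀ v, 0 < v → v < e * u → ¬ ParB (e * u) v d) →
      (∀ v h', 0 < v → v < e * u → 0 < h' → h' ≤ h → e * u ∣ v * h' → e * u = 2 * v ∧ d = 0) →
      ¬ Par m b a c d := fun b a c d a1 a2 a3 a4 a5 a6 hP => by
    by_cases l : 2 ^ (36 * s) ≤ m - b ∨ 2 ^ (36 * s) ≤ a - c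
    · exact hl b a c d a1 a2 a3 a4 l hP
    rw [not_or, not_le, not_le] at l
    exact (short hc w2 hQ hs hs' hB hN (by omega) ht hh h20 ts hm hp p1 hw m2 a2 a3 a4 l.1 l.2 hP
      hblk a5 a6).elim hS hH
  refine ⟨u, p, u2, by omega, hm, fun b d a1 a2 hP => ?_, fun e1 b a c d a1 a2 a3 a4 => ?_,
    fun e2 b a c a2 a3 a4 => ?_⟩
  · by_cases l : 2 ^ (36 * s) ≤ m - b
    · exact hl b d d d le_rfl le_rfl a1 a2 (Or.inl l) hP
    have hd := d_small hc w2 (show N2 ≤ 2 ^ t by omega) ht hP m2 (by omega) (u := 36 * s) (by omega)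
      (by omega)
    obtain ⟨n, hn, -⟩ := hP.p3 hp (by omega) (by omega) (sqb (by omega) m2 (by omega))
      (mem_Ioc.mpr ⟨a2, le_rfl⟩) (hm ▸ dvd_mul_left _ _)
    simp at hn
  · subst e1
    rw [one_mul] at key
    exact key b a c d a1 a2 a3 a4 (fun v v0 v1 => beta w2 hN2 u4 u5 u3 v0 v1)
      (fun v h' v0 v1 b1 b2 b3 => absurd (Nat.le_of_dvd v0
        ((cop (by omega) u5 b1 b2).dvd_of_dvd_mul_right b3)) (by omega))
  · subst e2
    refine key b a c 0 (Nat.zero_le _) a2 a3 a4 (fun v v0 v1 => beta0 ((Nat.squarefree_mul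
      (cop (by omega) u5 (by norm_num) (by omega)).symm).mpr ⟨Nat.prime_two.squarefree, u4⟩) v0 v1)
      (fun v h' v0 v1 b1 b2 b3 => ⟨?_, rfl⟩)
    obtain ⟨k, rfl⟩ := (cop (by omega) u5 b1 b2).dvd_of_dvd_mul_right ((dvd_mul_left _ _).trans b3)
    have k1 : k < 2 := lt_of_mul_lt_mul_left (a := u) (by omega) (Nat.zero_le _)
    have k0 : 0 < k := Nat.pos_of_mul_pos_left v0
    rw [show k = 1 by omega, mul_one]

lemma tbig {A : ℝ} {t : ℕ} (h4 : 4 ≤ t) (h : A ≤ t) : A * t ≤ 2 ^ t := by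
  have : t * t ≤ 2 ^ t := by
    clear h
    induction t, h4 using Nat.le_induction with
    | base => norm_num
    | succ t ht ih => rw [pow_succ]; nlinarith
  exact (mul_le_mul_of_nonneg_right h (by positivity)).trans (by exact_mod_cast this)

lemma arith6 {x K g s P T T5 m0 M S E D r : ℝ} (x0 : 0 < x) (K0 : 0 < K) (g1 : 1 ≤ g) (s1 : 1 ≤ s)
    (P1 : 1 ≤ P) (T1 : 1 ≤ T) (h0 : x / K ≤ m0) (h1 : m0 ≤ M + (D + 1) + S + E * T)
    (hD : D ≤ x / g ^ 8) (hS : S ≤ P + x * r ^ 2) (hr : r = 1 / g ^ 2) (h5 : T5 = T ^ 5)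
    (hE : E ≤ 1480 * s * P + 640 * s * (x / T5)) (k1 : 8 * K ≤ g ^ 4) (k2 : 8 * K * 1480 * s ≤ T)
    (k3 : T * T * P ≤ x) : x / (4 * K) ≤ M := by
  have a1 : x / g ^ 8 ≤ x / (8 * K) := by
    gcongr; exact k1.trans (pow_le_pow_right₀ g1 (by norm_num))
  have a2 : x * r ^ 2 ≤ x / (8 * K) := by
    rw [hr, div_pow, one_pow, ← pow_mul, mul_one_div]; gcongr
  have a3 : 1480 * s * P * T ≤ x / (8 * K) := by
    rw [le_div_iff₀ (by positivity)]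
    calc _ = 8 * K * 1480 * s * T * P := by ring
      _ ≤ T * T * P := by gcongr
      _ ≤ _ := k3
  have a4 : 640 * s * (x / T5) * T ≤ x / (8 * K) := by
    rw [le_div_iff₀ (by positivity), h5]
    calc _ = x * (8 * K * 640 * s / T ^ 4) := by field_simp
      _ ≤ x * 1 := by
        gcongr
        exact (div_le_one (by positivity)).mpr (le_trans (by nlinarith [mul_pos K0 (one_pos.trans_le s1)])
          (k2.trans (le_self_pow₀ T1 (by norm_num))))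
      _ = _ := mul_one _
  have a5 : P ≤ 1480 * s * P * T := by
    calc P = 1 * 1 * P * 1 := by ring
      _ ≤ _ := by gcongr; norm_num
  have a6 := mul_le_mul_of_nonneg_right hE (zero_le_one.trans T1)
  have e1 : x / K = 8 * (x / (8 * K)) := by field_simp
  have e2 : x / (4 * K) = 2 * (x / (8 * K)) := by field_simp; ring
  linarith

theorem core (e : ℕ) (e0 : 0 < e) (e4 : e ≤ 4) : ∃ δ : ℝ, 0 < δ ∧ ∃ N : ℕ, ∀ n, N ≤ n →
    ∃ M : Finset ℕ, δ * n ≤ M.card ∧ ∀ m ∈ M, m ≤ n ∧ Good e m := by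
  obtain ⟨c2, hc2, N2, w2⟩ := wp 2 le_rfl
  have w2' : W2 c2 N2 := fun Y hY => by
    obtain ⟨Q, a1, a2⟩ := w2 Y hY
    exact ⟨Q, a1, fun q hq => ⟨(a2 q hq).1, (a2 q hq).2.1, (a2 q hq).2.2.1⟩⟩
  clear w2
  obtain ⟨c4, hc4, N4, w4⟩ := wp 4 (by norm_num)
  obtain ⟨s0, hl⟩ := long
  obtain ⟨y0, hy⟩ := card_M0
  obtain ⟨C, hC, g0, hU⟩ := Usum hc2
  choose! Q0 q1 q2 using w4
  have hQ : ∀ y, N4 ≤ y → 4 * (c4 * y) ≤ ∑ q ∈ Q0 (4 * y), Real.log q := fun y h => by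
    have := q1 (4 * y) (by omega)
    push_cast at this
    linarith
  have hQ' : ∀ y, N4 ≤ y → ∀ q ∈ Q0 (4 * y), q.Prime ∧ 3 * y < q ∧ q ≤ 4 * y := fun y h q hq => by
    have := q2 (4 * y) (by omega) q hq
    exact ⟨this.1, this.2.2.2 _ y (by ring) le_rfl, this.2.1⟩
  clear q1 q2
  obtain ⟨g, g1, g2, g3, g4, g5⟩ : ∃ g : ℕ, g0 ≤ g ∧ N2 ≤ g ∧ 20 ≤ g ∧ 2521 ≤ c4 * g ∧
      245760 * C ≤ g := by
    obtain ⟨g, h⟩ := exists_nat_ge (2521 / c4 + 245760 * C)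
    have : 0 < 2521 / c4 := by positivity
    have : (g : ℝ) ≤ (g + g0 + N2 + 20 : ℕ) := by exact_mod_cast (by omega)
    exact ⟨g + g0 + N2 + 20, by omega, by omega, by omega, (div_le_iff₀' hc4).mp (by linarith),
      by linarith⟩
  have g6 : (1 : ℝ) ≤ g := by exact_mod_cast (show 1 ≤ g by omega)
  have g7 : g ≤ g ^ 2 := Nat.le_self_pow (by norm_num) _
  have g8 : g ≤ g ^ 8 := Nat.le_self_pow (by norm_num) _
  have g9 : 2521 ≤ c4 * (g ^ 2 : ℕ) := g4.trans (by gcongr)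
  obtain ⟨K, hK⟩ : ∃ K : ℝ, K = 30720 * C * g ^ 3 := ⟨_, rfl⟩
  have K0 : 0 < K := by rw [hK]; positivity
  obtain ⟨T, hT⟩ : ∃ T : ℕ, ∀ t, T ≤ t → 120 * g ^ 2 / c2 ≤ t ∧ 268801 / c4 ≤ t ∧
      5600 * g ^ 2 / c4 ≤ t ∧ 16 * C * g + 1 ≤ t ∧ 8 * K * 1480 * g ^ 2 ≤ t ∧
      480 + 24 * N4 + s0 + y0 ≤ t ∧ ((1 + g ^ 8 * (60 * g ^ 2) : ℕ) : ℝ) ≤ t := by
    obtain ⟨T, h⟩ := exists_nat_ge (120 * g ^ 2 / c2 + 268801 / c4 + 5600 * g ^ 2 / c4 +
      (16 * C * g + 1) + 8 * K * 1480 * g ^ 2 + (1 + g ^ 8 * (60 * g ^ 2) : ℕ))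
    refine ⟨T + (480 + 24 * N4 + s0 + y0), fun t ht => ?_⟩
    have : (T : ℝ) ≤ t := by exact_mod_cast (by omega)
    have : 0 ≤ 120 * g ^ 2 / c2 := by positivity
    have : 0 ≤ 268801 / c4 := by positivity
    have : 0 ≤ 5600 * g ^ 2 / c4 := by positivity
    have : 0 ≤ 16 * C * g + 1 := by positivity
    have : 0 ≤ 8 * K * 1480 * g ^ 2 := by positivity
    have : (0 : ℝ) ≤ (1 + g ^ 8 * (60 * g ^ 2) : ℕ) := by positivity
    exact ⟨by linarith, by linarith, by linarith, by linarith, by linarith, by omega, by linarith⟩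
  have b1 : 1 < 2 ^ (60 * g ^ 2) := Nat.one_lt_two_pow (by omega)
  refine ⟨1 / (4 * K * 2 ^ (60 * g ^ 2)), by positivity, (2 ^ (60 * g ^ 2)) ^ T, fun n hn => ?_⟩
  have n1 := Nat.pow_log_le_self (2 ^ (60 * g ^ 2)) (show n ≠ 0 from
    (lt_of_lt_of_le (by positivity) hn).ne')
  have n2 := Nat.lt_pow_succ_log_self b1 n
  obtain ⟨t1, t2, t3, t4, t5, t6, t7⟩ := hT _ (Nat.le_log_of_pow_le b1 hn)
  generalize Nat.log (2 ^ (60 * g ^ 2)) n = t at *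
  obtain ⟨s, hs⟩ : ∃ s, s = g ^ 2 * t := ⟨_, rfl⟩
  have hs' : (s : ℝ) = g ^ 2 * t := by exact_mod_cast hs
  rw [Nat.succ_eq_add_one, pow_succ, ← pow_mul, mul_assoc, ← hs] at n2
  rw [← pow_mul, mul_assoc, ← hs] at n1
  have s1 : 2 * t ≤ s := hs ▸ Nat.mul_le_mul_right _ (by omega)
  obtain ⟨τ, rfl⟩ : ∃ τ, t = τ + 2 := ⟨t - 2, by omega⟩
  have tb := fun A : ℝ => tbig (A := A) (show 4 ≤ τ + 2 by omega)
  have hW : ∀ w ∈ (Us τ (g ^ 8) c2).image (fun u => e * u), 0 < w ∧ w ≤ 2 ^ (τ + 2) := fun w hw => by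
    obtain ⟨u, hu, rfl⟩ := mem_image.mp hw
    have := mem_Ioc.mp (mem_filter.mp (mem_filter.mp hu).1).1
    exact ⟨Nat.mul_pos e0 this.1, mul_p2 (a := 2) e4 this.2 (by omega)⟩
  obtain ⟨M, m1, m2⟩ := count s (τ + 2) (g ^ 8) _ (Exc (fun y => Q0 (4 * y)) c4 s) (by omega)
    (by omega) (by omega) hW (fun _ => Exc_le)
  have r1 : 120 * s ≤ c2 * 2 ^ (τ + 2) := by
    have := tb _ t1
    rw [div_mul_eq_mul_div, div_le_iff₀' hc2] at this
    rw [hs']; linarith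
  have r2 : 5600 * s ≤ c4 * 2 ^ (τ + 2) := by
    have := tb _ t3
    rw [div_mul_eq_mul_div, div_le_iff₀' hc4] at this
    rw [hs']; linarith
  have r3 : τ + 2 + g ^ 8 * (60 * s) ≤ 2 ^ (τ + 2) := by
    have : (1 + g ^ 8 * (60 * g ^ 2)) * (τ + 2) ≤ 2 ^ (τ + 2) := by exact_mod_cast tb _ t7
    rw [hs]; linarith
  refine ⟨M, ?_, fun m hm => ?_⟩
  · have z1 := hy s (τ + 2) _ (by omega) (by omega) hW
    rw [sum_image (fun a _ b _ h => Nat.eq_of_mul_eq_mul_left e0 h)] at z1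
    have z2 := hU g τ g1 (by push_cast at t4; linarith)
    have z3 : 1 / 4 * ∑ u ∈ Us τ (g ^ 8) c2, 1 / (u : ℝ) ≤
        ∑ u ∈ Us τ (g ^ 8) c2, 1 / ((e * u : ℕ) : ℝ) := by
      rw [mul_sum]
      refine sum_le_sum fun u hu => ?_
      have : (0 : ℝ) < e := by exact_mod_cast e0
      have : (e : ℝ) ≤ 4 := by exact_mod_cast e4
      rw [Nat.cast_mul, ← one_div_mul_one_div]
      gcongr
    have τ0 : (0 : ℝ) ≤ τ := by positivity
    have z4 : 2 ^ (60 * s) / K ≤ 2 ^ (60 * s) / (480 * s) * (1 / 4 * ((τ + 1) / (8 * C * g))) := by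
      rw [hs', hK]
      push_cast
      calc _ = 2 ^ (60 * s) / (480 * ((g : ℝ) ^ 2 * (τ + 2))) * (1 / 4 * ((τ / 2 + 1) / (8 * C * g))) := by
            field_simp; ring
        _ ≤ _ := by gcongr; linarith
    have z5 := arith6 (M := M.card) (g := g) (T := 2 ^ (τ + 2)) (by positivity) K0 g6
      (by exact_mod_cast (show 1 ≤ s by omega)) (one_le_pow₀ (by norm_num)) (one_le_pow₀ (by norm_num))
      (z4.trans ((mul_le_mul_of_nonneg_left ((mul_le_mul_of_nonneg_left z2 (by norm_num)).trans z3)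
        (by positivity)).trans z1)) (by exact_mod_cast m1)
      (Nat.cast_div_le.trans (le_of_eq (by push_cast; rfl))) (card_Sm s (τ + 2) (by omega))
      (by rw [hs']; field_simp) (by rw [← pow_mul, mul_comm])
      (card_Exc hc4 g9 hs (by omega) ((div_le_iff₀' hc4).mp t2) r2 (by omega) (by omega) hQ hQ')
      (by rw [hK]; nlinarith [pow_pos (one_pos.trans_le g6) 3])
      (by have := tb _ t5; rw [hs']; linarith)
      (by exact_mod_cast mul_p2 (mul_p2 le_rfl le_rfl le_rfl) le_rfl (by omega))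
    refine le_trans ?_ z5
    have : (n : ℝ) ≤ 2 ^ (60 * s) * 2 ^ (60 * g ^ 2) := by exact_mod_cast n2.le
    calc _ ≤ 1 / (4 * K * 2 ^ (60 * g ^ 2)) * (2 ^ (60 * s) * 2 ^ (60 * g ^ 2)) := by gcongr
      _ = _ := by field_simp
  obtain ⟨w, a1, p, a2, a3, a4, a5, a6, a7, a8, a9⟩ := m2 m hm
  have a0 := (hW w a1).2
  obtain ⟨u, hu, rfl⟩ := mem_image.mp a1
  exact ⟨by omega, good hc2 w2' hQ' hs (by omega) (by linarith) (by omega) (by omega) r1 r3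
    (by omega) (by omega) a3 a2 a4 a0 e0 a6 hu a7 a8 a9 (fun b a c d => hl s (by omega) m b a c d a5 a6)⟩

end Pool.Agent.H.MP_636046_nt
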