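import Pool.Agent.H.MP_636046_nt.E
import Pool.Prelude.Def_F_1b46b985

set_option autoImplicit false

namespace Pool.Agent.H.MP_636046_nt
open Finset Nat N140ae710

lemma rep4 {m : ℕ} {s : Finset ℕ} (h0 : 0 < m) (hk : s.card ≤ 4) (hm : m ∈ s)
    (hs : ∀ a ∈ s, a ≤ m) (h : IsSquare (∏ a ∈ s, a !)) :
    ∃ b a c, c ≤ a ∧ a ≤ b ∧ b < m ∧ Par m b a c 0 := by
  rw [← mul_prod_erase _ _ hm] at h
  obtain ⟨b, hb, s1, k1, l1, e1⟩ := top (s.erase m) 2 (m - 1) (by rw [card_erase_of_mem hm]; omega)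
    (fun x hx => by have := hs x (mem_of_mem_erase hx); have := ne_of_mem_erase hx; omega)
  obtain ⟨a, ha, s2, k2, l2, e2⟩ := top s1 1 b k1 l1
  obtain ⟨c, hc, s3, k3, l3, e3⟩ := top s2 0 a k2 l2
  rw [Nat.le_zero, Finset.card_eq_zero] at k3
  rw [e1, e2, e3, k3, prod_empty] at h
  exact ⟨b, a, c, hc, ha, by omega, par_of_sq (by omega) hc h⟩

lemma list_rep (m : ℕ) (l : List ℕ) (h1 : l.Pairwise (· < ·)) (h2 : m ∈ l)
    (h3 : ∀ a ∈ l, 0 < a ∧ a ≤ m) (h4 : IsSquare (l.map factorial).prod) :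
    HasRepresentation m l.length := by
  have nd : l.Nodup := h1.imp ne_of_lt
  exact ⟨l.toFinset, List.toFinset_card_of_nodup nd, List.mem_toFinset.mpr h2,
    fun a ha => h3 a (List.mem_toFinset.mp ha), by rwa [List.prod_toFinset _ nd]⟩

lemma fs {n : ℕ} (h : 0 < n) : n ! = n * (n - 1)! := (Nat.mul_factorial_pred h.ne').symm

lemma min6 {m : ℕ} (h : Good 1 m) : HasMinimum m 6 := by
  obtain ⟨u, p, h1, h2, h3, -, h4, -⟩ := h
  have h5 : 2 * p ≤ m := by rw [h3, one_mul]; exact Nat.mul_le_mul_right _ h1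
  refine ⟨by norm_num, list_rep m [u - 1, u, p - 1, p, m - 1, m] (by simp; omega) (by simp)
    (by simp; omega) ⟨m * (u - 1)! * (p - 1)! * (m - 1)!, ?_⟩, fun j _ hj ⟨s, a1, a2, a3, a4⟩ => ?_⟩
  · simp only [List.map, List.prod_cons, List.prod_nil]
    rw [fs (show 0 < u by omega), fs (show 0 < p by omega), fs (show 0 < m by omega)]
    generalize (m - 1)! = z
    rw [h3]; ring
  · obtain ⟨b, a, c, d, b1, b2, b3, b4, b5⟩ := rep5 (by omega) (by omega) a2 (fun a ha => (a3 a ha).2) a4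
    exact h4 rfl b a c d b1 b2 b3 b4 b5

lemma min5 {m : ℕ} (h : Good 2 m) : HasMinimum m 5 := by
  obtain ⟨u, p, h1, h2, h3, -, -, h4⟩ := h
  have h5 : 2 * p ≤ u * p := Nat.mul_le_mul_right _ h1
  rw [mul_assoc] at h3
  generalize u * p = v at h3 h5
  refine ⟨by norm_num, list_rep m [2, v - 1, v, m - 1, m] (by simp; omega) (by simp)
    (by simp; omega) ⟨m * (v - 1)! * (m - 1)!, ?_⟩, fun j _ hj ⟨s, a1, a2, a3, a4⟩ => ?_⟩
  · simp only [List.map, List.prod_cons, List.prod_nil]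
    rw [fs (show 0 < v by omega), fs (show 0 < m by omega), factorial_two]
    generalize (m - 1)! = z
    rw [h3]; ring
  · obtain ⟨b, a, c, b2, b3, b4, b5⟩ := rep4 (by omega) (by omega) a2 (fun a ha => (a3 a ha).2) a4
    exact h4 rfl b a c b2 b3 b4 b5

lemma min4 {m : ℕ} (h : Good 4 m) : HasMinimum m 4 := by
  obtain ⟨u, p, h1, h2, h3, h4, -⟩ := h
  have h5 : 2 * p ≤ u * p := Nat.mul_le_mul_right _ h1
  rw [mul_assoc] at h3
  generalize u * p = v at h3 h5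
  refine ⟨by norm_num, list_rep m [v - 1, v, m - 1, m] (by simp; omega) (by simp)
    (by simp; omega) ⟨2 * v * (v - 1)! * (m - 1)!, ?_⟩, fun j _ hj ⟨s, a1, a2, a3, a4⟩ => ?_⟩
  · simp only [List.map, List.prod_cons, List.prod_nil]
    rw [fs (show 0 < v by omega), fs (show 0 < m by omega)]
    generalize (m - 1)! = z
    rw [h3]; ring
  · obtain ⟨b, d, b3, b4, b5⟩ := rep3 (by omega) (by omega) a2 (fun a ha => (a3 a ha).2) a4
    exact h4 b d b3 b4 b5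

lemma lower {e k : ℕ} (e0 : 0 < e) (e4 : e ≤ 4) (h : ∀ m, Good e m → HasMinimum m k) :
    ∃ c : ℝ, 0 < c ∧ ∃ N : ℕ, ∀ n : ℕ, N ≤ n → c * (n : ℝ) ≤ (countD k n : ℝ) := by
  classical
  obtain ⟨c, hc, N, hN⟩ := core e e0 e4
  refine ⟨c, hc, N, fun n hn => ?_⟩
  obtain ⟨M, m1, m2⟩ := hN n hn
  refine m1.trans (Nat.cast_le.mpr (card_le_card fun m hm => ?_))
  have h1 := h m (m2 m hm).2
  obtain ⟨s, -, a1, a2, -⟩ := h1.2.1
  exact mem_filter.mpr ⟨mem_Icc.mpr ⟨(a2 m a1).1, (m2 m hm).1⟩, h1⟩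

lemma upper (k n : ℕ) : (countD k n : ℝ) ≤ n := by
  classical
  exact_mod_cast (card_filter_le _ _).trans (by simp)

theorem six : PositiveLowerDensitySix := lower one_pos (by norm_num) fun _ => min6

theorem theta (k : ℕ) (hk : k ∈ ({4, 5, 6} : Finset ℕ)) : ∃ c C : ℝ, 0 < c ∧ c ≤ C ∧ ∃ N : ℕ,
    ∀ n : ℕ, N ≤ n → c * n ≤ countD k n ∧ countD k n ≤ C * n := by
  obtain ⟨c, hc, N, h⟩ : ∃ c : ℝ, 0 < c ∧ ∃ N : ℕ, ∀ n : ℕ, N ≤ n → c * (n : ℝ) ≤ (countD k n : ℝ) := by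
    simp only [mem_insert, mem_singleton] at hk
    rcases hk with rfl | rfl | rfl
    · exact lower (e := 4) (by norm_num) le_rfl fun _ => min4
    · exact lower (e := 2) (by norm_num) (by norm_num) fun _ => min5
    · exact six
  refine ⟨c, c + 1, hc, by linarith, N, fun n hn => ⟨h n hn, (upper k n).trans ?_⟩⟩
  nlinarith [show (0 : ℝ) ≤ n by positivity]

end Pool.Agent.H.MP_636046_nt
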